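import Mathlib

/-!
# TANK G, BC9, ROW ABS, part A: the order valuation ring of a rational function field

`F` is the field of fractions of the polynomial ring `k[t_1, .., t_d]`; `OO` is the valuation ring
of the order at the origin.
-/

set_option autoImplicit false

namespace Pool.Agent.TG9.Abs

open MvPolynomial

universe u

variable {k : Type*} [Field k] {d : ℕ}

/-- The order at the origin of a polynomial. -/
noncomputable def od (P : MvPolynomial (Fin d) k) : ℕ∞ := (P : MvPowerSeries (Fin d) k).order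

theorem od_zero : od (0 : MvPolynomial (Fin d) k) = ⊤ := by
  unfold od
  rw [MvPolynomial.coe_zero, MvPowerSeries.order_zero]

theorem od_eq_top {P : MvPolynomial (Fin d) k} : od P = ⊤ ↔ P = 0 := by
  unfold od
  rw [MvPowerSeries.order_eq_top_iff, MvPolynomial.coe_eq_zero_iff]

theorem od_mul (P Q : MvPolynomial (Fin d) k) : od (P * Q) = od P + od Q := by
  unfold od
  rw [MvPolynomial.coe_mul, MvPowerSeries.order_mul]

theorem od_add (P Q : MvPolynomial (Fin d) k) : min (od P) (od Q) ≤ od (P + Q) := by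
  unfold od
  rw [MvPolynomial.coe_add]
  exact MvPowerSeries.min_order_le_add

theorem od_one : od (1 : MvPolynomial (Fin d) k) = 0 := by
  have h1 := od_mul (1 : MvPolynomial (Fin d) k) 1
  rw [one_mul] at h1
  have h2 : od (1 : MvPolynomial (Fin d) k) ≠ ⊤ := by
    rw [Ne, od_eq_top]; exact one_ne_zero
  obtain ⟨n, hn⟩ := ENat.ne_top_iff_exists.1 h2
  rw [← hn] at h1 ⊢
  have h3 : n = n + n := by exact_mod_cast h1
  have h4 : n = 0 := by omega
  rw [h4]
  rfl

theorem od_pow (P : MvPolynomial (Fin d) k) (m : ℕ) : od (P ^ m) = m • od P := by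
  induction m with
  | zero => rw [pow_zero, od_one, zero_smul]
  | succ m ih => rw [pow_succ, od_mul, ih, succ_nsmul]

theorem od_neg (P : MvPolynomial (Fin d) k) : od (-P) = od P := by
  have h1 := od_mul (-P) (-P)
  have h2 := od_mul P P
  rw [neg_mul_neg, h2] at h1
  by_cases hP : P = 0
  · rw [hP, neg_zero]
  have h3 : od P ≠ ⊤ := fun h => hP (od_eq_top.1 h)
  have h4 : od (-P) ≠ ⊤ := fun h => hP (neg_eq_zero.1 (od_eq_top.1 h))
  obtain ⟨a, ha⟩ := ENat.ne_top_iff_exists.1 h3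
  obtain ⟨b, hb⟩ := ENat.ne_top_iff_exists.1 h4
  rw [← ha, ← hb] at h1 ⊢
  have h5 : a + a = b + b := by exact_mod_cast h1
  have h6 : b = a := by omega
  rw [h6]

/-- `od P ≤ m` if `P ≠ 0` has total degree `≤ m`. -/
theorem od_le {P : MvPolynomial (Fin d) k} (hP : P ≠ 0) {m : ℕ} (hm : P.totalDegree ≤ m) :
    od P ≤ m := by
  obtain ⟨s, hs⟩ : ∃ s, P.coeff s ≠ 0 := by
    by_contra hc
    push Not at hc
    exact hP (MvPolynomial.ext _ _ fun s => by rw [hc s, coeff_zero])
  have h1 : od P ≤ (s.degree : ℕ∞) := by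
    unfold od
    refine MvPowerSeries.order_le ?_
    rw [MvPolynomial.coeff_coe]
    exact hs
  refine h1.trans ?_
  have h2 : s.degree ≤ P.totalDegree := by
    have h3 := MvPolynomial.le_totalDegree (p := P) (s := s) (by rw [mem_support_iff]; exact hs)
    exact h3
  exact_mod_cast h2.trans hm

theorem one_le_od {P : MvPolynomial (Fin d) k} (hP : P.coeff 0 = 0) : 1 ≤ od P := by
  unfold od
  rw [MvPowerSeries.one_le_order_iff_constCoeff_eq_zero]
  rw [← MvPowerSeries.coeff_zero_eq_constantCoeff_apply, MvPolynomial.coeff_coe]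
  exact hP

theorem od_X (i : Fin d) : od (X i : MvPolynomial (Fin d) k) = 1 := by
  refine le_antisymm ?_ (one_le_od (by simp [coeff_X]))
  have h1 := od_le (k := k) (P := (X i : MvPolynomial (Fin d) k)) (X_ne_zero i) (m := 1)
    (by rw [totalDegree_X])
  exact_mod_cast h1

section Val

variable {F : Type*} [Field F] [Algebra k F] (φ : MvPolynomial (Fin d) k →ₐ[k] F)

/-- The valuation ring of the order at the origin. -/
noncomputable def OO (hφ : Function.Injective φ)
    (hfr : ∀ x : F, ∃ P Q : MvPolynomial (Fin d) k, Q ≠ 0 ∧ x = φ P / φ Q) :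
    ValuationSubring F where
  carrier := {x | ∃ P Q : MvPolynomial (Fin d) k, Q ≠ 0 ∧ x = φ P / φ Q ∧ od Q ≤ od P}
  mul_mem' := by
    rintro _ _ ⟨P, Q, hQ, rfl, h⟩ ⟨P', Q', hQ', rfl, h'⟩
    refine ⟨P * P', Q * Q', mul_ne_zero hQ hQ', ?_, ?_⟩
    · rw [map_mul, map_mul, div_mul_div_comm]
    · rw [od_mul, od_mul]
      exact add_le_add h h'
  one_mem' := ⟨1, 1, one_ne_zero, by rw [map_one, div_one], le_rfl⟩
  add_mem' := by
    rintro _ _ ⟨P, Q, hQ, rfl, h⟩ ⟨P', Q', hQ', rfl, h'⟩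
    refine ⟨P * Q' + P' * Q, Q * Q', mul_ne_zero hQ hQ', ?_, ?_⟩
    · have h1 : φ Q ≠ 0 := (map_ne_zero_iff φ hφ).2 hQ
      have h2 : φ Q' ≠ 0 := (map_ne_zero_iff φ hφ).2 hQ'
      rw [map_mul, map_add, map_mul, map_mul]
      field_simp
    · refine le_trans ?_ (od_add _ _)
      rw [od_mul, od_mul, od_mul]
      refine le_min (add_le_add h le_rfl) ?_
      rw [add_comm]
      exact add_le_add h' le_rfl
  zero_mem' := ⟨0, 1, one_ne_zero, by rw [map_zero, zero_div], by rw [od_zero]; exact le_top⟩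
  neg_mem' := by
    rintro _ ⟨P, Q, hQ, rfl, h⟩
    exact ⟨-P, Q, hQ, by rw [map_neg, neg_div], by rw [od_neg]; exact h⟩
  mem_or_inv_mem' := by
    intro x
    obtain ⟨P, Q, hQ, rfl⟩ := hfr x
    by_cases hP : P = 0
    · left
      exact ⟨P, Q, hQ, rfl, by rw [hP, od_zero]; exact le_top⟩
    rcases le_total (od Q) (od P) with h | h
    · left
      exact ⟨P, Q, hQ, rfl, h⟩
    · right
      exact ⟨Q, P, hP, by rw [inv_div], h⟩

variable {φ} {hφ : Function.Injective φ}
  {hfr : ∀ x : F, ∃ P Q : MvPolynomial (Fin d) k, Q ≠ 0 ∧ x = φ P / φ Q}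

theorem mem_OO {A B : MvPolynomial (Fin d) k} (hB : B ≠ 0) :
    φ A / φ B ∈ OO φ hφ hfr ↔ od B ≤ od A := by
  constructor
  · rintro ⟨P, Q, hQ, h1, h2⟩
    have hQ' : φ Q ≠ 0 := (map_ne_zero_iff φ hφ).2 hQ
    have hB' : φ B ≠ 0 := (map_ne_zero_iff φ hφ).2 hB
    rw [div_eq_div_iff hB' hQ', ← map_mul, ← map_mul] at h1
    have h3 := congrArg od (hφ h1)
    rw [od_mul, od_mul] at h3
    have h4 : od Q ≠ ⊤ := fun h => hQ (od_eq_top.1 h)
    by_contra h5
    rw [not_le] at h5
    have h6 : od A ≠ ⊤ := h5.ne_top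
    obtain ⟨q, hq⟩ := ENat.ne_top_iff_exists.1 h4
    obtain ⟨a, ha⟩ := ENat.ne_top_iff_exists.1 h6
    have h7 : od B ≠ ⊤ := fun h => hB (od_eq_top.1 h)
    obtain ⟨b, hb⟩ := ENat.ne_top_iff_exists.1 h7
    have h8 : od P ≠ ⊤ := by
      intro h
      rw [h, ← ha, ← hq] at h3
      have : ((a : ℕ∞) + q) = ⊤ := by rw [h3, top_add]
      exact absurd this (by exact_mod_cast (ENat.natCast_ne_top (a + q)))
    obtain ⟨p, hp⟩ := ENat.ne_top_iff_exists.1 h8
    rw [← ha, ← hq, ← hp, ← hb] at h3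
    rw [← hq, ← hp] at h2
    rw [← ha, ← hb] at h5
    have h9 : a + q = p + b := by exact_mod_cast h3
    have h10 : q ≤ p := by exact_mod_cast h2
    have h11 : a < b := by exact_mod_cast h5
    omega
  · intro h
    exact ⟨A, B, hB, rfl, h⟩

theorem phi_mem_OO (P : MvPolynomial (Fin d) k) : φ P ∈ OO φ hφ hfr := by
  have h1 := (mem_OO (φ := φ) (hφ := hφ) (hfr := hfr) (A := P) (B := 1) one_ne_zero).2
    (by rw [od_one]; exact zero_le)
  rwa [map_one, div_one] at h1

/-- The maximal ideal of the order valuation ring. -/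
theorem phi_lt_one_OO {P : MvPolynomial (Fin d) k} :
    (OO φ hφ hfr).valuation (φ P) < 1 ↔ P.coeff 0 = 0 := by
  have h0 : ∀ x : F, x ≠ 0 → ((OO φ hφ hfr).valuation x < 1 ↔ x⁻¹ ∉ OO φ hφ hfr) := fun x hx => by
    rw [← ValuationSubring.valuation_le_one_iff, map_inv₀, inv_le_one₀, not_le]
    exact zero_lt_iff.2 ((Valuation.ne_zero_iff _).2 hx)
  by_cases hP : P = 0
  · rw [hP, map_zero, map_zero, coeff_zero]
    exact ⟨fun _ => rfl, fun _ => zero_lt_one⟩
  have hP' : φ P ≠ 0 := (map_ne_zero_iff φ hφ).2 hP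
  rw [h0 _ hP']
  have h1 : (φ P)⁻¹ = φ 1 / φ P := by rw [map_one, one_div]
  rw [h1, mem_OO hP, od_one]
  constructor
  · intro h2
    by_contra h3
    apply h2
    have h4 := od_le (m := 0) (P := (C (P.coeff 0) : MvPolynomial (Fin d) k))
      (by rw [Ne, C_eq_zero]; exact h3) (by rw [totalDegree_C])
    unfold od
    refine (MvPowerSeries.order_le (d := 0) ?_).trans ?_
    · rw [MvPolynomial.coeff_coe]
      exact h3
    · simp
  · intro h2 h3
    have h4 := one_le_od h2
    have h5 : (1 : ℕ∞) ≤ 0 := h4.trans h3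
    exact absurd h5 (by decide)

end Val

end Pool.Agent.TG9.Abs
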