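import Pool.Agent.Lib.TG9.AbsA
import Pool.Agent.Lib.TG_h80.HH

/-!
# TANK G, BC9, ROW ABS, part B: extension of the order valuation with a given centre
-/

set_option autoImplicit false

namespace Pool.Agent.TG9.Abs

open MvPolynomial
open Pool.Agent.TG (ncl up mem_up ncl_up_stable exists_comap_eq exists_conj_eq comap_lt_one)

universe u

variable {k F N : Type u} [Field k] [Field F] [Field N] [Algebra k F] [Algebra k N] [Algebra F N]
  [IsScalarTower k F N] {d : ℕ} {φ : MvPolynomial (Fin d) k →ₐ[k] F}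
  {hφ : Function.Injective φ} {hfr : ∀ x : F, ∃ P Q : MvPolynomial (Fin d) k, Q ≠ 0 ∧ x = φ P / φ Q}

include hfr hφ in
/-- Elements of `F` integral over the polynomial ring. -/
theorem mem_range_of_integral {x : F} (hx : algebraMap F N x ∈ ncl (up N φ.range)) :
    ∃ P, φ P = x := by
  let _ : Algebra (MvPolynomial (Fin d) k) F := φ.toRingHom.toAlgebra
  have hmap : ∀ P, algebraMap (MvPolynomial (Fin d) k) F P = φ P := fun _ => rfl
  have hfs : FaithfulSMul (MvPolynomial (Fin d) k) F :=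
    (faithfulSMul_iff_algebraMap_injective _ _).2 hφ
  have hfrac : IsFractionRing (MvPolynomial (Fin d) k) F :=
    IsFractionRing.of_field _ _ fun z => by
      obtain ⟨P, Q, _, h⟩ := hfr z
      exact ⟨P, Q, h⟩
  have h2 : IsIntegral (MvPolynomial (Fin d) k) x := by
    obtain ⟨p, hp, hc, h0⟩ := TG.exists_poly_of_mem_ncl hx
    let f : MvPolynomial (Fin d) k →+* N := (algebraMap F N).comp φ.toRingHom
    obtain ⟨p', hp'1, _, hp'2⟩ := Polynomial.lifts_and_degree_eq_and_monic (f := f)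
      ((Polynomial.lifts_iff_coeff_lifts p).2 fun n => by
        obtain ⟨b, ⟨P, hP⟩, hb⟩ := mem_up.1 (hc n)
        refine ⟨P, ?_⟩
        rw [← hb, ← hP]
        rfl) hp
    refine ⟨p', hp'2, ?_⟩
    apply (algebraMap F N).injective
    rw [map_zero, Polynomial.hom_eval₂]
    rw [← hp'1, Polynomial.eval_map] at h0
    exact h0
  obtain ⟨P, hP⟩ := IsIntegrallyClosed.isIntegral_iff.1 h2
  exact ⟨P, hP⟩

omit [Algebra k F] [Algebra k N] [IsScalarTower k F N] [Field k] in
theorem comap_equiv_lt_one (V : ValuationSubring N) (ρ : N ≃ₐ[F] N) (x : N) :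
    (V.comap (ρ : N →+* N)).valuation x < 1 ↔ V.valuation (ρ x) < 1 := by
  by_cases hx : x = 0
  · subst hx; simp
  rw [TG.val_lt_one_iff' _ hx, TG.val_lt_one_iff' _ ((map_ne_zero ρ).2 hx), ← map_inv₀]
  exact Iff.rfl

/-- An extension of the order valuation ring which has the centre of `A`. -/
theorem exists_same [FiniteDimensional F N] [IsGalois F N] (A : ValuationSubring N)
    (hA : ∀ P, algebraMap F N (φ P) ∈ A)
    (hA1 : ∀ P, A.valuation (algebraMap F N (φ P)) < 1 ↔ P.coeff 0 = 0) :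
    ∃ B : ValuationSubring N, (∀ x : F, algebraMap F N x ∈ B ↔ x ∈ OO φ hφ hfr) ∧
      ∀ b ∈ ncl (up N φ.range), (A.valuation b < 1 ↔ B.valuation b < 1) := by
  classical
  obtain ⟨B₀, hB₀⟩ := exists_comap_eq (N := N) (OO φ hφ hfr)
  have hB₀m : ∀ x : F, algebraMap F N x ∈ B₀ ↔ x ∈ OO φ hφ hfr := fun x => by
    rw [← hB₀]; rfl
  have hupA : ∀ a ∈ up N φ.range, a ∈ A := by
    intro a ha
    obtain ⟨b, ⟨P, hP⟩, hb⟩ := mem_up.1 ha
    rw [← hb, ← hP]
    exact hA P
  have hupB : ∀ a ∈ up N φ.range, a ∈ B₀ := by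
    intro a ha
    obtain ⟨b, ⟨P, hP⟩, hb⟩ := mem_up.1 ha
    rw [← hb, ← hP, hB₀m]
    exact phi_mem_OO P
  have hnA : ∀ a ∈ ncl (up N φ.range), a ∈ A := TG.ncl_mem hupA
  have hnB : ∀ a ∈ ncl (up N φ.range), a ∈ B₀ := TG.ncl_mem hupB
  let R : Subring N := (ncl (up N φ.range)).toSubring
  have hR : ∀ ρ : N ≃ₐ[F] N, ∀ b ∈ R, ρ b ∈ R := fun ρ b hb => ncl_up_stable ρ hb
  let ctr : (V : ValuationSubring N) → (∀ a ∈ ncl (up N φ.range), a ∈ V) → Ideal R := fun V hV =>
    { carrier := {b | V.valuation (b : N) < 1}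
      add_mem' := fun {a b} ha hb => by
        change V.valuation ((a : N) + (b : N)) < 1
        exact Valuation.map_add_lt _ ha hb
      zero_mem' := by
        change V.valuation (0 : N) < 1
        rw [map_zero]; exact zero_lt_one
      smul_mem' := fun c b hb => by
        change V.valuation ((c : N) * (b : N)) < 1
        rw [map_mul]
        exact lt_of_le_of_lt (mul_le_of_le_one_left' ((V.valuation_le_one_iff _).2 (hV _ c.2)))
          hb }
  have hctr : ∀ V hV, ∀ b : R, b ∈ ctr V hV ↔ V.valuation (b : N) < 1 := fun V hV b => Iff.rfl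
  have hprime : ∀ V hV, (ctr V hV).IsPrime := fun V hV => by
    refine Ideal.isPrime_iff.2 ⟨?_, fun {a b} hab => ?_⟩
    · rw [Ne, Ideal.eq_top_iff_one, hctr V hV]
      change ¬ V.valuation (1 : N) < 1
      rw [map_one]
      exact lt_irrefl _
    · rw [hctr V hV] at hab
      change V.valuation ((a : N) * (b : N)) < 1 at hab
      rw [map_mul] at hab
      rw [hctr V hV, hctr V hV]
      by_contra hcon
      push Not at hcon
      exact absurd hab (not_lt.2 (one_le_mul hcon.1 hcon.2))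
  have := hprime A hnA
  have := hprime B₀ hnB
  obtain ⟨ρ, hρ⟩ := exists_conj_eq R hR (ctr A hnA) (ctr B₀ hnB) (fun b ⟨l, hl⟩ => by
    have hl' : algebraMap F N l ∈ ncl (up N φ.range) := by rw [hl]; exact b.2
    obtain ⟨P, hP⟩ := mem_range_of_integral (hφ := hφ) (hfr := hfr) hl'
    rw [hctr A hnA, hctr B₀ hnB, ← hl, ← hP, hA1, ← comap_lt_one, hB₀, phi_lt_one_OO])
  refine ⟨B₀.comap (ρ : N →+* N), fun x => ?_, fun b hb => ?_⟩
  · rw [ValuationSubring.mem_comap]
    change ρ (algebraMap F N x) ∈ B₀ ↔ _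
    rw [ρ.commutes, hB₀m]
  · have h1 := hρ ⟨b, hb⟩
    rw [hctr A hnA, hctr B₀ hnB] at h1
    rw [h1]
    change B₀.valuation (ρ b) < 1 ↔ _
    exact (comap_equiv_lt_one B₀ ρ b).symm

end Pool.Agent.TG9.Abs
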