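import Pool.Agent.Lib.TG9.AbsB

/-!
# TANK G, BC9, ROW ABS, part C: estimates for the order valuation
-/

set_option autoImplicit false

namespace Pool.Agent.TG9.Abs

open MvPolynomial

universe u

variable {k F N : Type u} [Field k] [Field F] [Field N] [Algebra k F] [Algebra k N] [Algebra F N]
  [IsScalarTower k F N] {d : ℕ} {φ : MvPolynomial (Fin d) k →ₐ[k] F}
  {hφ : Function.Injective φ} {hfr : ∀ x : F, ∃ P Q : MvPolynomial (Fin d) k, Q ≠ 0 ∧ x = φ P / φ Q}
  {B : ValuationSubring N}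

omit [IsScalarTower k F N] [Algebra k N] in
theorem val_le_of (hB : ∀ x : F, algebraMap F N x ∈ B ↔ x ∈ OO φ hφ hfr)
    {P Q : MvPolynomial (Fin d) k} (hQ : Q ≠ 0) (h : od Q ≤ od P) :
    B.valuation (algebraMap F N (φ P)) ≤ B.valuation (algebraMap F N (φ Q)) := by
  have hQ' : algebraMap F N (φ Q) ≠ 0 := (map_ne_zero _).2 ((map_ne_zero_iff φ hφ).2 hQ)
  have h1 : algebraMap F N (φ P / φ Q) ∈ B := (hB _).2 ((mem_OO hQ).2 h)
  rw [map_div₀] at h1
  rw [← B.valuation_le_one_iff, map_div₀,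
    div_le_one₀ (zero_lt_iff.2 ((Valuation.ne_zero_iff _).2 hQ'))] at h1
  exact h1

omit [IsScalarTower k F N] [Algebra k N] in
theorem val_X (hB : ∀ x : F, algebraMap F N x ∈ B ↔ x ∈ OO φ hφ hfr) (i j : Fin d) :
    B.valuation (algebraMap F N (φ (X i))) = B.valuation (algebraMap F N (φ (X j))) :=
  le_antisymm (val_le_of hB (X_ne_zero j) (by rw [od_X, od_X]))
    (val_le_of hB (X_ne_zero i) (by rw [od_X, od_X]))

omit [IsScalarTower k F N] [Algebra k N] in
theorem pow_le_val (hB : ∀ x : F, algebraMap F N x ∈ B ↔ x ∈ OO φ hφ hfr) (i : Fin d)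
    {P : MvPolynomial (Fin d) k} (hP : P ≠ 0) {m : ℕ} (hm : P.totalDegree ≤ m) :
    B.valuation (algebraMap F N (φ (X i))) ^ m ≤ B.valuation (algebraMap F N (φ P)) := by
  rw [← map_pow, ← map_pow, ← map_pow]
  refine val_le_of hB hP ((od_le hP hm).trans ?_)
  rw [od_pow, od_X]
  simp

omit [IsScalarTower k F N] [Algebra k N] in
theorem val_X_lt (hB : ∀ x : F, algebraMap F N x ∈ B ↔ x ∈ OO φ hφ hfr) (i : Fin d) :
    B.valuation (algebraMap F N (φ (X i))) < 1 := by
  have h0 : φ (X i) ≠ 0 := (map_ne_zero_iff φ hφ).2 (X_ne_zero i)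
  rw [TG.val_lt_one_iff' _ ((map_ne_zero _).2 h0), ← map_inv₀, hB]
  have h1 : (φ (X i))⁻¹ = φ 1 / φ (X i) := by rw [map_one, one_div]
  rw [h1, mem_OO (X_ne_zero i), od_one, od_X]
  decide

omit [IsScalarTower k F N] [Algebra k N] in
theorem val_X_ne (i : Fin d) (hφ : Function.Injective φ) :
    0 < B.valuation (algebraMap F N (φ (X i))) :=
  zero_lt_iff.2 ((Valuation.ne_zero_iff _).2 ((map_ne_zero _).2
    ((map_ne_zero_iff φ hφ).2 (X_ne_zero i))))

omit [IsScalarTower k F N] [Algebra k N] in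
/-- Elements of `F`. -/
theorem arch_base (hB : ∀ x : F, algebraMap F N x ∈ B ↔ x ∈ OO φ hφ hfr) (i : Fin d) (c : F) :
    ∃ n : ℕ, B.valuation (algebraMap F N c) * B.valuation (algebraMap F N (φ (X i))) ^ n ≤ 1 := by
  obtain ⟨P, Q, hQ, rfl⟩ := hfr c
  have h1 : od Q ≠ ⊤ := fun h => hQ (od_eq_top.1 h)
  obtain ⟨q, hq⟩ := ENat.ne_top_iff_exists.1 h1
  refine ⟨q, ?_⟩
  rw [← map_pow, ← map_mul, ← map_pow, ← map_mul, ← map_pow, B.valuation_le_one_iff, hB,
    div_mul_eq_mul_div, ← map_mul, mem_OO hQ, od_mul, od_pow, od_X, ← hq]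
  simp

omit [IsScalarTower k F N] [Algebra k N] in
/-- The value group is archimedean. -/
theorem arch (hB : ∀ x : F, algebraMap F N x ∈ B ↔ x ∈ OO φ hφ hfr) [Algebra.IsAlgebraic F N]
    (i : Fin d) (x : N) :
    ∃ n : ℕ, B.valuation x * B.valuation (algebraMap F N (φ (X i))) ^ n ≤ 1 := by
  classical
  set τ := B.valuation (algebraMap F N (φ (X i))) with hτ
  have hτ1 : τ < 1 := val_X_lt hB i
  rcases le_or_gt (B.valuation x) 1 with h1 | h1
  · exact ⟨0, by rw [pow_zero, mul_one]; exact h1⟩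
  have hx0 : x ≠ 0 := by rintro rfl; rw [map_zero] at h1; exact absurd h1 (not_lt.2 zero_le)
  have hint : IsIntegral F x := (Algebra.IsAlgebraic.isAlgebraic x).isIntegral
  set p := minpoly F x with hp
  have hmon : p.Monic := minpoly.monic hint
  have h0 : Polynomial.aeval x p = 0 := minpoly.aeval F x
  rw [Polynomial.aeval_eq_sum_range, Finset.sum_range_succ] at h0
  have hlc : p.coeff p.natDegree = 1 := hmon.coeff_natDegree
  rw [hlc, one_smul] at h0
  obtain ⟨j, hj, hle⟩ : ∃ j ∈ Finset.range p.natDegree,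
      B.valuation (x ^ p.natDegree) ≤ B.valuation (p.coeff j • x ^ j) := by
    by_contra hcon
    push Not at hcon
    have hne : B.valuation (x ^ p.natDegree) ≠ 0 :=
      (Valuation.ne_zero_iff _).2 (pow_ne_zero _ hx0)
    have h2 := Valuation.map_sum_lt B.valuation hne hcon
    have h3 : x ^ p.natDegree = -∑ i ∈ Finset.range p.natDegree, p.coeff i • x ^ i := by
      rw [eq_neg_iff_add_eq_zero, add_comm]; exact h0
    rw [h3, Valuation.map_neg] at h2
    exact lt_irrefl _ h2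
  rw [Finset.mem_range] at hj
  obtain ⟨n, hn⟩ := arch_base hB i (p.coeff j)
  refine ⟨n, le_trans (mul_le_mul_left ?_ _) hn⟩
  rw [Algebra.smul_def, map_mul, map_pow, map_pow] at hle
  have hxpos : 0 < B.valuation x := zero_lt_iff.2 ((Valuation.ne_zero_iff _).2 hx0)
  have e : p.natDegree = (p.natDegree - j - 1) + 1 + j := by omega
  rw [e, pow_add] at hle
  have h4 := le_of_mul_le_mul_right hle (pow_pos hxpos j)
  refine le_trans ?_ h4
  rw [pow_succ]
  have h5 : 1 ≤ B.valuation x ^ (p.natDegree - j - 1) := one_le_pow₀ h1.le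
  calc B.valuation x = 1 * B.valuation x := (one_mul _).symm
    _ ≤ _ := mul_le_mul_left h5 _

omit [IsScalarTower k F N] [Algebra k N] in
/-- For `m` large, `κ τ^m < 1`. -/
theorem arch' (hB : ∀ x : F, algebraMap F N x ∈ B ↔ x ∈ OO φ hφ hfr) [Algebra.IsAlgebraic F N]
    (i : Fin d) (κ : B.ValueGroup) :
    ∃ n : ℕ, ∀ m ≥ n, κ * B.valuation (algebraMap F N (φ (X i))) ^ m < 1 := by
  obtain ⟨x, rfl⟩ := B.valuation_surjective κ
  obtain ⟨n, hn⟩ := arch hB i x
  refine ⟨n + 1, fun m hm => ?_⟩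
  obtain ⟨l, rfl⟩ : ∃ l, m = n + (l + 1) := ⟨m - n - 1, by omega⟩
  rw [pow_add, ← mul_assoc]
  have h1 := val_X_lt hB i
  have h2 : B.valuation (algebraMap F N (φ (X i))) ^ (l + 1) < 1 :=
    pow_lt_one₀ zero_le h1 (Nat.succ_ne_zero l)
  exact lt_of_le_of_lt (mul_le_of_le_one_left' hn) h2

end Pool.Agent.TG9.Abs
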