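import Pool.Agent.Lib.TG9.AbsC

/-!
# TANK G, BC9, ROW ABS, part D: the core (Cramer's rule)
-/

set_option autoImplicit false

namespace Pool.Agent.TG9.Abs

open MvPolynomial
open Pool.Agent.TG (ncl up mem_up ncl_up_stable)

universe u

variable {k F N : Type u} [Field k] [Field F] [Field N] [Algebra k F] [Algebra k N] [Algebra F N]
  [IsScalarTower k F N] {d : ℕ} {φ : MvPolynomial (Fin d) k →ₐ[k] F}

/-- `B` has the centre of `A`. -/
def Same (φ : MvPolynomial (Fin d) k →ₐ[k] F) (A B : ValuationSubring N) : Prop :=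
  ∀ b ∈ ncl (up N φ.range), b ∈ B ∧ (A.valuation b < 1 ↔ B.valuation b < 1)

omit [Algebra k F] [Algebra k N] [IsScalarTower k F N] [Field k] in
theorem comap_le_iff (V : ValuationSubring N) (ρ : N ≃ₐ[F] N) (x y : N) :
    (V.comap (ρ : N →+* N)).valuation x ≤ (V.comap (ρ : N →+* N)).valuation y ↔
      V.valuation (ρ x) ≤ V.valuation (ρ y) := by
  by_cases hy : y = 0
  · subst hy
    rw [map_zero, map_zero, map_zero, le_zero_iff, le_zero_iff, map_eq_zero, map_eq_zero,
      map_eq_zero]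
  have h1 : 0 < (V.comap (ρ : N →+* N)).valuation y :=
    zero_lt_iff.2 ((Valuation.ne_zero_iff _).2 hy)
  have h2 : 0 < V.valuation (ρ y) :=
    zero_lt_iff.2 ((Valuation.ne_zero_iff _).2 ((map_ne_zero ρ).2 hy))
  rw [← div_le_one₀ h1, ← div_le_one₀ h2, ← map_div₀, ← map_div₀,
    ValuationSubring.valuation_le_one_iff, ← map_div₀, ValuationSubring.valuation_le_one_iff]
  exact Iff.rfl

/-- The inverse of the Vandermonde matrix. -/
theorem cramer {r : ℕ} (θ : Fin r → N) (hθ : Function.Injective θ) :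
    ∃ lam : Fin r → Fin r → N, ∀ P : Fin r → N, ∀ j,
      P j = ∑ s, lam j s * ∑ i, P i * θ s ^ (i : ℕ) := by
  classical
  set M := Matrix.vandermonde θ with hM
  have hdet : M.det ≠ 0 := Matrix.det_vandermonde_ne_zero_iff.2 hθ
  have hu : IsUnit M.det := isUnit_iff_ne_zero.2 hdet
  refine ⟨fun j s => M⁻¹ j s, fun P j => ?_⟩
  have h1 : (M⁻¹ * M).mulVec P = P := by
    rw [Matrix.nonsing_inv_mul _ hu, Matrix.one_mulVec]
  rw [← Matrix.mulVec_mulVec] at h1
  have h2 := congrFun h1 j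
  rw [Matrix.mulVec, dotProduct] at h2
  rw [← h2]
  refine Finset.sum_congr rfl fun s _ => ?_
  congr 1
  rw [Matrix.mulVec, dotProduct]
  refine Finset.sum_congr rfl fun i _ => ?_
  rw [hM, Matrix.vandermonde_apply, mul_comm]

theorem core [FiniteDimensional F N] [IsGalois F N] (hφ : Function.Injective φ)
    (hfr : ∀ x : F, ∃ P Q : MvPolynomial (Fin d) k, Q ≠ 0 ∧ x = φ P / φ Q)
    (A : ValuationSubring N)
    (hA : ∀ P, algebraMap F N (φ P) ∈ A)
    (hA1 : ∀ P, A.valuation (algebraMap F N (φ P)) < 1 ↔ P.coeff 0 = 0)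
    {r : ℕ} (σ : Fin r → (N ≃ₐ[F] N))
    (hσ : ∀ s, ∀ b ∈ ncl (up N φ.range), (A.valuation b < 1 ↔ A.valuation (σ s b) < 1))
    (θ : N) (hθ : Function.Injective fun s => σ s θ) {α β : ℕ} (hβα : β < α)
    (e : ℕ) (g : N) (hg : g ≠ 0) :
    ∃ m₁ : ℕ, ∀ m ≥ m₁, ∀ P : Fin r → MvPolynomial (Fin d) k, (∀ j, (P j).totalDegree ≤ m) →
      ∀ a : N, a = g * ∑ j, algebraMap F N (φ (P j)) * θ ^ (j : ℕ) →
      (∀ B, Same φ A B → a = 0 ∨ ∃ i : Fin d, B.valuation a ^ β ≤
          B.valuation (algebraMap F N (φ (X i))) ^ (α * (m + e))) →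
      ∀ j, P j = 0 := by
  classical
  obtain ⟨B, hB, hBA⟩ := exists_same (hφ := hφ) (hfr := hfr) A hA hA1
  have hupB : ∀ a ∈ up N φ.range, a ∈ B := by
    intro a ha
    obtain ⟨b, ⟨P, hP⟩, hb⟩ := mem_up.1 ha
    rw [← hb, ← hP, hB]
    exact phi_mem_OO P
  have hnB : ∀ a ∈ ncl (up N φ.range), a ∈ B := TG.ncl_mem hupB
  -- the conjugates have the same centre
  have hsame : ∀ s, Same φ A (B.comap ((σ s : N ≃ₐ[F] N) : N →+* N)) := fun s b hb => by
    have hb' := ncl_up_stable (σ s) hb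
    refine ⟨hnB _ hb', ?_⟩
    rw [comap_equiv_lt_one, hσ s b hb, hBA _ hb']
  obtain ⟨lam, hlam⟩ := cramer (fun s => σ s θ) hθ
  have : Algebra.IsAlgebraic F N := inferInstance
  -- constants
  let κ : Fin r → Fin r → Fin d → B.ValueGroup := fun j s i =>
    B.valuation (lam j s) ^ β *
      (B.valuation (algebraMap F N (φ (X i))) ^ (α * e) / B.valuation (σ s g) ^ β)
  obtain ⟨m₁, hm₁⟩ : ∃ m₁ : ℕ, ∀ m ≥ m₁, ∀ j s i,
      κ j s i * B.valuation (algebraMap F N (φ (X i))) ^ m < 1 := by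
    choose n hn using fun (x : Fin r × Fin r × Fin d) => arch' hB x.2.2 (κ x.1 x.2.1 x.2.2)
    refine ⟨Finset.univ.sup n, fun m hm j s i => hn (j, s, i) m ?_⟩
    exact (Finset.le_sup (f := n) (Finset.mem_univ (j, s, i))).trans hm
  refine ⟨m₁, fun m hm P hP a ha hcond => ?_⟩
  -- the values at the conjugates
  set b : Fin r → N := fun s => ∑ j, algebraMap F N (φ (P j)) * (σ s θ) ^ (j : ℕ) with hb
  have hab : ∀ s, σ s a = σ s g * b s := fun s => by
    rw [ha, map_mul, map_sum, hb]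
    congr 1
    refine Finset.sum_congr rfl fun j _ => ?_
    rw [map_mul, map_pow, (σ s).commutes]
  have hPb : ∀ j, algebraMap F N (φ (P j)) = ∑ s, lam j s * b s := fun j =>
    hlam (fun j => algebraMap F N (φ (P j))) j
  have hinj : ∀ j, algebraMap F N (φ (P j)) = 0 → P j = 0 := fun j h =>
    (map_eq_zero_iff φ hφ).1 ((map_eq_zero _).1 h)
  by_cases ha0 : a = 0
  · intro j
    apply hinj
    rw [hPb j]
    refine Finset.sum_eq_zero fun s _ => ?_
    have h1 := hab s
    rw [ha0, map_zero] at h1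
    have h2 : σ s g ≠ 0 := (map_ne_zero _).2 hg
    have h3 : b s = 0 := by
      rcases mul_eq_zero.1 h1.symm with h | h
      · exact absurd h h2
      · exact h
    rw [h3, mul_zero]
  have hbs : ∀ s, ∃ i : Fin d, B.valuation (b s) ^ β ≤
      (B.valuation (algebraMap F N (φ (X i))) ^ (α * e) / B.valuation (σ s g) ^ β) *
      B.valuation (algebraMap F N (φ (X i))) ^ (α * m) := by
    intro s
    obtain ⟨i, hi⟩ := (hcond _ (hsame s)).resolve_left ha0
    refine ⟨i, ?_⟩
    rw [← map_pow, ← map_pow, comap_le_iff] at hi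
    simp only [map_pow, (σ s).commutes, hab s, map_mul] at hi
    have hg' : 0 < B.valuation (σ s g) :=
      zero_lt_iff.2 ((Valuation.ne_zero_iff _).2 ((map_ne_zero _).2 hg))
    rw [div_mul_eq_mul_div, le_div_iff₀ (pow_pos hg' _), ← mul_pow, mul_comm (B.valuation (b s)),
      ← pow_add, ← mul_add, add_comm e m]
    exact hi
  intro j
  by_contra hPj
  have hPj' : algebraMap F N (φ (P j)) ≠ 0 := fun h => hPj (hinj j h)
  -- some `s` dominates
  obtain ⟨s, hs⟩ : ∃ s, B.valuation (algebraMap F N (φ (P j))) ≤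
      B.valuation (lam j s) * B.valuation (b s) := by
    by_contra hcon
    push Not at hcon
    have h1 : B.valuation (∑ s, lam j s * b s) < B.valuation (algebraMap F N (φ (P j))) := by
      refine Valuation.map_sum_lt _ ((Valuation.ne_zero_iff _).2 hPj') fun s _ => ?_
      rw [map_mul]
      exact hcon s
    rw [← hPb j] at h1
    exact lt_irrefl _ h1
  obtain ⟨i, hi⟩ := hbs s
  set τ := B.valuation (algebraMap F N (φ (X i))) with hτ
  have hτ0 : 0 < τ := val_X_ne i hφ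
  have h1 : τ ^ m ≤ B.valuation (algebraMap F N (φ (P j))) := pow_le_val hB i hPj (hP j)
  have h2 : τ ^ (m * β) ≤ κ j s i * τ ^ (α * m) := by
    calc τ ^ (m * β) = (τ ^ m) ^ β := by rw [pow_mul]
      _ ≤ (B.valuation (lam j s) * B.valuation (b s)) ^ β :=
          pow_le_pow_left' (h1.trans hs) _
      _ = B.valuation (lam j s) ^ β * B.valuation (b s) ^ β := mul_pow _ _ _
      _ ≤ B.valuation (lam j s) ^ β * _ := mul_le_mul_right hi _
      _ = κ j s i * τ ^ (α * m) := (mul_assoc _ _ _).symm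
  obtain ⟨q, hq⟩ : ∃ q, α * m = m * β + q ∧ m ≤ q := by
    refine ⟨α * m - m * β, ?_, ?_⟩
    · have : m * β ≤ α * m := by nlinarith
      omega
    · have : m * β + m ≤ α * m := by nlinarith
      omega
  have h6 : κ j s i * τ ^ (α * m) = τ ^ (m * β) * (κ j s i * τ ^ q) := by
    rw [hq.1, pow_add]
    ac_rfl
  rw [h6] at h2
  have h3 := hm₁ q (hm.le.trans hq.2) j s i
  have h5 : τ ^ (m * β) * (κ j s i * τ ^ q) < τ ^ (m * β) * 1 :=
    mul_lt_mul_of_pos_left h3 (pow_pos hτ0 _)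
  rw [mul_one] at h5
  exact absurd h2 (not_le.2 h5)

end Pool.Agent.TG9.Abs
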