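import Pool.Agent.Lib.TG9.Defs
import Pool.Agent.Lib.TG_h80.HH

/-!
# TANK G, backup track BC9: the count of local degrees, the second map
-/

set_option autoImplicit false

namespace Pool.Agent.TG9

open Pool.Agent.TG (Ov ZDim IsMin IsModel Bir ch chN stab LDeg)
open Pool.Agent.LU2 (locV)
open Pool.Agent.TG15 (Gt Tp hx smulK)
open Module Filter

universe u

section Abs

variable {k N : Type u} [Field k] [Field N] [Algebra k N]

/-- `B` is centred at the centre of `A` on the elements integral over `k[S]`. -/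
def SameC (k : Type u) {N : Type u} [Field k] [Field N] [Algebra k N] (S : Set N)
    (A B : ValuationSubring N) : Prop :=
  Ov k B ∧ ∀ b : N, IsIntegral (Algebra.adjoin k S) b → b ∈ B ∧
    (A.valuation b < 1 ↔ B.valuation b < 1)

end Abs

/-- ROW ABS (helpers 54, 57): the count, final form. `F = k(y)` has transcendence degree `d`,
`y i₀ = 1`, `C m` is a graded system of finite dimensional subspaces of `E`, `y i ∈ C 1`; for every
`B` with the same centre as `A` the elements of `C' m` have value at least `(α / β) m B(l)`, `l` the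
coordinates at the point, `β < α`. Then the local degree of `E / F` at `A` is bounded by the
growth of `C m / C' m`. -/
def AbsStmt (k F E : Type u) [Field k] [Field F] [Field E] [Algebra k F] [Algebra k E]
    [Algebra F E] [IsScalarTower k F E] (d : ℕ) : Prop :=
  IsAlgClosed k → Algebra.trdeg k F = d → ∀ (C C' : ℕ → Submodule k E) (α β : ℕ)
    (i₀ : Fin (d + 1)) (y : Fin (d + 1) → F),
    0 < β → β < α → (∀ m, C' m ≤ C m) → (∀ m, (C m).FG) →
    (∀ a b, C a * C b ≤ C (a + b)) → (∀ i, algebraMap F E (y i) ∈ C 1) → y i₀ = 1 →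
    (∀ x : E, ∃ m, ∃ a ∈ C m, ∃ b ∈ C m, b ≠ 0 ∧ x = a / b) →
    IntermediateField.adjoin k (Set.range y) = ⊤ →
    ∀ (A : ValuationSubring E), ZDim k A → (∀ i, algebraMap F E (y i) ∈ A) →
    (∀ B : ValuationSubring E, SameC k (Set.range fun i => algebraMap F E (y i)) A B →
      ∀ m, ∀ a ∈ C' m, ∃ (i : Fin (d + 1)) (γ : k),
        A.valuation (algebraMap F E (y i) - algebraMap k E γ) < 1 ∧
        B.valuation a ^ β ≤
          B.valuation (algebraMap F E (y i) - algebraMap k E γ) ^ (α * m)) →
    ∀ (N : Type u) [Field N] [Algebra k N] [Algebra F N] [IsScalarTower k F N]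
      [FiniteDimensional F N] [IsGalois F N] (j : E →ₐ[F] N) (W : ValuationSubring N),
      W.comap (j : E →+* N) = A →
    ∀ r ≤ j.fieldRange.fixingSubgroup.relIndex (stab W (locV (W.comap (algebraMap F N))
        (Algebra.adjoin k (Set.range y)))),
      ∃ e₀ : ℕ, ∀ e ≥ e₀, ∀ᶠ m : ℕ in atTop,
        finrank k (C' (m + e)) + r * (m + d).choose d ≤ finrank k (C (m + e))

/-- ROW SEC: one form of the chain lemma for several fields at once. `E j / k` are fields
of transcendence degree `≤ d j` with elements `y j a` (`a ∈ Fin (n + 1)`, some `y j a ≠ 0`); `h` are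
`n + 1` forms of degree `s` with generic coefficients, `h i` depends on all `y`. For every `j`,
the first `d j + 1` forms `h 0 (y j), .., h (d j) (y j)` have no common zero on the model of `y j`
(bpf), and at every zero-dimensional `V` of `E j` the local coordinates satisfy the chain bound. -/
def SecStmt (k : Type u) [Field k] (n s : ℕ) : Prop :=
  IsAlgClosed k → Big k → n + 1 ≤ s → ∀ (J : Type) [Countable J] (E : J → Type u)
    [∀ j, Field (E j)] [∀ j, Algebra k (E j)] (d : J → ℕ), (∀ j, d j ≤ n) → (∀ j, 0 < d j) →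
    ∀ y : ∀ j, Fin (n + 1) → E j, (∀ j, ∃ a, y j a ≠ 0) →
    (∀ j, Algebra.trdeg k (IntermediateField.adjoin k
      {x : E j | ∃ a b, x = y j a / y j b}) ≤ d j) →
    ∀ S₀ : Set k, S₀.Countable →
    ∃ h : Fin (n + 1) → MvPolynomial (Fin (n + 1)) k, (∀ i, (h i).IsHomogeneous s) ∧
      (∃ c : Fin (n + 1) × {m : Fin (n + 1) →₀ ℕ // m.degree = s} → k,
        AlgebraicIndependent (Subfield.closure S₀) c ∧
        ∀ i m, (h i).coeff m.1 = c (i, m)) ∧
      ∀ j, ∀ V : ValuationSubring (E j), ZDim k V →
        ∀ a₀, (∀ a, y j a / y j a₀ ∈ V) → y j a₀ ≠ 0 →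
        ∃ i₀ : Fin (n + 1), (i₀ : ℕ) ≤ d j ∧
          V.valuation (MvPolynomial.aeval (y j) (h i₀)) = V.valuation (y j a₀) ^ s ∧
          ∀ a : Fin (n + 1), ∀ β : k, V.valuation (y j a / y j a₀ - algebraMap k _ β) < 1 →
            ∃ (i : Fin (n + 1)) (γ : k), (i : ℕ) ≤ d j ∧
              V.valuation (MvPolynomial.aeval (y j) (h i) / MvPolynomial.aeval (y j) (h i₀) -
                algebraMap k _ γ) < 1 ∧
              V.valuation (y j a / y j a₀ - algebraMap k _ β) ^ (d j + 1) ≤
                V.valuation (MvPolynomial.aeval (y j) (h i) / MvPolynomial.aeval (y j) (h i₀) -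
                  algebraMap k _ γ)

end Pool.Agent.TG9
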