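import Pool.Agent.Lib.TG9.AbsD
import Pool.Agent.Lib.TG9.Defs2
import Pool.Agent.Lib.TG_h62.Grow

/-!
# TANK G, BC9, ROW ABS, part E: the count with automorphisms
-/

set_option autoImplicit false

namespace Pool.Agent.TG9.Abs

open MvPolynomial Module Filter
open Pool.Agent.TG (ncl up mem_up ncl_up_stable Ov ZDim)
open Pool.Agent.TGh62 (mon expo expo_injective mon_eq_aeval mon_div mon_mem card_sym)

universe u

/-! ### linear algebra -/

theorem finrank_add_card_le {k E : Type*} [Field k] [AddCommGroup E] [Module k E]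
    {C' C : Submodule k E} (hle : C' ≤ C) (hC : C.FG) {ι : Type*} [Fintype ι] (v : ι → E)
    (hv : ∀ i, v i ∈ C) (hind : ∀ c : ι → k, ∑ i, c i • v i ∈ C' → c = 0) :
    finrank k C' + Fintype.card ι ≤ finrank k C := by
  classical
  have hfd : FiniteDimensional k C := Module.Finite.iff_fg.2 hC
  have hfd' : FiniteDimensional k C' := Submodule.finiteDimensional_of_le hle
  have hli : LinearIndependent k v := by
    rw [Fintype.linearIndependent_iff]
    intro c hc i
    have := hind c (by rw [hc]; exact C'.zero_mem)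
    rw [this]
    rfl
  set D := Submodule.span k (Set.range v) with hD
  have hDle : D ≤ C := Submodule.span_le.2 (by rintro _ ⟨i, rfl⟩; exact hv i)
  have hDr : finrank k D = Fintype.card ι := finrank_span_eq_card hli
  have hfD : FiniteDimensional k D := Submodule.finiteDimensional_of_le hDle
  have hdis : C' ⊓ D = ⊥ := by
    rw [Submodule.eq_bot_iff]
    rintro x ⟨hx1, hx2⟩
    rw [SetLike.mem_coe, hD, Submodule.mem_span_range_iff_exists_fun] at hx2
    obtain ⟨c, hc⟩ := hx2
    have h1 := hind c (by rw [hc]; exact hx1)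
    rw [← hc, h1]
    simp
  have h1 := Submodule.finrank_sup_add_finrank_inf_eq C' D
  rw [hdis, finrank_bot, add_zero, hDr] at h1
  rw [← h1]
  exact Submodule.finrank_mono (sup_le hle hDle)

theorem pow_le_of_mul {k E : Type*} [Field k] [Field E] [Algebra k E] {C : ℕ → Submodule k E}
    (hmul : ∀ a b, C a * C b ≤ C (a + b)) (a : ℕ) : ∀ m, 0 < m → C a ^ m ≤ C (a * m) := by
  intro m
  induction m with
  | zero => intro h; exact absurd h (lt_irrefl 0)
  | succ m ih =>
    intro _
    rcases Nat.eq_zero_or_pos m with rfl | hm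
    · rw [zero_add, pow_one, mul_one]
    · rw [pow_succ, Nat.mul_succ]
      exact (mul_le_mul' (ih hm) le_rfl).trans (hmul _ _)

theorem expo_degree {n r : ℕ} (s : Sym (Fin (n + 1)) r) : (expo s).degree ≤ r := by
  have h2 : ∑ a : Fin (n + 1), Multiset.count a (s : Multiset (Fin (n + 1))) = r := by
    rw [Multiset.sum_count_eq_card (fun a _ => Finset.mem_univ a)]
    exact s.2
  rw [Fin.sum_univ_succ] at h2
  rw [Finsupp.degree_eq_sum]
  have h3 : ∑ i : Fin n, (expo s) i = ∑ i : Fin n,
      Multiset.count i.succ (s : Multiset (Fin (n + 1))) :=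
    Finset.sum_congr rfl fun i _ => by simp [expo]
  rw [h3]
  omega

theorem totalDegree_le {k : Type*} [Field k] {n r : ℕ} (c : Sym (Fin (n + 1)) r → k) :
    (∑ s, c s • (monomial (expo s) (1 : k) : MvPolynomial (Fin n) k)).totalDegree ≤ r := by
  refine totalDegree_finsetSum_le fun s _ => ?_
  refine (totalDegree_smul_le _ _).trans ?_
  refine (totalDegree_monomial_le _ _).trans ?_
  exact expo_degree s

theorem coeff_sum_expo {k : Type*} [Field k] {n r : ℕ} (c : Sym (Fin (n + 1)) r → k)
    (h : ∑ s, c s • (monomial (expo s) (1 : k) : MvPolynomial (Fin n) k) = 0) : c = 0 := by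
  classical
  funext s
  have h1 := congrArg (coeff (expo s)) h
  rw [coeff_sum, coeff_zero] at h1
  rw [Finset.sum_eq_single s] at h1
  · rw [coeff_smul, coeff_monomial, if_pos rfl, smul_eq_mul, mul_one] at h1
    exact h1
  · intro s' _ hs'
    rw [coeff_smul, coeff_monomial, if_neg fun h => hs' (expo_injective h), smul_zero]
  · intro h2
    exact absurd (Finset.mem_univ _) h2

/-! ### valuations -/

theorem comap_le_iff' {E N : Type*} [Field E] [Field N] (V : ValuationSubring N) (f : E →+* N)
    (x y : E) : (V.comap f).valuation x ≤ (V.comap f).valuation y ↔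
      V.valuation (f x) ≤ V.valuation (f y) := by
  by_cases hy : y = 0
  · subst hy
    rw [map_zero, map_zero, map_zero, le_zero_iff, le_zero_iff, map_eq_zero, map_eq_zero,
      map_eq_zero]
  have h1 : 0 < (V.comap f).valuation y := zero_lt_iff.2 ((Valuation.ne_zero_iff _).2 hy)
  have h2 : 0 < V.valuation (f y) :=
    zero_lt_iff.2 ((Valuation.ne_zero_iff _).2 ((map_ne_zero f).2 hy))
  rw [← div_le_one₀ h1, ← div_le_one₀ h2, ← map_div₀, ← map_div₀,
    ValuationSubring.valuation_le_one_iff, ← map_div₀, ValuationSubring.valuation_le_one_iff]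
  exact Iff.rfl

theorem comap_lt_one' {E N : Type*} [Field E] [Field N] (V : ValuationSubring N) (f : E →+* N)
    (x : E) : (V.comap f).valuation x < 1 ↔ V.valuation (f x) < 1 := by
  by_cases hx : x = 0
  · subst hx; simp
  rw [TG.val_lt_one_iff' _ hx, TG.val_lt_one_iff' _ ((map_ne_zero f).2 hx), ← map_inv₀]
  exact Iff.rfl

theorem const_eq {k E : Type*} [Field k] [Field E] [Algebra k E] {A : ValuationSubring E}
    (hA : ∀ c : k, algebraMap k E c ∈ A) {a b : k}
    (h : A.valuation (algebraMap k E a - algebraMap k E b) < 1) : a = b := by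
  by_contra hne
  have h1 : a - b ≠ 0 := sub_ne_zero.2 hne
  rw [← map_sub, TG.val_lt_one_iff' _ ((map_ne_zero _).2 h1), ← map_inv₀] at h
  exact h (hA _)

end Pool.Agent.TG9.Abs
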