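import Pool.Agent.Lib.TG9.AbsE

/-!
# TANK G, BC9, ROW ABS, part F: the count with automorphisms
-/

set_option autoImplicit false

namespace Pool.Agent.TG9.Abs

open MvPolynomial Module Filter
open Pool.Agent.TG (ncl up mem_up ncl_up_stable Ov ZDim)
open Pool.Agent.TGh62 (mon expo expo_injective mon_eq_aeval mon_div mon_mem card_sym)

universe u

variable {k F E N : Type u} [Field k] [Field F] [Field E] [Field N] [Algebra k F] [Algebra k E]
  [Algebra k N] [Algebra F E] [Algebra F N] [IsScalarTower k F E] [IsScalarTower k F N] {d : ℕ}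

theorem exists_coords (htr : Algebra.trdeg k F = d) (t : Fin d → F)
    (hgen : IntermediateField.adjoin k (Set.range t) = ⊤) :
    Function.Injective (aeval t : MvPolynomial (Fin d) k →ₐ[k] F) ∧
      ∀ x : F, ∃ P Q : MvPolynomial (Fin d) k, Q ≠ 0 ∧ x = aeval t P / aeval t Q := by
  have h1 : Algebra.IsAlgebraic (Algebra.adjoin k (Set.range t)) F := by
    constructor
    intro x
    rw [← IntermediateField.isAlgebraic_adjoin_iff]
    exact isAlgebraic_algebraMap (⟨x, by rw [hgen]; trivial⟩ :
      IntermediateField.adjoin k (Set.range t))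
  have h2 : AlgebraicIndependent k t := by
    refine (Algebra.IsAlgebraic.isTranscendenceBasis_of_lift_le_trdeg_of_finite k t ?_).1
    rw [htr]
    simp
  refine ⟨h2, fun x => ?_⟩
  have hx : x ∈ IntermediateField.adjoin k (Set.range t) := by rw [hgen]; trivial
  rw [IntermediateField.mem_adjoin_range_iff] at hx
  obtain ⟨P, Q, h⟩ := hx
  by_cases hQ : Q = 0
  · refine ⟨0, 1, one_ne_zero, ?_⟩
    rw [h, hQ, map_zero, div_zero, zero_div]
  · exact ⟨P, Q, hQ, h⟩

theorem val_phi {W : ValuationSubring N} (hW : Ov k W) (t : Fin d → F)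
    (ht : ∀ i, W.valuation (algebraMap F N (t i)) < 1) (P : MvPolynomial (Fin d) k) :
    W.valuation (algebraMap F N (aeval t P) - algebraMap k N (P.coeff 0)) < 1 := by
  induction P using MvPolynomial.induction_on with
  | C a =>
    rw [aeval_C, coeff_C, if_pos rfl, ← IsScalarTower.algebraMap_apply, sub_self, map_zero]
    exact zero_lt_one
  | add p q hp hq =>
    rw [map_add, map_add, coeff_add, map_add, add_sub_add_comm]
    exact Valuation.map_add_lt _ hp hq
  | mul_X p i hp =>
    have h1 : (p * X i).coeff 0 = 0 := by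
      rw [mul_comm, coeff_X_mul', if_neg]
      simp
    rw [h1, map_zero, sub_zero, map_mul, map_mul, aeval_X, map_mul]
    have h2 : W.valuation (algebraMap F N (aeval t p)) ≤ 1 := by
      have h3 : algebraMap F N (aeval t p) = (algebraMap F N (aeval t p) -
        algebraMap k N (p.coeff 0)) + algebraMap k N (p.coeff 0) := by ring
      rw [h3]
      exact Valuation.map_add_le _ hp.le ((W.valuation_le_one_iff _).2 (hW _))
    exact lt_of_le_of_lt (mul_le_of_le_one_left' h2) (ht i)

theorem adjoin_eq {S : Type*} [CommRing S] [Algebra k S] (i₀ : Fin (d + 1)) (y : Fin (d + 1) → S)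
    (hy0 : y i₀ = 1) (γ : Fin (d + 1) → k) :
    Algebra.adjoin k (Set.range fun i : Fin d =>
      y (i₀.succAbove i) - algebraMap k S (γ (i₀.succAbove i))) =
    Algebra.adjoin k (Set.range y) := by
  refine le_antisymm (Algebra.adjoin_le ?_) (Algebra.adjoin_le ?_)
  · rintro _ ⟨i, rfl⟩
    exact sub_mem (Algebra.subset_adjoin ⟨_, rfl⟩) (Subalgebra.algebraMap_mem _ _)
  · rintro _ ⟨j, rfl⟩
    rcases Fin.eq_self_or_eq_succAbove i₀ j with h | ⟨i, h⟩
    · rw [h, hy0]
      exact Subalgebra.one_mem _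
    · rw [h]
      have h1 : y (i₀.succAbove i) = (y (i₀.succAbove i) -
        algebraMap k S (γ (i₀.succAbove i))) + algebraMap k S (γ (i₀.succAbove i)) := by ring
      rw [h1]
      exact add_mem (Algebra.subset_adjoin ⟨i, rfl⟩) (Subalgebra.algebraMap_mem _ _)

omit [IsScalarTower k F N] in
theorem gen_eq (i₀ : Fin (d + 1)) (y : Fin (d + 1) → F)
    (hy0 : y i₀ = 1) (γ : Fin (d + 1) → k) (h : IntermediateField.adjoin k (Set.range y) = ⊤) :
    IntermediateField.adjoin k (Set.range fun i : Fin d =>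
      y (i₀.succAbove i) - algebraMap k F (γ (i₀.succAbove i))) = ⊤ := by
  rw [eq_top_iff, ← h, IntermediateField.adjoin_le_iff]
  rintro _ ⟨j, rfl⟩
  rcases Fin.eq_self_or_eq_succAbove i₀ j with h | ⟨i, h⟩
  · rw [h, hy0]
    exact IntermediateField.one_mem _
  · rw [h]
    have h1 : y (i₀.succAbove i) = (y (i₀.succAbove i) -
      algebraMap k F (γ (i₀.succAbove i))) + algebraMap k F (γ (i₀.succAbove i)) := by ring
    rw [h1]
    exact IntermediateField.add_mem _ (IntermediateField.subset_adjoin _ _ ⟨i, rfl⟩)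
      (IntermediateField.algebraMap_mem _ _)

theorem up_eq (i₀ : Fin (d + 1)) (y : Fin (d + 1) → F) (hy0 : y i₀ = 1) (γ : Fin (d + 1) → k) :
    up N (aeval (fun i : Fin d => y (i₀.succAbove i) - algebraMap k F (γ (i₀.succAbove i))) :
      MvPolynomial (Fin d) k →ₐ[k] F).range =
    Algebra.adjoin k (Set.range fun i => algebraMap F N (y i)) := by
  rw [← Algebra.adjoin_range_eq_range_aeval, adjoin_eq i₀ y hy0 γ]
  unfold TG.up
  rw [AlgHom.map_adjoin, ← Set.range_comp]
  rfl

omit [IsScalarTower k F N] [Algebra k F] [Algebra k E] [IsScalarTower k F E] [Field k]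
  [Algebra k N] in
/-- Automorphisms different on `E` differ at a primitive element. -/
theorem exists_prim [FiniteDimensional F N] [IsGalois F N] (j : E →ₐ[F] N) {r : ℕ}
    (σ : Fin r → (N ≃ₐ[F] N)) (hdist : ∀ s s', s ≠ s' → ∃ x : E, σ s (j x) ≠ σ s' (j x)) :
    ∃ θ : E, Function.Injective fun s => σ s (j θ) := by
  have h1 : FiniteDimensional F E := Module.Finite.of_injective j.toLinearMap j.injective
  have h2 : Algebra.IsSeparable F E := Algebra.IsSeparable.of_algHom F N j
  obtain ⟨θ, hθ⟩ := Field.exists_primitive_element F E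
  refine ⟨θ, fun s s' hss => ?_⟩
  by_contra hne
  obtain ⟨x, hx⟩ := hdist s s' hne
  apply hx
  let f : E →ₐ[F] N := ((σ s : N ≃ₐ[F] N) : N →ₐ[F] N).comp j
  let f' : E →ₐ[F] N := ((σ s' : N ≃ₐ[F] N) : N →ₐ[F] N).comp j
  have h3 : θ ∈ AlgHom.equalizer f f' := hss
  have h4 : Algebra.adjoin F {θ} ≤ AlgHom.equalizer f f' :=
    Algebra.adjoin_le (Set.singleton_subset_iff.2 h3)
  have h5 : x ∈ Algebra.adjoin F {θ} := by
    rw [← IntermediateField.adjoin_simple_toSubalgebra_of_isAlgebraic
      (Algebra.IsAlgebraic.isAlgebraic θ), hθ]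
    trivial
  exact h4 h5

theorem mem_mono {C : ℕ → Submodule k E} (hmul : ∀ a b, C a * C b ≤ C (a + b))
    (h1 : (1 : E) ∈ C 1) (a : ℕ) : ∀ n, C a ≤ C (a + n) := by
  intro n
  induction n with
  | zero => exact le_rfl
  | succ n ih =>
    intro x hx
    have h2 := hmul (a + n) 1 (Submodule.mul_mem_mul (ih hx) h1)
    rwa [mul_one] at h2

/-- An extension with the centre of `W` restricts to one with the centre of `A`. -/
theorem sameC_comap (φ : MvPolynomial (Fin d) k →ₐ[k] F) (y : Fin (d + 1) → F)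
    (hup : up N φ.range = Algebra.adjoin k (Set.range fun i => algebraMap F N (y i)))
    (j : E →ₐ[F] N) {W B : ValuationSubring N} {A : ValuationSubring E}
    (hW : W.comap (j : E →+* N) = A) (hB : Same φ W B) :
    SameC k (Set.range fun i => algebraMap F E (y i)) A (B.comap (j : E →+* N)) := by
  have hj : ∀ c : k, j (algebraMap k E c) = algebraMap k N c := fun c => by
    rw [IsScalarTower.algebraMap_apply k F E, j.commutes, ← IsScalarTower.algebraMap_apply]
  have hjk : ∀ b : E, IsIntegral (Algebra.adjoin k (Set.range fun i => algebraMap F E (y i))) b →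
      j b ∈ ncl (up N φ.range) := by
    intro b hb
    have hb' : b ∈ ncl (Algebra.adjoin k (Set.range fun i => algebraMap F E (y i))) := hb
    obtain ⟨p, hp, hc, h0⟩ := TG.exists_poly_of_mem_ncl hb'
    refine TG.mem_ncl_of_root (p.map (j : E →+* N)) (hp.map _) (fun i => TG.le_ncl _ ?_) ?_
    · rw [Polynomial.coeff_map, hup]
      let jk : E →ₐ[k] N := { (j : E →+* N) with commutes' := hj }
      have h1 : (Algebra.adjoin k (Set.range fun i => algebraMap F E (y i))).map jk =
          Algebra.adjoin k (Set.range fun i => algebraMap F N (y i)) := by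
        rw [AlgHom.map_adjoin, ← Set.range_comp]
        congr 2
        funext i
        exact j.commutes _
      rw [← h1]
      exact ⟨p.coeff i, hc i, rfl⟩
    · rw [Polynomial.eval_map]
      change Polynomial.eval₂ (j : E →+* N) ((j : E →+* N) b) p = 0
      rw [Polynomial.eval₂_hom, h0, map_zero]
  refine ⟨fun c => ?_, fun b hb => ?_⟩
  · change j (algebraMap k E c) ∈ B
    rw [hj]
    exact (hB _ (Subalgebra.algebraMap_mem _ c)).1
  · obtain ⟨h1, h2⟩ := hB _ (hjk b hb)
    refine ⟨h1, ?_⟩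
    rw [← hW, comap_lt_one', comap_lt_one']
    exact h2

/-- **The core of the row ABS.** -/
theorem absCore (htr : Algebra.trdeg k F = d) (C C' : ℕ → Submodule k E) (α β : ℕ)
    (i₀ : Fin (d + 1)) (y : Fin (d + 1) → F)
    (hβ : 0 < β) (hβα : β < α) (hle : ∀ m, C' m ≤ C m) (hfg : ∀ m, (C m).FG)
    (hmul : ∀ a b, C a * C b ≤ C (a + b)) (hy1 : ∀ i, algebraMap F E (y i) ∈ C 1)
    (hy0 : y i₀ = 1) (hfrac : ∀ x : E, ∃ m, ∃ a ∈ C m, ∃ b ∈ C m, b ≠ 0 ∧ x = a / b)
    (hgen : IntermediateField.adjoin k (Set.range y) = ⊤)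
    (A : ValuationSubring E) (hA : ZDim k A) (hyA : ∀ i, algebraMap F E (y i) ∈ A)
    (hB : ∀ B : ValuationSubring E, SameC k (Set.range fun i => algebraMap F E (y i)) A B →
      ∀ m, ∀ a ∈ C' m, ∃ (i : Fin (d + 1)) (γ : k),
        A.valuation (algebraMap F E (y i) - algebraMap k E γ) < 1 ∧
        B.valuation a ^ β ≤
          B.valuation (algebraMap F E (y i) - algebraMap k E γ) ^ (α * m))
    [FiniteDimensional F N] [IsGalois F N] (j : E →ₐ[F] N) (W : ValuationSubring N)
    (hW : W.comap (j : E →+* N) = A) (r : ℕ) (σ : Fin r → (N ≃ₐ[F] N))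
    (hσ : ∀ s, ∀ b : N, IsIntegral (Algebra.adjoin k (Set.range fun i => algebraMap F N (y i))) b →
      (W.valuation b < 1 ↔ W.valuation (σ s b) < 1))
    (hdist : ∀ s s', s ≠ s' → ∃ x : E, σ s (j x) ≠ σ s' (j x)) :
    ∃ e₀ : ℕ, ∀ e ≥ e₀, ∀ᶠ m : ℕ in atTop,
      finrank k (C' (m + e)) + r * (m + d).choose d ≤ finrank k (C (m + e)) := by
  classical
  have hj : ∀ c : k, j (algebraMap k E c) = algebraMap k N c := fun c => by
    rw [IsScalarTower.algebraMap_apply k F E, j.commutes, ← IsScalarTower.algebraMap_apply]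
  have hWk : Ov k W := fun c => by
    rw [← hj c]
    have := hA.ov c
    rw [← hW] at this
    exact this
  have hAW : ∀ x : E, A.valuation x < 1 ↔ W.valuation (j x) < 1 := fun x => by
    rw [← hW, comap_lt_one']
    exact Iff.rfl
  -- the centre
  choose γ hγ using fun i => hA.res _ (hyA i)
  set t : Fin d → F := fun i => y (i₀.succAbove i) - algebraMap k F (γ (i₀.succAbove i)) with ht
  set φ : MvPolynomial (Fin d) k →ₐ[k] F := aeval t with hφdef
  have htA : ∀ i, algebraMap F E (t i) = algebraMap F E (y (i₀.succAbove i)) -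
      algebraMap k E (γ (i₀.succAbove i)) := fun i => by
    rw [ht]
    simp only
    rw [map_sub, ← IsScalarTower.algebraMap_apply]
  have htW : ∀ i, W.valuation (algebraMap F N (t i)) < 1 := fun i => by
    rw [← j.commutes, ← hAW, htA]
    exact hγ _
  obtain ⟨hφ, hfr⟩ := exists_coords htr t (gen_eq i₀ y hy0 γ hgen)
  have hup : up N φ.range = Algebra.adjoin k (Set.range fun i => algebraMap F N (y i)) :=
    up_eq i₀ y hy0 γ
  have hval := val_phi hWk t htW
  have hWφ : ∀ P, algebraMap F N (φ P) ∈ W := fun P => by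
    have h3 : algebraMap F N (φ P) = (algebraMap F N (φ P) -
      algebraMap k N (P.coeff 0)) + algebraMap k N (P.coeff 0) := by ring
    rw [h3]
    exact W.add_mem _ _ ((W.valuation_le_one_iff _).1 (hval P).le) (hWk _)
  have hWφ1 : ∀ P, W.valuation (algebraMap F N (φ P)) < 1 ↔ P.coeff 0 = 0 := fun P => by
    constructor
    · intro h
      have h1 := Valuation.map_sub_lt W.valuation h (hval P)
      rw [sub_sub_cancel] at h1
      exact const_eq hWk (b := 0) (by rw [map_zero, sub_zero]; exact h1)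
    · intro h
      have h1 := hval P
      rw [h, map_zero, sub_zero] at h1
      exact h1
  have hσ' : ∀ s, ∀ b ∈ ncl (up N φ.range), (W.valuation b < 1 ↔ W.valuation (σ s b) < 1) :=
    fun s b hb => by
      rw [hup] at hb
      exact hσ s b hb
  -- the primitive element
  obtain ⟨θ, hθ⟩ := exists_prim j σ hdist
  obtain ⟨mθ, a₁, ha₁, b₁, hb₁, hb₁0, hθab⟩ := hfrac θ
  have h1C : (1 : E) ∈ C 1 := by
    have := hy1 i₀
    rwa [hy0, map_one] at this
  refine ⟨mθ * r, fun e he => ?_⟩
  obtain ⟨m₁, hm₁⟩ := core hφ hfr W hWφ hWφ1 σ hσ' (j θ) hθ hβα e (j (b₁ ^ r))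
    ((map_ne_zero j).2 (pow_ne_zero _ hb₁0))
  filter_upwards [eventually_ge_atTop (max m₁ 1)] with m hm
  have hmm : m₁ ≤ m := (le_max_left _ _).trans hm
  have hm1 : 1 ≤ m := (le_max_right _ _).trans hm
  set f : Fin (d + 1) → E := Fin.cons 1 (fun i => algebraMap F E (t i)) with hf
  have hfC : ∀ i, f i ∈ C 1 := fun i => by
    refine Fin.cases ?_ (fun i => ?_) i
    · exact h1C
    · change algebraMap F E (t i) ∈ C 1
      rw [htA, Algebra.algebraMap_eq_smul_one (A := E) (γ _)]
      exact sub_mem (hy1 _) (Submodule.smul_mem _ _ h1C)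
  set v : Fin r × Sym (Fin (d + 1)) m → E := fun x => mon f x.2 * (b₁ ^ r * θ ^ (x.1 : ℕ)) with hv
  have hvC : ∀ x, v x ∈ C (m + e) := by
    rintro ⟨i, s⟩
    have h1 : mon f s ∈ C m := by
      have h2 := pow_le_of_mul hmul 1 m hm1 (mon_mem hfC s)
      rwa [one_mul] at h2
    have h2 : b₁ ^ r * θ ^ (i : ℕ) ∈ C (mθ * r) := by
      have hr : 0 < r := i.pos
      refine pow_le_of_mul hmul mθ r hr ?_
      have h3 : b₁ ^ r * θ ^ (i : ℕ) = a₁ ^ (i : ℕ) * b₁ ^ (r - i) := by
        have e1 : r = (r - i) + i := by omega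
        rw [hθab, div_pow]
        nth_rewrite 1 [e1]
        rw [pow_add]
        field_simp
      rw [h3]
      have e2 : r = i + (r - i) := by omega
      nth_rewrite 1 [e2]
      rw [pow_add]
      exact Submodule.mul_mem_mul (Submodule.pow_mem_pow _ ha₁ _)
        (Submodule.pow_mem_pow _ hb₁ _)
    obtain ⟨n, rfl⟩ : ∃ n, e = mθ * r + n := ⟨e - mθ * r, by omega⟩
    rw [← add_assoc]
    exact mem_mono hmul h1C _ n (hmul _ _ (Submodule.mul_mem_mul h1 h2))
  have hmain := finrank_add_card_le (hle (m + e)) (hfg (m + e)) v hvC ?_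
  · rwa [Fintype.card_prod, Fintype.card_fin, card_sym] at hmain
  intro c hc
  set P : Fin r → MvPolynomial (Fin d) k := fun i =>
    ∑ s, c (i, s) • (monomial (expo s) (1 : k) : MvPolynomial (Fin d) k) with hP
  have hsum : j (∑ x, c x • v x) =
      j (b₁ ^ r) * ∑ i, algebraMap F N (φ (P i)) * j θ ^ (i : ℕ) := by
    rw [Fintype.sum_prod_type, map_sum, Finset.mul_sum]
    refine Finset.sum_congr rfl fun i _ => ?_
    have h1 : ∑ s, c (i, s) • v (i, s) = algebraMap F E (φ (P i)) * (b₁ ^ r * θ ^ (i : ℕ)) := by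
      rw [hP]
      simp only
      rw [map_sum, map_sum, Finset.sum_mul]
      refine Finset.sum_congr rfl fun s _ => ?_
      rw [hv]
      simp only
      rw [hf, mon_eq_aeval (k := k), ← smul_mul_assoc]
      congr 1
      rw [map_smul, Algebra.smul_def, Algebra.smul_def, map_mul,
        ← IsScalarTower.algebraMap_apply k F E]
      congr 1
      exact MvPolynomial.aeval_algebraMap_apply E t _
    rw [h1, map_mul, j.commutes, map_mul, map_pow, map_pow]
    ring
  have hzero := hm₁ m hmm P (fun i => totalDegree_le _) _ hsum (fun B hSB => by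
    obtain ⟨i, γ', h1, h2⟩ := hB _ (sameC_comap φ y hup j hW hSB) _ _ hc
    rcases Fin.eq_self_or_eq_succAbove i₀ i with h | ⟨i', h⟩
    · left
      subst h
      rw [hy0, map_one, ← map_one (algebraMap k E)] at h1 h2
      have h3 := const_eq hA.ov h1
      rw [h3, sub_self, map_zero, zero_pow (Nat.mul_ne_zero (by omega) (by omega))] at h2
      have h4 := le_zero_iff.1 h2
      rw [pow_eq_zero_iff hβ.ne', map_eq_zero] at h4
      rw [h4, map_zero]
    · right
      subst h
      refine ⟨i', ?_⟩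
      have h3 : γ' = γ (i₀.succAbove i') := by
        refine const_eq hA.ov ?_
        have h4 := Valuation.map_sub_lt A.valuation (hγ (i₀.succAbove i')) h1
        rwa [sub_sub_sub_cancel_left] at h4
      rw [h3, ← htA, ← map_pow, ← map_pow, comap_le_iff'] at h2
      rw [← map_pow, ← map_pow]
      have e1 : φ (X i') = t i' := aeval_X _ _
      rw [e1, ← j.commutes (t i'), ← map_pow, ← map_pow]
      exact h2)
  funext ⟨i, s⟩
  have := coeff_sum_expo _ (hzero i)
  exact congrFun this s

end Pool.Agent.TG9.Abs
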