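import Pool.Agent.Lib.TG9.AbsF
import Pool.Agent.Lib.TG9_h57.Abs

/-!
# TANK G, BC9, ROW ABS: the statement
-/

set_option autoImplicit false

namespace Pool.Agent.TG9

universe u

/-- **ROW ABS.** -/
theorem absStmt (k F E : Type u) [Field k] [Field F] [Field E] [Algebra k F] [Algebra k E]
    [Algebra F E] [IsScalarTower k F E] (d : ℕ) : AbsStmt k F E d :=
  absStmt_of_core fun _ htr C C' α β i₀ y hβ hβα hle hfg hmul hy1 hy0 hfrac hgen A hA hyA hB
    _ _ _ _ _ _ _ j W hW r σ hσ hdist =>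
    Abs.absCore htr C C' α β i₀ y hβ hβα hle hfg hmul hy1 hy0 hfrac hgen A hA hyA hB j W hW r σ
      hσ hdist

end Pool.Agent.TG9
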