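import Pool.Agent.Lib.TG9.Defs4
import Pool.Agent.Lib.TG_h81.ProjP

/-!
# TANK G, BC9: assembly of `ProjP` and `ProjStmt`
-/

set_option autoImplicit false

namespace Pool.Agent.TG9

open Pool.Agent.TG (Ov ZDim IsMin IsModel LB KB PB PP PDiv RV stab LDeg ProjP Proj ProjStmt)
open MvPolynomial

universe u

/-- The producers' form of PROJ. -/
theorem exists_projP {k K : Type u} [Field k] [Field K] [Algebra k K] (h2 : R2Stmt k K)
    (h3 : R3Stmt k K) (h4 : R4Stmt k K) (h5 : R5Stmt k K) (h6 : R6Stmt k K) (h7 : R7Stmt k K)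
    {m' p : ℕ} {A₀ : Subalgebra k K} {L : Submodule k K} {c : ℕ} {τ : K} {c' m : ℕ}
    {q : K [⋀^Fin (m' + 1 + 1)]→ₗ[k] K} {W : Submodule k K} {f : Fin (m' + 1 + 1) → K}
    {h : Fin (m' + 1 + 1) → MvPolynomial (Fin (m' + 1 + 1)) k}
    (hS : Setup (m' + 1) p A₀ L c τ c' m q W f h) :
    ∃ (C : Finset K) (Bad : Set (ValuationSubring K)),
      ProjP A₀ (d9 (m' + 1)) (bb f h) (zz f h) C Bad := by
  classical
  obtain ⟨hind, htr, hfin, hsep⟩ := h6 _ _ _ _ _ _ _ _ _ _ _ _ hS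
  obtain ⟨hDv, hF⟩ := h7 _ _ _ _ _ _ _ _ _ _ _ _ hS
  -- one element of `LB` for each bad divisor which is not trivial on `LB`
  have hch : ∀ v : ValuationSubring K, ∃ x : K, x ∈ LB k (bb f h) ∧ x ≠ 0 ∧
      ((¬ ∀ x ∈ LB k (bb f h), x ∈ v) → v.valuation x ≠ 1) := by
    intro v
    by_cases hv : ∀ x ∈ LB k (bb f h), x ∈ v
    · exact ⟨1, one_mem _, one_ne_zero, fun h => absurd hv h⟩
    · push Not at hv
      obtain ⟨x, hx, hxv⟩ := hv
      refine ⟨x, hx, fun h0 => hxv (by rw [h0]; exact v.zero_mem), fun _ h1 => hxv ?_⟩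
      exact (v.valuation_le_one_iff x).1 h1.le
  choose ch hch1 hch2 hch3 using hch
  let C : Finset K := hF.toFinset.image ch
  let Bad : Set (ValuationSubring K) := {v | PDiv k (bb f h) (zz f h) v ∧
    (BadF L (c + m) τ W q f v ∨ RamH f h v) ∧ ∀ x ∈ LB k (bb f h), x ∈ v}
  have hC : ∀ x ∈ C, ∃ v, ch v = x := by
    intro x hx
    obtain ⟨v, -, hv⟩ := Finset.mem_image.1 hx
    exact ⟨v, hv⟩
  refine ⟨C, Bad, hind, htr, hfin, hsep, ?_, ?_, ?_, ?_, ?_, ?_, ?_⟩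
  · intro x hx
    obtain ⟨v, rfl⟩ := hC x hx
    exact hch1 v
  · intro x hx
    obtain ⟨v, rfl⟩ := hC x hx
    exact hch2 v
  · exact hF.subset fun v hv => ⟨hv.1, hv.2.1⟩
  · intro v hv hz hb hCv hbad
    have hnot : ¬ (BadF L (c + m) τ W q f v ∨ RamH f h v) := by
      intro hor
      have h1 : ¬ ∀ x ∈ LB k (bb f h), x ∈ v := fun hall => hbad ⟨hv, hor, hall⟩
      refine hch3 v h1 (hCv (ch v) ?_)
      exact Finset.mem_image_of_mem _ (hF.mem_toFinset.2 ⟨hv, hor⟩)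
    push Not at hnot
    exact h5 _ _ _ _ _ _ _ _ _ _ _ _ hS v hv hz hb hnot.1 hnot.2
  · exact h2 _ _ _ _ _ _ _ _ _ _ _ _ hS
  · exact fun v hv => hv.2.2
  · rintro v ⟨hv, hor, hall⟩
    rcases hor with h | h
    · exact h3 _ _ _ _ _ _ _ _ _ _ _ _ hS v hv hall h
    · exact h4 _ _ _ _ _ _ _ _ _ _ _ _ hS v hv hall h

/-- PROJ from the rows. -/
theorem projStmt_of {k : Type u} [Field k] [IsAlgClosed k] {p m' : ℕ} [CharP k p] (hp : p.Prime)
    (hbig : Big k) (hlt : d9 (m' + 1) < p)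
    (hset : ∀ (K : Type u) [Field K] [Algebra k K], SetupStmt k K (m' + 1) p)
    (h2 : ∀ (K : Type u) [Field K] [Algebra k K], R2Stmt k K)
    (h3 : ∀ (K : Type u) [Field K] [Algebra k K], R3Stmt k K)
    (h4 : ∀ (K : Type u) [Field K] [Algebra k K], R4Stmt k K)
    (h5 : ∀ (K : Type u) [Field K] [Algebra k K], R5Stmt k K)
    (h6 : ∀ (K : Type u) [Field K] [Algebra k K], R6Stmt k K)
    (h7 : ∀ (K : Type u) [Field K] [Algebra k K], R7Stmt k K) :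
    ProjStmt k m' (d9 (m' + 1)) := by
  intro K _ _ hfg htr A₀ hA hAint hAfrac
  obtain ⟨L, c, τ, c', m, q, W, f, h, hS⟩ := hset K ‹_› ‹_› hp hbig hlt hfg htr (Nat.succ_pos _)
    A₀ hA hAint hAfrac
  obtain ⟨C, Bad, hP⟩ := exists_projP (h2 K) (h3 K) (h4 K) (h5 K) (h6 K) (h7 K) hS
  obtain ⟨g, hg⟩ := hP.proj
  exact ⟨bb f h, zz f h, g, C, hg⟩

end Pool.Agent.TG9
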