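import Pool.Agent.Lib.TG9.Defs4

/-!
# TANK G, backup track BC9: row BX (finitely many elements detect the bad divisors)
-/

set_option autoImplicit false

namespace Pool.Agent.TG9

open Pool.Agent.TG (Ov)
open Pool.Agent.TG15 (Gt Tp)
open Module

universe u

theorem pow_mem_of_ov {k K : Type u} [Field k] [Field K] [Algebra k K] {V : ValuationSubring K}
    (hV : Ov k V) {L : Submodule k K} (hL : ∀ y ∈ L, y ∈ V) (N : ℕ) :
    ∀ y ∈ (L ^ N : Submodule k K), y ∈ V := by
  let A : Submodule k K :=
    { carrier := V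
      add_mem' := fun ha hb => V.add_mem _ _ ha hb
      zero_mem' := V.zero_mem
      smul_mem' := fun c x hx => by
        rw [Algebra.smul_def]
        exact V.mul_mem _ _ (hV c) hx }
  have hA : ∀ N : ℕ, (L ^ N : Submodule k K) ≤ A := by
    intro N
    induction N with
    | zero =>
      rw [pow_zero, Submodule.one_le]
      exact V.one_mem
    | succ N ih =>
      rw [pow_succ, Submodule.mul_le]
      exact fun a ha b hb => V.mul_mem _ _ (ih ha) (hL b hb)
  exact fun y hy => hA N hy

/-- **ROW BX.** -/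
theorem bxStmt (k K : Type u) [Field k] [Field K] [Algebra k K] : BXStmt k K := by
  classical
  intro n L c τ c' m t q W f hD hW hW0 hf hq
  obtain ⟨S, hS⟩ := hD.fg
  obtain ⟨w₀, hw₀, hw₀0⟩ := Submodule.exists_mem_ne_zero_of_ne_bot hW0
  let X : Finset K := (S ∪ insert τ (insert w₀ (insert (q f) (Finset.univ.image f)))).filter
    fun x => x ≠ 0
  refine ⟨X, fun x hx => (Finset.mem_filter.1 hx).2, fun v hv hX => ?_⟩
  have hval : ∀ x, x ≠ 0 → x ∈ S ∪ insert τ (insert w₀ (insert (q f) (Finset.univ.image f))) →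
      v.valuation x = 1 := fun x h0 hx => hX x (Finset.mem_filter.2 ⟨hx, h0⟩)
  have hτ : v.valuation τ = 1 := hval τ hD.τ_ne (by simp)
  have hw : v.valuation w₀ = 1 := hval w₀ hw₀0 (by simp)
  have hqf : v.valuation (q f) = 1 := hval (q f) hq (by simp)
  have hfj : ∀ j, f j ≠ 0 → v.valuation (f j) = 1 := fun j h0 => hval (f j) h0 (by simp)
  have hLv : ∀ y ∈ L, y ∈ v := by
    intro y hy
    rw [← hS] at hy
    induction hy using Submodule.span_induction with
    | mem x hx =>
      by_cases h0 : x = 0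
      · rw [h0]
        exact v.zero_mem
      · have hx' : x ∈ S := hx
        exact (v.valuation_le_one_iff _).1
          (hval x h0 (Finset.mem_union_left _ hx')).le
    | zero => exact v.zero_mem
    | add a b _ _ ha hb => exact v.add_mem _ _ ha hb
    | smul e a _ ha =>
      rw [Algebra.smul_def]
      exact v.mul_mem _ _ (hv e) ha
  refine ⟨?_, hfj⟩
  rintro (⟨-, hT⟩ | h)
  · rcases hT w₀ hw₀ with h | ⟨y, hy, hy'⟩
    · exact mul_ne_zero hD.τ_ne hw₀0 h
    · rw [map_mul, hτ, hw, one_mul] at hy'
      have h1 := (v.valuation_le_one_iff _).2 (pow_mem_of_ov hv hLv _ y hy)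
      exact absurd hy' (not_lt.2 h1)
  · rw [hqf] at h
    exact lt_irrefl _ h

end Pool.Agent.TG9
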