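import Pool.Agent.Lib.TG9.Defs3
import Pool.Agent.Lib.TG.WLz

/-!
# TANK G, BC9: composite valuation rings

`v` a valuation ring of `K`, `φ : v → κ` a surjective homomorphism onto a field with kernel the
maximal ideal of `v`, `B` a valuation ring of `κ`; `cmp φ B` is the composite.
-/

set_option autoImplicit false

namespace Pool.Agent.TG9

open Pool.Agent.TG (Ov ZDim IsMin IsModel Bir ch chN LB KB PDiv)
open Pool.Agent.LU2 (locV)

universe u

section Comp

variable {K κ : Type u} [Field K] [Field κ] {v : ValuationSubring K}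

/-- `φ` is the residue map of `v` (up to isomorphism). -/
structure IsRes (φ : v →+* κ) : Prop where
  surj : Function.Surjective φ
  zero : ∀ x : v, φ x = 0 ↔ v.valuation (x : K) < 1

variable {φ : v →+* κ}

/-- The composite of `v` and `B`. -/
def cmp (φ : v →+* κ) (hφ : IsRes φ) (B : ValuationSubring κ) : ValuationSubring K where
  carrier := {x | ∃ h : x ∈ v, φ ⟨x, h⟩ ∈ B}
  mul_mem' := by
    rintro a b ⟨ha, ha'⟩ ⟨hb, hb'⟩
    refine ⟨v.mul_mem _ _ ha hb, ?_⟩
    have h1 : (⟨a * b, v.mul_mem _ _ ha hb⟩ : v) = ⟨a, ha⟩ * ⟨b, hb⟩ := rfl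
    rw [h1, map_mul]
    exact B.mul_mem _ _ ha' hb'
  one_mem' := by
    refine ⟨v.one_mem, ?_⟩
    have h1 : (⟨1, v.one_mem⟩ : v) = 1 := rfl
    rw [h1, map_one]
    exact B.one_mem
  add_mem' := by
    rintro a b ⟨ha, ha'⟩ ⟨hb, hb'⟩
    refine ⟨v.add_mem _ _ ha hb, ?_⟩
    have h1 : (⟨a + b, v.add_mem _ _ ha hb⟩ : v) = ⟨a, ha⟩ + ⟨b, hb⟩ := rfl
    rw [h1, map_add]
    exact B.add_mem _ _ ha' hb'
  zero_mem' := by
    refine ⟨v.zero_mem, ?_⟩
    have h1 : (⟨0, v.zero_mem⟩ : v) = 0 := rfl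
    rw [h1, map_zero]
    exact B.zero_mem
  neg_mem' := by
    rintro a ⟨ha, ha'⟩
    refine ⟨v.neg_mem _ ha, ?_⟩
    have h1 : (⟨-a, v.neg_mem _ ha⟩ : v) = -⟨a, ha⟩ := rfl
    rw [h1, map_neg]
    exact B.neg_mem _ ha'
  mem_or_inv_mem' := by
    intro x
    by_cases hx : x ∈ v
    · by_cases h0 : φ ⟨x, hx⟩ = 0
      · exact Or.inl ⟨hx, by rw [h0]; exact B.zero_mem⟩
      have h1 : v.valuation x = 1 := by
        refine le_antisymm ((v.valuation_le_one_iff _).2 hx) (not_lt.1 fun h => h0 ?_)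
        exact (hφ.zero ⟨x, hx⟩).2 h
      have hx' : x⁻¹ ∈ v := by
        rw [← v.valuation_le_one_iff, map_inv₀, h1, inv_one]
      have hx0 : x ≠ 0 := by
        rintro rfl
        rw [map_zero] at h1
        exact zero_ne_one h1
      rcases B.mem_or_inv_mem (φ ⟨x, hx⟩) with h | h
      · exact Or.inl ⟨hx, h⟩
      · refine Or.inr ⟨hx', ?_⟩
        have h2 : φ ⟨x, hx⟩ * φ ⟨x⁻¹, hx'⟩ = 1 := by
          rw [← map_mul]
          have h3 : (⟨x, hx⟩ * ⟨x⁻¹, hx'⟩ : v) = 1 := Subtype.ext (mul_inv_cancel₀ hx0)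
          rw [h3, map_one]
        have h3 : φ ⟨x⁻¹, hx'⟩ = (φ ⟨x, hx⟩)⁻¹ := (inv_eq_of_mul_eq_one_right h2).symm
        rw [h3]
        exact h
    · have hx' : x⁻¹ ∈ v := (v.mem_or_inv_mem x).resolve_left hx
      have h1 : v.valuation x⁻¹ < 1 := by
        rw [map_inv₀]
        rw [← v.valuation_le_one_iff, not_le] at hx
        exact (inv_lt_one₀ (lt_trans zero_lt_one hx)).2 hx
      refine Or.inr ⟨hx', ?_⟩
      rw [(hφ.zero ⟨x⁻¹, hx'⟩).2 h1]
      exact B.zero_mem

variable {hφ : IsRes φ} {B : ValuationSubring κ}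

theorem mem_cmp {x : K} : x ∈ cmp φ hφ B ↔ ∃ h : x ∈ v, φ ⟨x, h⟩ ∈ B := Iff.rfl

theorem cmp_le : cmp φ hφ B ≤ v := fun _ hx => hx.1

theorem cmp_mono {B' : ValuationSubring κ} (h : B ≤ B') : cmp φ hφ B ≤ cmp φ hφ B' :=
  fun _ hx => ⟨hx.1, h hx.2⟩

/-- Transport of inequalities from `K` to `κ`. -/
theorem val_le_of_cmp {x y : v} (h : (cmp φ hφ B).valuation (x : K) ≤
    (cmp φ hφ B).valuation (y : K)) : B.valuation (φ x) ≤ B.valuation (φ y) := by
  by_cases hy : (y : K) = 0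
  · rw [hy, map_zero] at h
    have h1 : (x : K) = 0 := (map_eq_zero _).1 (le_antisymm h zero_le')
    have h2 : x = 0 := Subtype.ext h1
    rw [h2, map_zero, map_zero]
    exact zero_le'
  have h1 : (x : K) / y ∈ cmp φ hφ B := by
    rw [← ValuationSubring.valuation_le_one_iff, map_div₀]
    exact (div_le_one₀ (zero_lt_iff.2 ((Valuation.ne_zero_iff _).2 hy))).2 h
  obtain ⟨h2, h3⟩ := h1
  have h4 : x = ⟨(x : K) / y, h2⟩ * y := Subtype.ext (div_mul_cancel₀ _ hy).symm
  rw [h4, map_mul, map_mul]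
  exact mul_le_of_le_one_left' ((B.valuation_le_one_iff _).2 h3)

/-- Transport of inequalities from `κ` to `K`. -/
theorem cmp_val_le {x y : v} (hy : φ y ≠ 0) (h : B.valuation (φ x) ≤ B.valuation (φ y)) :
    (cmp φ hφ B).valuation (x : K) ≤ (cmp φ hφ B).valuation (y : K) := by
  have hy1 : v.valuation (y : K) = 1 :=
    le_antisymm ((v.valuation_le_one_iff _).2 y.2) (not_lt.1 fun h => hy ((hφ.zero y).2 h))
  have hy0 : (y : K) ≠ 0 := by
    intro h0
    rw [h0, map_zero] at hy1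
    exact zero_ne_one hy1
  have h1 : (x : K) / y ∈ v := by
    rw [← v.valuation_le_one_iff, map_div₀, hy1, div_one]
    exact (v.valuation_le_one_iff _).2 x.2
  have h4 : x = ⟨(x : K) / y, h1⟩ * y := Subtype.ext (div_mul_cancel₀ _ hy0).symm
  have h5 : φ ⟨(x : K) / y, h1⟩ ∈ B := by
    rw [← B.valuation_le_one_iff]
    rw [h4, map_mul, map_mul] at h
    have h6 : (0 : B.ValueGroup) < B.valuation (φ y) := zero_lt_iff.2 ((Valuation.ne_zero_iff _).2 hy)
    exact le_of_mul_le_mul_right (h.trans (one_mul _).symm.le) h6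
  have h6 : (x : K) / y ∈ cmp φ hφ B := ⟨h1, h5⟩
  rw [← ValuationSubring.valuation_le_one_iff, map_div₀] at h6
  exact (div_le_one₀ (zero_lt_iff.2 ((Valuation.ne_zero_iff _).2 hy0))).1 h6

theorem cmp_lt_one (x : v) : (cmp φ hφ B).valuation (x : K) < 1 ↔ B.valuation (φ x) < 1 := by
  constructor
  · intro h
    by_contra hcon
    rw [not_lt] at hcon
    have h1 : φ x ≠ 0 := by
      intro h0
      rw [h0, map_zero] at hcon
      exact absurd hcon (not_le.2 zero_lt_one)
    have h2 := cmp_val_le (hφ := hφ) (B := B) (x := 1) (y := x) h1 (by rw [map_one, map_one]; exact hcon)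
    rw [OneMemClass.coe_one, map_one] at h2
    exact absurd h (not_lt.2 h2)
  · intro h
    by_contra hcon
    rw [not_lt] at hcon
    have h2 := val_le_of_cmp (hφ := hφ) (B := B) (x := 1) (y := x) (by
      rw [OneMemClass.coe_one, map_one]; exact hcon)
    rw [map_one, map_one] at h2
    exact absurd h (not_lt.2 h2)

theorem cmp_eq_one (x : v) : (cmp φ hφ B).valuation (x : K) = 1 ↔ B.valuation (φ x) = 1 := by
  constructor
  · intro h
    refine le_antisymm ?_ ?_
    · have h2 := val_le_of_cmp (hφ := hφ) (B := B) (x := x) (y := 1) (by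
        rw [OneMemClass.coe_one, map_one]; exact h.le)
      rwa [map_one, map_one] at h2
    · exact not_lt.1 fun h3 => h.not_lt ((cmp_lt_one x).2 h3)
  · intro h
    have h1 : φ x ≠ 0 := by
      intro h0
      rw [h0, map_zero] at h
      exact zero_ne_one h
    refine le_antisymm ?_ (not_lt.1 fun h3 => h.not_lt ((cmp_lt_one x).1 h3))
    have h2 := cmp_val_le (hφ := hφ) (B := B) (x := x) (y := 1) (by rw [map_one]; exact one_ne_zero)
      (by rw [map_one, map_one]; exact h.le)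
    rwa [OneMemClass.coe_one, map_one] at h2

/-- `v` is a coarsening of the composite. -/
theorem val_le_of_cmp' {x y : K} (h : (cmp φ hφ B).valuation x ≤ (cmp φ hφ B).valuation y) :
    v.valuation x ≤ v.valuation y := by
  by_cases hy : y = 0
  · rw [hy, map_zero] at h
    rw [(map_eq_zero _).1 (le_antisymm h zero_le'), hy]
  have h1 : x / y ∈ cmp φ hφ B := by
    rw [← ValuationSubring.valuation_le_one_iff, map_div₀]
    exact (div_le_one₀ (zero_lt_iff.2 ((Valuation.ne_zero_iff _).2 hy))).2 h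
  have h2 := cmp_le h1
  rw [← ValuationSubring.valuation_le_one_iff, map_div₀] at h2
  exact (div_le_one₀ (zero_lt_iff.2 ((Valuation.ne_zero_iff _).2 hy))).1 h2

variable {k : Type u} [Field k] [Algebra k K] [Algebra k κ]

theorem cmp_zdim (hv : Ov k v) (hk : ∀ c : k, φ ⟨algebraMap k K c, hv c⟩ = algebraMap k κ c)
    (hB : ZDim k B) : ZDim k (cmp φ hφ B) := by
  refine ⟨fun c => ⟨hv c, by rw [hk]; exact hB.ov c⟩, ?_⟩
  rintro x ⟨hx, hx'⟩
  obtain ⟨c, hc⟩ := hB.res _ hx'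
  refine ⟨c, ?_⟩
  have h1 : x - algebraMap k K c ∈ v := sub_mem hx (hv c)
  have h2 := (cmp_lt_one (hφ := hφ) (B := B) ⟨x - algebraMap k K c, h1⟩).2 (by
    have h3 : (⟨x - algebraMap k K c, h1⟩ : v) = ⟨x, hx⟩ - ⟨algebraMap k K c, hv c⟩ := rfl
    rw [h3, map_sub, hk]
    exact hc)
  exact h2

end Comp

end Pool.Agent.TG9
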