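import Pool.Agent.Lib.TG15.Defs

/-!
# TANK G, backup track BC9 (store `G_helper9.md`): definitions and statements of the rows

`L ⊆ K` finite dimensional, `1 ∈ L`, `W ⊆ L ^ m` arbitrary, `H = W * L`, `H' = W' * L`, `M = m + 1`.
`cl P` is the complete linear system of `P` (the 'integral closure' of `P`), `q` the Jacobian.
-/

set_option autoImplicit false

namespace Pool.Agent.TG9

open Pool.Agent.TG (Ov ZDim IsMin IsModel Bir ch chN)
open Pool.Agent.TG15 (Gt Tp hx smulK)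
open Module Filter

universe u

variable {k K : Type u} [Field k] [Field K] [Algebra k K]

/-- `v(x) ≥ v(F)` (or `x = 0`). -/
def Ge (V : ValuationSubring K) (x : K) (F : Submodule k K) : Prop :=
  x = 0 ∨ ∃ y ∈ F, V.valuation x ≤ V.valuation y

theorem Gt.ge {V : ValuationSubring K} {x : K} {F : Submodule k K} (h : Gt V x F) : Ge V x F :=
  h.imp id fun ⟨y, hy, hxy⟩ => ⟨y, hy, hxy.le⟩

theorem Ge.add {V : ValuationSubring K} {x y : K} {F : Submodule k K} (hx : Ge V x F)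
    (hy : Ge V y F) : Ge V (x + y) F := by
  rcases hx with rfl | ⟨a, ha, hxa⟩
  · rwa [zero_add]
  rcases hy with rfl | ⟨b, hb, hyb⟩
  · rw [add_zero]
    exact Or.inr ⟨a, ha, hxa⟩
  refine Or.inr ?_
  rcases le_total (V.valuation a) (V.valuation b) with h | h
  · exact ⟨b, hb, (V.valuation.map_add x y).trans (max_le (hxa.trans h) hyb)⟩
  · exact ⟨a, ha, (V.valuation.map_add x y).trans (max_le hxa (hyb.trans h))⟩

theorem Ge.smul {V : ValuationSubring K} {x : K} {F : Submodule k K} (hx : Ge V x F) (c : k) :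
    Ge V (c • x) F := by
  rcases hx with rfl | ⟨a, ha, hxa⟩
  · exact Or.inl (smul_zero _)
  refine Or.inr ⟨c • a, F.smul_mem c ha, ?_⟩
  rw [Algebra.smul_def, Algebra.smul_def, map_mul, map_mul]
  exact mul_le_mul_right hxa _

/-- The complete linear system of `P`: all `f` with `v(f) ≥ v(P)` for all valuation rings. -/
def cl (P : Submodule k K) : Submodule k K where
  carrier := {f | ∀ V : ValuationSubring K, Ov k V → Ge V f P}
  add_mem' := fun ha hb V hV => (ha V hV).add (hb V hV)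
  zero_mem' := fun _ _ => Or.inl rfl
  smul_mem' := fun c _ ha V hV => (ha V hV).smul c

theorem mem_cl {P : Submodule k K} {f : K} :
    f ∈ cl P ↔ ∀ V : ValuationSubring K, Ov k V → Ge V f P := Iff.rfl

theorem le_cl (P : Submodule k K) : P ≤ cl P := fun f hf _ _ => Or.inr ⟨f, hf, le_rfl⟩

/-- `{f ∈ cl P : v(f) > v(P) for all v with T v}`. -/
def van (P : Submodule k K) (T : ValuationSubring K → Prop) : Submodule k K where
  carrier := {f | f ∈ cl P ∧ ∀ V : ValuationSubring K, T V → Gt V f P}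
  add_mem' := by
    rintro a b ⟨ha, ha'⟩ ⟨hb, hb'⟩
    refine ⟨add_mem ha hb, fun V hV => ?_⟩
    rcases ha' V hV with rfl | ⟨x, hx, hxa⟩
    · rw [zero_add]
      exact hb' V hV
    rcases hb' V hV with rfl | ⟨y, hy, hyb⟩
    · rw [add_zero]
      exact Or.inr ⟨x, hx, hxa⟩
    refine Or.inr ?_
    rcases le_total (V.valuation x) (V.valuation y) with h | h
    · exact ⟨y, hy, (V.valuation.map_add a b).trans_lt (max_lt (hxa.trans_le h) hyb)⟩
    · exact ⟨x, hx, (V.valuation.map_add a b).trans_lt (max_lt hxa (hyb.trans_le h))⟩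
  zero_mem' := ⟨zero_mem _, fun V _ => Or.inl rfl⟩
  smul_mem' := by
    rintro c a ⟨ha, ha'⟩
    refine ⟨Submodule.smul_mem _ c ha, fun V hV => ?_⟩
    rcases eq_or_ne c 0 with rfl | hc
    · exact Or.inl (zero_smul _ _)
    rcases ha' V hV with rfl | ⟨x, hx, hxa⟩
    · exact Or.inl (smul_zero _)
    refine Or.inr ⟨c • x, Submodule.smul_mem _ c hx, ?_⟩
    rw [Algebra.smul_def, Algebra.smul_def, map_mul, map_mul]
    have hc' : V.valuation (algebraMap k K c) ≠ 0 := by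
      rw [Valuation.ne_zero_iff]
      exact (map_ne_zero_iff _ (algebraMap k K).injective).2 hc
    exact mul_lt_mul_of_pos_left hxa (zero_lt_iff.2 hc')

/-- The sections of `cl (H ^ i)` vanishing on the boundary `Tp L c τ W`. -/
def bd (L : Submodule k K) (c : ℕ) (τ : K) (W : Submodule k K) (i : ℕ) : Submodule k K :=
  van ((W * L) ^ i) (Tp L c τ W)

/-- `cl (H ^ (t i)) ∩ q(g) A_i`, `A_i = cl (L ^ (M t i))`. -/
def rm (L H : Submodule k K) (M t i : ℕ) (Q : K) : Submodule k K :=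
  cl (H ^ (t * i)) ⊓ smulK Q (cl (L ^ (M * t * i)))

/-- `B_i(W)`. -/
noncomputable def Bi (L : Submodule k K) (c : ℕ) (τ : K) (W : Submodule k K) (i : ℕ) : ℕ :=
  finrank k (cl ((W * L) ^ i)) - finrank k (bd L c τ W i)

/-- `T_i(W)`: the maximum over the tuples `g` of elements of `H ^ t`. -/
noncomputable def Ti {n : ℕ} (q : (Fin (n + 1) → K) → K) (L H : Submodule k K) (M t i : ℕ) : ℕ :=
  sSup {d | ∃ g : Fin (n + 1) → K, (∀ j, g j ∈ H ^ t) ∧ q g ≠ 0 ∧
    d = finrank k (cl (H ^ (t * i))) - finrank k (rm L H M t i (q g))}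

/-- The potential. -/
noncomputable def Phi {n : ℕ} (q : (Fin (n + 1) → K) → K) (L : Submodule k K) (M c : ℕ) (τ : K)
    (t : ℕ) (W : Submodule k K) (N : ℕ) : ℕ :=
  2 * finrank k (cl ((W * L) ^ N)) +
    ∑ i ∈ Finset.range N, (Bi L c τ W i + Ti q L (W * L) M t i)

/-- The prime divisors of the normal model defined by `H` (`n` the transcendence degree): some
`n - 1` ratios of elements of `H` have residues algebraically independent over `k`. -/
def Dv (n : ℕ) (H : Submodule k K) (v : ValuationSubring K) : Prop :=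
  Ov k v ∧ v ≠ ⊤ ∧ ∃ g, IsMin v H g ∧ ∃ w : Fin (n - 1) → K, (∀ i, w i ∈ H) ∧
    ∀ P : MvPolynomial (Fin (n - 1)) k, P ≠ 0 →
      v.valuation (MvPolynomial.aeval (fun i => w i / g) P) = 1

/-! ## Standing data -/

/-- `L`, `τ`, and a Jacobian `q`. -/
structure Dat (k : Type u) {K : Type u} [Field k] [Field K] [Algebra k K] (n : ℕ)
    (L : Submodule k K) (c : ℕ) (τ : K) (c' : ℕ) (q : K [⋀^Fin (n + 1)]→ₗ[k] K) : Prop where
  fg : L.FG
  one : (1 : K) ∈ L
  bir : Bir L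
  τ_ne : τ ≠ 0
  τ_mem : τ ∈ L ^ c
  /-- outside of the boundary `L` and `τ` have value zero -/
  out : ∀ V : ValuationSubring K, Ov k V → (∀ y ∈ L ^ c, V.valuation y ≤ V.valuation τ) →
    (∀ y ∈ L, y ∈ V) ∧ V.valuation τ = 1
  q_mem : ∀ (M : ℕ) (g : Fin (n + 1) → K), (∀ j, g j ∈ L ^ M) → q g ∈ L ^ ((n + 1) * M + c')
  q_ne : ∀ w : K, w ≠ 0 → ∃ g : Fin (n + 1) → K, (∀ j, g j ∈ (k ∙ w) * L) ∧ q g ≠ 0
  /-- `q` is a Wronskian: for fixed other entries it is `σ(h) + β h`, `σ` a derivation -/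
  wr : ∀ (i : Fin (n + 1)) (g : Fin (n + 1) → K), ∃ (σ : Derivation k K K) (β : K), ∀ h : K,
    q (Function.update g i h) = σ h + β * h

/-! ## Rows

`F` is finite dimensional everywhere; `n` is the transcendence degree. -/

/-- ROW CL (helper68). -/
def ClStmt (k K : Type u) [Field k] [Field K] [Algebra k K] : Prop :=
  IsAlgClosed k → (⊤ : IntermediateField k K).FG →
    (∀ P : Submodule k K, P.FG → (cl P).FG) ∧
    ∀ L : Submodule k K, L.FG → 1 ∈ L → Bir L → ∃ (s₀ : ℕ) (c : K), c ≠ 0 ∧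
      ∀ s : ℕ, ∀ f ∈ cl (L ^ s), c * f ∈ L ^ (s + s₀)

/-- ROW KR (helper22): the divisors of `H` are enough. -/
def KrStmt (k K : Type u) [Field k] [Field K] [Algebra k K] (n : ℕ) : Prop :=
  IsAlgClosed k → (⊤ : IntermediateField k K).FG → Algebra.trdeg k K = n → 0 < n →
    ∀ H : Submodule k K, H.FG → Bir H → ∀ (N : ℕ) (f : K),
      (∀ v : ValuationSubring K, Dv n H v → Ge v f (H ^ N)) → f ∈ cl (H ^ N)

/-- ROW EB (helper54): degree and boundary, for arbitrary `W' ≤ W`. -/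
def EBStmt (k K : Type u) [Field k] [Field K] [Algebra k K] : Prop :=
  IsAlgClosed k → (⊤ : IntermediateField k K).FG → ∀ L : Submodule k K, L.FG → 1 ∈ L →
    ∀ (c : ℕ) (τ : K) (W W' : Submodule k K), W.FG → W' ≤ W → ∀ N : ℕ,
      finrank k (cl ((W' * L) ^ N)) + ∑ i ∈ Finset.range N, (Bi L c τ W' i +
        (finrank k (cl ((W * L) ^ i)) -
          finrank k (cl ((W' * L) ^ i) ⊔ bd L c τ W i : Submodule k K))) ≤
      finrank k (cl ((W * L) ^ N)) + ∑ i ∈ Finset.range N, Bi L c τ W i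

/-- ROW T (helper57): the Jacobian, `W' ≤ W`, one tuple `f` with maximal rank. -/
def TStmt (k K : Type u) [Field k] [Field K] [Algebra k K] (n : ℕ) : Prop :=
  IsAlgClosed k → (⊤ : IntermediateField k K).FG →
    ∀ (q : K [⋀^Fin (n + 1)]→ₗ[k] K) (L : Submodule k K), L.FG → 1 ∈ L → ∀ (M t i : ℕ)
      (W W' : Submodule k K), W.FG → W' ≤ W → ∀ f : Fin (n + 1) → K,
      (∀ j, f j ∈ (W * L) ^ t) → q f ≠ 0 →
      Ti q L (W * L) M t i =
        finrank k (cl ((W * L) ^ (t * i))) - finrank k (rm L (W * L) M t i (q f)) →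
      (∀ g : Fin (n + 1) → K, (∀ j, g j ∈ (W' * L) ^ t) → q g ≠ 0 →
        ∀ b ∈ cl (L ^ (M * t * i)), q f * b ∈ cl ((W' * L) ^ (t * i)) →
          q g * b ∈ cl ((W' * L) ^ (t * i))) →
      Ti q L (W' * L) M t i + (finrank k (cl ((W * L) ^ (t * i))) -
        finrank k (cl ((W' * L) ^ (t * i)) ⊔ rm L (W * L) M t i (q f) : Submodule k K)) ≤
      Ti q L (W * L) M t i

/-- ROW START (helper63). -/
def StartStmt (k K : Type u) [Field k] [Field K] [Algebra k K] (n : ℕ) : Prop :=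
  IsAlgClosed k → (⊤ : IntermediateField k K).FG → ∀ (L : Submodule k K) (c : ℕ) (τ : K) (c' : ℕ)
    (q : K [⋀^Fin (n + 1)]→ₗ[k] K), Dat k n L c τ c' q → ∀ m t : ℕ, c ≤ m → c' ≤ m → 0 < t →
    ∀ N : ℕ, Phi q L (m + 1) (c + m) τ t (L ^ m) N ≤
      (n + 5) * finrank k (cl (L ^ ((m + 1) * t * N)))

/-- The constant of the choice. -/
def C9 (n t : ℕ) : ℕ := (n + 6) * t ^ n

/-- ROW CHOICE (helper63): the choice of `W`. -/
def ChoiceStmt (k K : Type u) [Field k] [Field K] [Algebra k K] (n : ℕ) : Prop :=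
  IsAlgClosed k → (⊤ : IntermediateField k K).FG → Algebra.trdeg k K = n → 0 < n →
    ∀ (L : Submodule k K) (c : ℕ) (τ : K) (c' : ℕ) (q : K [⋀^Fin (n + 1)]→ₗ[k] K),
    Dat k n L c τ c' q → ∀ t : ℕ, 0 < t → ∃ m, c ≤ m ∧ c' ≤ m ∧ ∃ W ≤ L ^ m, W ≠ ⊥ ∧
      ∀ W' ≤ W, finrank k W ≤ finrank k W' + 1 → ∃ᶠ N in atTop,
        Phi q L (m + 1) (c + m) τ t W N < Phi q L (m + 1) (c + m) τ t W' N + C9 n t * N ^ n

/-- The one map `f` which is good at all places. -/
structure Good (n : ℕ) (L : Submodule k K) (M c : ℕ) (τ : K) (t : ℕ) (W : Submodule k K)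
    (q : K [⋀^Fin (n + 1)]→ₗ[k] K) (f : Fin (n + 1) → K) : Prop where
  mem : ∀ j, f j ∈ (W * L) ^ t
  ne : q f ≠ 0
  bpf : ∀ V : ValuationSubring K, Ov k V → ∃ j, IsMin V ((W * L) ^ t) (f j)
  /-- `f` attains the maximum in `T_i` -/
  max : ∀ i, Ti q L (W * L) M t i =
    finrank k (cl ((W * L) ^ (t * i))) - finrank k (rm L (W * L) M t i (q f))
  /-- (C1) -/
  c1 : ∀ V : ValuationSubring K, ZDim k V → ∀ (j₀ : Fin (n + 1)), IsMin V ((W * L) ^ t) (f j₀) →
    ∀ w, IsMin V W w → ∀ z ∈ hx V W, ∃ (i : Fin (n + 1)) (a : k),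
      V.valuation (f i / f j₀ - algebraMap k K a) < 1 ∧
      V.valuation (z / w) ^ (n + 1) ≤ V.valuation (f i / f j₀ - algebraMap k K a)
  /-- (3.1), (3.2): the order of `q f` at the divisors of the projected models -/
  peel : ∀ V : ValuationSubring K, ZDim k V → ∀ g : Fin (n + 1) → K,
    (∀ j, g j ∈ (hx V W * L) ^ t) → ∀ v : ValuationSubring K, Dv n (hx V W * L) v →
      v.valuation (q g) ≤ v.valuation (q f) ∨ (¬ Tp L c τ W v ∧ ∃ w ∈ hx V W, IsMin v W w)

/-- Over every countable subset there are infinitely many algebraically independent elements. -/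
def Big (k : Type u) [Field k] : Prop :=
  ∀ S : Set k, S.Countable → ∃ x : ℕ → k, AlgebraicIndependent (Subfield.closure S) x

/-- ROW GOOD (helpers 50, 65, 96, 80): existence of `f`. `k` is large. -/
def GoodStmt (k K : Type u) [Field k] [Field K] [Algebra k K] (n p : ℕ) : Prop :=
  IsAlgClosed k → CharP k p → p.Prime → Big k →
  (⊤ : IntermediateField k K).FG → Algebra.trdeg k K = n → 0 < n →
    ∀ (L : Submodule k K) (c : ℕ) (τ : K) (c' : ℕ) (q : K [⋀^Fin (n + 1)]→ₗ[k] K),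
    Dat k n L c τ c' q → ∀ t : ℕ, 2 * n + 3 ≤ t → t < p → ∀ m : ℕ, ∀ W ≤ L ^ m, W ≠ ⊥ →
      ∃ f : Fin (n + 1) → K, Good n L (m + 1) (c + m) τ t W q f

end Pool.Agent.TG9
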