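import Pool.Agent.Lib.TG9.Defs2
import Pool.Agent.Lib.TG_h81.Proj

/-!
# TANK G, backup track BC9: the remaining rows
-/

set_option autoImplicit false

namespace Pool.Agent.TG9

open Pool.Agent.TG (Ov ZDim IsMin IsModel Bir ch chN LB KB PDiv)
open Pool.Agent.LU2 (locV)
open Pool.Agent.TG15 (Gt Tp hx smulK)
open Module Filter

universe u

variable {k K : Type u} [Field k] [Field K] [Algebra k K]

/-- The sum of the three drops at the level `N` is small. -/
def XAt {n : ℕ} (L : Submodule k K) (M c : ℕ) (τ : K) (t : ℕ) (W : Submodule k K)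
    (q : K [⋀^Fin (n + 1)]→ₗ[k] K) (f : Fin (n + 1) → K) (W' : Submodule k K) (N : ℕ) : Prop :=
  finrank k (cl ((W * L) ^ N)) + ∑ i ∈ Finset.range N,
      ((finrank k (cl ((W * L) ^ i)) -
          finrank k (cl ((W' * L) ^ i) ⊔ bd L c τ W i : Submodule k K)) +
        (finrank k (cl ((W * L) ^ (t * i))) -
          finrank k (cl ((W' * L) ^ (t * i)) ⊔ rm L (W * L) M t i (q f) : Submodule k K))) <
    finrank k (cl ((W' * L) ^ N)) + C9 n t * N ^ n

/-- ROW X (helper63). From Choice, Good, EB, T, Kr (and Cl). -/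
def XStmt (k K : Type u) [Field k] [Field K] [Algebra k K] (n p : ℕ) : Prop :=
  IsAlgClosed k → CharP k p → p.Prime → Big k →
  (⊤ : IntermediateField k K).FG → Algebra.trdeg k K = n → 0 < n →
    ∀ (L : Submodule k K) (c : ℕ) (τ : K) (c' : ℕ) (q : K [⋀^Fin (n + 1)]→ₗ[k] K),
    Dat k n L c τ c' q → ∀ t : ℕ, 2 * n + 3 ≤ t → t < p →
      ∃ m, c ≤ m ∧ c' ≤ m ∧ ∃ W ≤ L ^ m, W ≠ ⊥ ∧ ∃ f : Fin (n + 1) → K,
        Good n L (m + 1) (c + m) τ t W q f ∧
        ∀ V : ValuationSubring K, ZDim k V →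
          ∃ᶠ N in atTop, XAt L (m + 1) (c + m) τ t W q f (hx V W) N

/-- ROW FINH (helper22). -/
def FinhStmt (k K : Type u) [Field k] [Field K] [Algebra k K] (n : ℕ) : Prop :=
  IsAlgClosed k → (⊤ : IntermediateField k K).FG → Algebra.trdeg k K = n → 0 < n →
    ∀ H : Submodule k K, H.FG → Bir H → ∀ X : Finset K, (∀ x ∈ X, x ≠ 0) →
      {v : ValuationSubring K | Dv n H v ∧ ∃ x ∈ X, v.valuation x ≠ 1}.Finite

/-- ROW PD (helper68). -/
def PdStmt (k K : Type u) [Field k] [Field K] [Algebra k K] (m : ℕ) : Prop :=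
  ∀ (b : Fin m → K) (z : K), AlgebraicIndependent k b → Transcendental (LB k b) z →
    ∀ v : ValuationSubring K, PDiv k b z v → v ≠ ⊤ ∧ ∃ w : Fin m → K,
      (∀ i, w i ∈ insert z (Set.range b)) ∧
      ∀ P : MvPolynomial (Fin m) k, P ≠ 0 → v.valuation (MvPolynomial.aeval w P) = 1

/-- ROW LOC (helper68). -/
def LocStmt (k K : Type u) [Field k] [Field K] [Algebra k K] (n : ℕ) : Prop :=
  IsAlgClosed k → Algebra.trdeg k K = n → 0 < n → ∀ A₀ : Subalgebra k K, A₀.FG →
    (∀ x : K, IsIntegral A₀ x → x ∈ A₀) →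
    (∀ x : K, ∃ a ∈ A₀, ∃ s ∈ A₀, s ≠ 0 ∧ x = a / s) →
    ∀ v : ValuationSubring K, v ≠ ⊤ → (∀ a ∈ A₀, a ∈ v) →
    (∃ w : Fin (n - 1) → K, (∀ i, w i ∈ locV v A₀) ∧
      ∀ P : MvPolynomial (Fin (n - 1)) k, P ≠ 0 → v.valuation (MvPolynomial.aeval w P) = 1) →
    ∀ x ∈ v, x ∈ locV v A₀

/-- ROW DAT: the data for a normal affine algebra `A₀`. `L` = span of `1` and generators of `A₀`,
containing a separating transcendence basis `x`, `D i` the dual basis of derivations, `τ ∈ A₀` a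
common denominator of `D i (L)`, `q g = τ' * det (g j | D i (g j))`, `τ'` a power of `τ`. -/
def DatStmt (k K : Type u) [Field k] [Field K] [Algebra k K] (n : ℕ) : Prop :=
  IsAlgClosed k → (⊤ : IntermediateField k K).FG → Algebra.trdeg k K = n → 0 < n →
    ∀ A₀ : Subalgebra k K, A₀.FG → (∀ x : K, IsIntegral A₀ x → x ∈ A₀) →
    (∀ x : K, ∃ a ∈ A₀, ∃ s ∈ A₀, s ≠ 0 ∧ x = a / s) →
    ∃ (L : Submodule k K) (c : ℕ) (τ : K) (c' : ℕ) (q : K [⋀^Fin (n + 1)]→ₗ[k] K),
      Dat k n L c τ c' q ∧ Algebra.adjoin k (L : Set K) = A₀ ∧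
      /- der -/
      (∀ v : ValuationSubring K, (∀ a ∈ A₀, a ∈ v) → v.valuation τ = 1 →
        (∀ x ∈ v, x ∈ locV v A₀) → ∀ g : Fin (n + 1) → K, (∀ j, g j ∈ v) →
        v.valuation (g 0) = 1 → v.valuation (q g) = 1 → ∀ D : Derivation k K K,
        (∀ j, D (g j / g 0) ∈ v) → ∀ x ∈ v, D x ∈ v) ∧
      /- sep -/
      (∀ g : Fin (n + 1) → K, q g ≠ 0 → g 0 ≠ 0 →
        AlgebraicIndependent k (fun i : Fin n => g i.succ / g 0) ∧
        FiniteDimensional
          (IntermediateField.adjoin k (Set.range fun i : Fin n => g i.succ / g 0)) K ∧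
        Algebra.IsSeparable
          (IntermediateField.adjoin k (Set.range fun i : Fin n => g i.succ / g 0)) K) ∧
      /- jac -/
      ∀ (s : ℕ) (h : Fin (n + 1) → MvPolynomial (Fin (n + 1)) k), (∀ i, (h i).IsHomogeneous s) →
        ∀ f : Fin (n + 1) → K, (s : K) * q (fun j => MvPolynomial.aeval f (h j)) =
          MvPolynomial.aeval f (Matrix.det (Matrix.of fun i a => MvPolynomial.pderiv a (h i))) *
            q f

/-- ROW RAM: a component of the zero set of a form `G` of degree `D`, projected by forms of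
degree `s`. -/
def RamStmt (k E : Type u) [Field k] [Field E] [Algebra k E] : Prop :=
  IsAlgClosed k → ∀ (n s D : ℕ) (y : Fin (n + 1) → E) (G : MvPolynomial (Fin (n + 1)) k),
    0 < n → 0 < s → G ≠ 0 → G.IsHomogeneous D → MvPolynomial.aeval y G = 0 →
    ∀ h : Fin n → MvPolynomial (Fin (n + 1)) k, (∀ i, (h i).IsHomogeneous s) →
    ∀ i₀ : Fin n, MvPolynomial.aeval y (h i₀) ≠ 0 →
    Algebra.trdeg k (IntermediateField.adjoin k
      (Set.range fun i => MvPolynomial.aeval y (h i) / MvPolynomial.aeval y (h i₀))) =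
      ((n - 1 : ℕ) : Cardinal) →
    ∀ (F : IntermediateField k E), F = IntermediateField.adjoin k
      (Set.range fun i => MvPolynomial.aeval y (h i) / MvPolynomial.aeval y (h i₀)) →
    ∀ r : ℕ, ∀ θ : Fin r → E, LinearIndependent F θ →
      (∀ i, θ i ∈ IntermediateField.adjoin k {x : E | ∃ a b, x = y a / y b}) →
      r ≤ D * s ^ (n - 1)

/-- ROW SEP: generic forms give a separable extension. -/
def SepStmt (k E : Type u) [Field k] [Field E] [Algebra k E] : Prop :=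
  IsAlgClosed k → ∀ (n d s : ℕ) (hd : d ≤ n), 0 < s → ∀ y : Fin (n + 1) → E, (∃ a, y a ≠ 0) →
    Algebra.trdeg k (IntermediateField.adjoin k {x : E | ∃ a b, x = y a / y b}) = d →
    ∃ Φ : MvPolynomial (Fin (n + 1) × {μ : Fin (n + 1) →₀ ℕ // μ.degree = s}) k, Φ ≠ 0 ∧
      ∀ h : Fin (n + 1) → MvPolynomial (Fin (n + 1)) k, (∀ i, (h i).IsHomogeneous s) →
        MvPolynomial.eval (fun x => (h x.1).coeff x.2.1) Φ ≠ 0 →
        MvPolynomial.aeval y (h 0) ≠ 0 ∧
        AlgebraicIndependent k (fun i : Fin d =>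
          MvPolynomial.aeval y (h (Fin.castLE (Nat.succ_le_succ hd) i.succ)) /
            MvPolynomial.aeval y (h 0)) ∧
        ∀ x ∈ IntermediateField.adjoin k {x : E | ∃ a b, x = y a / y b},
          IsSeparable (IntermediateField.adjoin k (Set.range fun i : Fin d =>
            MvPolynomial.aeval y (h (Fin.castLE (Nat.succ_le_succ hd) i.succ)) /
              MvPolynomial.aeval y (h 0))) x

/-- ROW NUM. -/
def NumStmt : Prop :=
  ∀ (n T r C : ℕ) (φ : ℕ → ℕ), 0 < n → 0 < T →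
    (Monotone φ → (∃ e, ∀ᶠ m in atTop, r * (m + n).choose n ≤ φ (T * (m + e))) →
      (∃ᶠ N in atTop, φ N < C * N ^ n) → r ≤ C * n.factorial * T ^ n) ∧
    ((∃ e, ∀ᶠ m in atTop, r * (m + (n - 1)).choose (n - 1) ≤ φ (T * (m + e))) →
      (∃ᶠ N in atTop, ∑ i ∈ Finset.range N, φ i < C * N ^ n) → r ≤ C * n.factorial * T ^ n)

/-- ROW MONO: the first drop is monotone in `N`. -/
def MonoStmt (k K : Type u) [Field k] [Field K] [Algebra k K] : Prop :=
  IsAlgClosed k → (⊤ : IntermediateField k K).FG → ∀ H H' : Submodule k K, H.FG → H' ≤ H →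
    H' ≠ ⊥ → Monotone fun N : ℕ => finrank k (cl (H ^ N)) - finrank k (cl (H' ^ N))

end Pool.Agent.TG9
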