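import Pool.Agent.Lib.TG9.Comp

/-!
# TANK G, backup track BC9: the last rows (local degrees, setup, assembly)
-/

set_option autoImplicit false

namespace Pool.Agent.TG9

open Pool.Agent.TG (Ov ZDim IsMin IsModel Bir ch chN LB KB PB PP PDiv RV stab LDeg ProjP)
open Pool.Agent.LU2 (locV)
open Pool.Agent.TG15 (Gt Tp hx smulK)
open Module Filter MvPolynomial

universe u

/-! ### Chain lemma for the second map at one place -/

/-- What `SecStmt` gives at one place. -/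
def SecAt {k E : Type u} [Field k] [Field E] [Algebra k E] {n : ℕ} (s d : ℕ)
    (h : Fin (n + 1) → MvPolynomial (Fin (n + 1)) k) (y : Fin (n + 1) → E)
    (V : ValuationSubring E) : Prop :=
  ∀ a₀, (∀ a, y a / y a₀ ∈ V) → y a₀ ≠ 0 →
    ∃ i₀ : Fin (n + 1), (i₀ : ℕ) ≤ d ∧
      V.valuation (aeval y (h i₀)) = V.valuation (y a₀) ^ s ∧
      ∀ a : Fin (n + 1), ∀ β : k, V.valuation (y a / y a₀ - algebraMap k _ β) < 1 →
        ∃ (i : Fin (n + 1)) (γ : k), (i : ℕ) ≤ d ∧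
          V.valuation (aeval y (h i) / aeval y (h i₀) - algebraMap k _ γ) < 1 ∧
          V.valuation (y a / y a₀ - algebraMap k _ β) ^ (d + 1) ≤
            V.valuation (aeval y (h i) / aeval y (h i₀) - algebraMap k _ γ)

section Res

variable {k K : Type u} [Field k] [Field K] [Algebra k K]

/-- The residue field of `v ⊇ k` as a `k`-algebra. -/
@[reducible] noncomputable def resAlg {v : ValuationSubring K} (hv : Ov k v) :
    Algebra k (IsLocalRing.ResidueField v) :=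
  ((IsLocalRing.residue v).comp ((algebraMap k K).codRestrict v.toSubring hv)).toAlgebra

open Classical in
/-- The residue of `x` at `v` (`0` outside `v`). -/
noncomputable def rs (v : ValuationSubring K) (x : K) : IsLocalRing.ResidueField v :=
  if h : x ∈ v then IsLocalRing.residue v ⟨x, h⟩ else 0

/-- `{x ∈ M : x = φ(a / u), a ∈ A}`. -/
def CM {v : ValuationSubring K} {κ M : Type u} [Field κ] [Algebra k κ] [Field M] [Algebra k M]
    [Algebra M κ] [IsScalarTower k M κ] (φ : v →+* κ) (hv : Ov k v)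
    (hk : ∀ c : k, φ ⟨algebraMap k K c, hv c⟩ = algebraMap k κ c) (u : K) (A : Submodule k K) :
    Submodule k M where
  carrier := {x | ∃ a ∈ A, ∃ h : a / u ∈ v, φ ⟨a / u, h⟩ = algebraMap M κ x}
  add_mem' := by
    rintro x y ⟨a, ha, ha1, ha2⟩ ⟨b, hb, hb1, hb2⟩
    have h1 : (a + b) / u ∈ v := by rw [add_div]; exact v.add_mem _ _ ha1 hb1
    refine ⟨a + b, A.add_mem ha hb, h1, ?_⟩
    have h2 : (⟨(a + b) / u, h1⟩ : v) = ⟨a / u, ha1⟩ + ⟨b / u, hb1⟩ := Subtype.ext (add_div _ _ _)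
    rw [h2, map_add, ha2, hb2, map_add]
  zero_mem' := by
    have h1 : (0 : K) / u ∈ v := by rw [zero_div]; exact v.zero_mem
    refine ⟨0, A.zero_mem, h1, ?_⟩
    have h2 : (⟨0 / u, h1⟩ : v) = 0 := Subtype.ext (zero_div _)
    rw [h2, map_zero, map_zero]
  smul_mem' := by
    rintro c x ⟨a, ha, ha1, ha2⟩
    have h0 : (c • a) / u = algebraMap k K c * (a / u) := by
      rw [Algebra.smul_def, mul_div_assoc]
    have h1 : (c • a) / u ∈ v := by rw [h0]; exact v.mul_mem _ _ (hv c) ha1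
    refine ⟨c • a, A.smul_mem c ha, h1, ?_⟩
    have h2 : (⟨(c • a) / u, h1⟩ : v) = ⟨algebraMap k K c, hv c⟩ * ⟨a / u, ha1⟩ := Subtype.ext h0
    rw [h2, map_mul, ha2, hk, Algebra.smul_def, map_mul, ← IsScalarTower.algebraMap_apply]

end Res

/-- ROW D2 (helper62). -/
def LinStmt (k K κ M : Type u) [Field k] [Field K] [Algebra k K] [Field κ] [Algebra k κ] [Field M]
    [Algebra k M] [Algebra M κ] [IsScalarTower k M κ] : Prop :=
  ∀ (v : ValuationSubring K) (φ : v →+* κ) (_ : IsRes φ) (hv : Ov k v)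
    (hk : ∀ c : k, φ ⟨algebraMap k K c, hv c⟩ = algebraMap k κ c) (u : K) (A A' Kr : Submodule k K),
    u ≠ 0 → A.FG → A' ≤ A → Kr ≤ A → (∀ a ∈ A, a / u ∈ v) →
    (∀ a ∈ Kr, v.valuation (a / u) < 1) →
    (CM φ hv hk u A : Submodule k M).FG ∧
    ∀ X : ℕ, finrank k (CM φ hv hk u A' : Submodule k M) + X ≤
        finrank k (CM φ hv hk u A : Submodule k M) →
      finrank k (A' ⊔ Kr : Submodule k K) + X ≤ finrank k A

/-- ROW D3 (helper89). -/
def RichStmt (k K : Type u) [Field k] [Field K] [Algebra k K] (n : ℕ) : Prop :=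
  IsAlgClosed k → (⊤ : IntermediateField k K).FG → Algebra.trdeg k K = n → 0 < n →
    ∀ H : Submodule k K, H.FG → Bir H → ∀ v : ValuationSubring K, (v = ⊤ ∨ Dv n H v) →
      ∀ g, IsMin v H g → ∀ z ∈ v, ∃ m : ℕ, ∃ a ∈ cl (H ^ m), ∃ b ∈ cl (H ^ m),
        v.valuation b = v.valuation (g ^ m) ∧ z = a / b

/-- ROW D4 (helper9): the growth bound from the local degree. `κ` the residue field of `v`,
`κ / M` purely inseparable, `F = k(x)`, `x i` the coordinates `h i (f)`, `i ≤ d`, restricted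
to `v`. -/
def DegStmt (k K κ M F : Type u) [Field k] [Field K] [Algebra k K] [Field κ] [Algebra k κ]
    [Field M] [Algebra k M] [Algebra M κ] [IsScalarTower k M κ] [Field F] [Algebra k F]
    [Algebra F M] [IsScalarTower k F M] (n d : ℕ) : Prop :=
  IsAlgClosed k → (⊤ : IntermediateField k K).FG → Algebra.trdeg k K = n → 0 < n → d ≤ n →
    ∀ (L W : Submodule k K), L.FG → 1 ∈ L → Bir L → W.FG → W ≠ ⊥ → ∀ (t s : ℕ)
      (f : Fin (n + 1) → K) (h : Fin (n + 1) → MvPolynomial (Fin (n + 1)) k),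
    0 < t → 0 < s → (n + 1) * (d + 1) < t * s → (∀ j, f j ∈ (W * L) ^ t) →
    (∀ i, (h i).IsHomogeneous s) →
    /- bpf -/
    (∀ V : ValuationSubring K, Ov k V → ∃ j, IsMin V ((W * L) ^ t) (f j)) →
    /- c1 -/
    (∀ V : ValuationSubring K, ZDim k V → ∀ (j₀ : Fin (n + 1)), IsMin V ((W * L) ^ t) (f j₀) →
      ∀ w, IsMin V W w → ∀ z ∈ hx V W, ∃ (i : Fin (n + 1)) (a : k),
        V.valuation (f i / f j₀ - algebraMap k K a) < 1 ∧
        V.valuation (z / w) ^ (n + 1) ≤ V.valuation (f i / f j₀ - algebraMap k K a)) →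
    ∀ (v : ValuationSubring K) (φ : v →+* κ) (_ : IsRes φ) (hv : Ov k v)
      (_ : ∀ c : k, φ ⟨algebraMap k K c, hv c⟩ = algebraMap k κ c), (v = ⊤ ∨ Dv n (W * L) v) →
    (∀ x : κ, ∃ q : ℕ, 0 < q ∧ ∃ y : M, algebraMap M κ y = x ^ q) →
    ∀ (y : Fin (n + 1) → κ) (a₁ : Fin (n + 1)), IsMin v ((W * L) ^ t) (f a₁) →
    (∀ a, ∃ h : f a / f a₁ ∈ v, φ ⟨f a / f a₁, h⟩ = y a) →
    (∀ B : ValuationSubring κ, ZDim k B → SecAt s d h y B) →
    ∀ (x : Fin (n + 1) → F), x 0 = 1 →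
    (∀ i : Fin (n + 1), (i : ℕ) ≤ d →
      algebraMap M κ (algebraMap F M (x i)) * aeval y (h 0) = aeval y (h i)) →
    Algebra.trdeg k F = d →
    IntermediateField.adjoin k {z : F | ∃ i : Fin (n + 1), (i : ℕ) ≤ d ∧ z = x i} = ⊤ →
    ∀ P : Submodule k F, P = Submodule.span k {z : F | ∃ i : Fin (n + 1), (i : ℕ) ≤ d ∧ z = x i} →
    ∀ (N : Type u) [Field N] [Algebra k N] [Algebra F N] [IsScalarTower k F N]
      [FiniteDimensional F N] [IsGalois F N] (j : M →ₐ[F] N) (V' : ValuationSubring N),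
      ZDim k (V'.comap (j : M →+* N)) →
    ∃ V : ValuationSubring K, ZDim k V ∧ V ≤ v ∧
      ∀ r ≤ j.fieldRange.fixingSubgroup.relIndex (stab V' (RV (V'.comap (algebraMap F N)) P)),
      ∃ e₀ : ℕ, ∀ e ≥ e₀, ∀ᶠ m : ℕ in atTop, ∀ Kr : Submodule k K,
        Kr ≤ cl ((W * L) ^ (t * s * (m + e))) →
        (∀ a ∈ Kr, Gt v a ((W * L) ^ (t * s * (m + e)))) →
        finrank k (cl ((hx V W * L) ^ (t * s * (m + e))) ⊔ Kr : Submodule k K) +
          r * (m + d).choose d ≤ finrank k (cl ((W * L) ^ (t * s * (m + e))))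

/-! ### The setup -/

/-- The bound of the local degrees. -/
def d9 (n : ℕ) : ℕ := C9 n (2 * n + 3) * n.factorial * ((2 * n + 3) * (n + 1)) ^ n

section Setup

variable {k K : Type u} [Field k] [Field K] [Algebra k K]

/-- `v` is bad for `f`: boundary or ramification. -/
def BadF {n : ℕ} (L : Submodule k K) (c : ℕ) (τ : K) (W : Submodule k K)
    (q : K [⋀^Fin (n + 1)]→ₗ[k] K) (f : Fin (n + 1) → K) (v : ValuationSubring K) : Prop :=
  Tp L c τ W v ∨ v.valuation (q f) < 1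

/-- Everything which is needed for the assembly (`n = m + 1`, `t = 2 n + 3`, `s = n + 1`). -/
structure Setup (n p : ℕ) (A₀ : Subalgebra k K) (L : Submodule k K) (c : ℕ) (τ : K)
    (c' m : ℕ) (q : K [⋀^Fin (n + 1)]→ₗ[k] K) (W : Submodule k K) (f : Fin (n + 1) → K)
    (h : Fin (n + 1) → MvPolynomial (Fin (n + 1)) k) : Prop where
  closed : IsAlgClosed k
  char : CharP k p
  prime : p.Prime
  lt : d9 n < p
  fg : (⊤ : IntermediateField k K).FG
  trdeg : Algebra.trdeg k K = n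
  pos : 0 < n
  A_fg : A₀.FG
  A_int : ∀ x : K, IsIntegral A₀ x → x ∈ A₀
  A_frac : ∀ x : K, ∃ a ∈ A₀, ∃ s ∈ A₀, s ≠ 0 ∧ x = a / s
  dat : Dat k n L c τ c' q
  adj : Algebra.adjoin k (L : Set K) = A₀
  der : ∀ v : ValuationSubring K, (∀ a ∈ A₀, a ∈ v) → v.valuation τ = 1 →
    (∀ x ∈ v, x ∈ locV v A₀) → ∀ g : Fin (n + 1) → K, (∀ j, g j ∈ v) →
    v.valuation (g 0) = 1 → v.valuation (q g) = 1 → ∀ D : Derivation k K K,
    (∀ j, D (g j / g 0) ∈ v) → ∀ x ∈ v, D x ∈ v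
  sep : ∀ g : Fin (n + 1) → K, q g ≠ 0 → g 0 ≠ 0 →
    AlgebraicIndependent k (fun i : Fin n => g i.succ / g 0) ∧
    FiniteDimensional
      (IntermediateField.adjoin k (Set.range fun i : Fin n => g i.succ / g 0)) K ∧
    Algebra.IsSeparable
      (IntermediateField.adjoin k (Set.range fun i : Fin n => g i.succ / g 0)) K
  jac : ∀ (s : ℕ) (h : Fin (n + 1) → MvPolynomial (Fin (n + 1)) k), (∀ i, (h i).IsHomogeneous s) →
    ∀ f : Fin (n + 1) → K, (s : K) * q (fun j => aeval f (h j)) =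
      aeval f (Matrix.det (Matrix.of fun i a => pderiv a (h i))) * q f
  c_le : c ≤ m
  c'_le : c' ≤ m
  W_le : W ≤ L ^ m
  W_ne : W ≠ ⊥
  good : Good n L (m + 1) (c + m) τ (2 * n + 3) W q f
  x : ∀ V : ValuationSubring K, ZDim k V →
    ∃ᶠ N in atTop, XAt L (m + 1) (c + m) τ (2 * n + 3) W q f (hx V W) N
  hom : ∀ i, (h i).IsHomogeneous (n + 1)
  h_ne : aeval f (h 0) ≠ 0
  jac_ne : aeval f (Matrix.det (Matrix.of fun i a => pderiv a (h i))) ≠ 0
  /-- the second map is good on `K` -/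
  secK : ∀ V : ValuationSubring K, ZDim k V → SecAt (n + 1) n h f V
  /-- the second map is good on the bad divisors: chain lemma, and separability -/
  secB : ∀ v : ValuationSubring K, ∀ hv : Dv n (W * L) v, BadF L (c + m) τ W q f v →
    letI : Algebra k (IsLocalRing.ResidueField v) := resAlg hv.1
    ∃ a₁, IsMin v ((W * L) ^ (2 * n + 3)) (f a₁) ∧
      (∀ B : ValuationSubring (IsLocalRing.ResidueField v), ZDim k B →
        SecAt (n + 1) (n - 1) h (fun a => rs v (f a / f a₁)) B) ∧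
      /- if the first `n - 1` ratios of the `h i` are algebraically independent at `v`,
      then the last one is separable over them -/
      (AlgebraicIndependent k (fun i : Fin (n - 1) =>
          aeval (fun a => rs v (f a / f a₁)) (h ⟨i + 1, by omega⟩) /
            aeval (fun a => rs v (f a / f a₁)) (h 0)) →
        IsSeparable (IntermediateField.adjoin k (Set.range fun i : Fin (n - 1) =>
          aeval (fun a => rs v (f a / f a₁)) (h ⟨i + 1, by omega⟩) /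
            aeval (fun a => rs v (f a / f a₁)) (h 0)))
          (aeval (fun a => rs v (f a / f a₁)) (h (Fin.last n)) /
            aeval (fun a => rs v (f a / f a₁)) (h 0)))

end Setup

/-- ROW R1 (helper63): existence of the setup, from DAT, X (with `t = 2 n + 3`), SEC (`s = n + 1`,
`J` = `K` and the finitely many bad divisors), SEP, FINH. -/
def SetupStmt (k K : Type u) [Field k] [Field K] [Algebra k K] (n p : ℕ) : Prop :=
  IsAlgClosed k → CharP k p → p.Prime → Big k → d9 n < p →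
  (⊤ : IntermediateField k K).FG → Algebra.trdeg k K = n → 0 < n →
    ∀ A₀ : Subalgebra k K, A₀.FG → (∀ x : K, IsIntegral A₀ x → x ∈ A₀) →
    (∀ x : K, ∃ a ∈ A₀, ∃ s ∈ A₀, s ≠ 0 ∧ x = a / s) →
    ∃ (L : Submodule k K) (c : ℕ) (τ : K) (c' m : ℕ) (q : K [⋀^Fin (n + 1)]→ₗ[k] K)
      (W : Submodule k K) (f : Fin (n + 1) → K) (h : Fin (n + 1) → MvPolynomial (Fin (n + 1)) k),
      Setup n p A₀ L c τ c' m q W f h

section Asm

variable {k K : Type u} [Field k] [Field K] [Algebra k K] {m' p : ℕ} {A₀ : Subalgebra k K}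
  {L : Submodule k K} {c : ℕ} {τ : K} {c' m : ℕ} {q : K [⋀^Fin (m' + 1 + 1)]→ₗ[k] K}
  {W : Submodule k K} {f : Fin (m' + 1 + 1) → K}
  {h : Fin (m' + 1 + 1) → MvPolynomial (Fin (m' + 1 + 1)) k}

/-- `b i = h (i + 1) (f) / h 0 (f)`. -/
noncomputable def bb (f : Fin (m' + 1 + 1) → K)
    (h : Fin (m' + 1 + 1) → MvPolynomial (Fin (m' + 1 + 1)) k) (i : Fin m') : K :=
  aeval f (h i.castSucc.succ) / aeval f (h 0)

/-- `z = h n (f) / h 0 (f)`. -/
noncomputable def zz (f : Fin (m' + 1 + 1) → K)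
    (h : Fin (m' + 1 + 1) → MvPolynomial (Fin (m' + 1 + 1)) k) : K :=
  aeval f (h (Fin.last (m' + 1))) / aeval f (h 0)

/-- The second map is ramified at `v`. -/
def RamH (f : Fin (m' + 1 + 1) → K) (h : Fin (m' + 1 + 1) → MvPolynomial (Fin (m' + 1 + 1)) k)
    (v : ValuationSubring K) : Prop :=
  ∃ a₁, (∀ a, f a / f a₁ ∈ v) ∧ f a₁ ≠ 0 ∧
    v.valuation (aeval f (Matrix.det (Matrix.of fun i a => pderiv a (h i)))) <
      v.valuation (f a₁) ^ ((m' + 2) * (m' + 1))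

/-- ROW R5: outside of the bad divisors everything is good. -/
def R5Stmt (k K : Type u) [Field k] [Field K] [Algebra k K] : Prop :=
  ∀ (m' p : ℕ) (A₀ : Subalgebra k K) (L : Submodule k K) (c : ℕ) (τ : K) (c' m : ℕ)
    (q : K [⋀^Fin (m' + 1 + 1)]→ₗ[k] K) (W : Submodule k K) (f : Fin (m' + 1 + 1) → K)
    (h : Fin (m' + 1 + 1) → MvPolynomial (Fin (m' + 1 + 1)) k),
    Setup (m' + 1) p A₀ L c τ c' m q W f h →
    ∀ v : ValuationSubring K, PDiv k (bb f h) (zz f h) v → v.valuation (zz f h) = 1 →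
      (∀ i, v.valuation (bb f h i) = 1) → ¬ BadF L (c + m) τ W q f v → ¬ RamH f h v →
      Pool.Agent.TG.Good A₀ (bb f h) (zz f h) v

/-- ROW R6: algebraic independence, finiteness, separability. -/
def R6Stmt (k K : Type u) [Field k] [Field K] [Algebra k K] : Prop :=
  ∀ (m' p : ℕ) (A₀ : Subalgebra k K) (L : Submodule k K) (c : ℕ) (τ : K) (c' m : ℕ)
    (q : K [⋀^Fin (m' + 1 + 1)]→ₗ[k] K) (W : Submodule k K) (f : Fin (m' + 1 + 1) → K)
    (h : Fin (m' + 1 + 1) → MvPolynomial (Fin (m' + 1 + 1)) k),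
    Setup (m' + 1) p A₀ L c τ c' m q W f h →
    AlgebraicIndependent k (bb f h) ∧ Transcendental (LB k (bb f h)) (zz f h) ∧
    FiniteDimensional (KB k (bb f h) (zz f h)) K ∧
    Algebra.IsSeparable (KB k (bb f h) (zz f h)) K

/-- ROW BX: finitely many elements detect the bad divisors. -/
def BXStmt (k K : Type u) [Field k] [Field K] [Algebra k K] : Prop :=
  ∀ (n : ℕ) (L : Submodule k K) (c : ℕ) (τ : K) (c' m t : ℕ) (q : K [⋀^Fin (n + 1)]→ₗ[k] K)
    (W : Submodule k K) (f : Fin (n + 1) → K), Dat k n L c τ c' q → W ≤ L ^ m → W ≠ ⊥ →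
    (∀ j, f j ∈ (W * L) ^ t) → q f ≠ 0 →
    ∃ X : Finset K, (∀ x ∈ X, x ≠ 0) ∧ ∀ v : ValuationSubring K, Ov k v →
      (∀ x ∈ X, v.valuation x = 1) →
        ¬ BadF L (c + m) τ W q f v ∧ (∀ j, f j ≠ 0 → v.valuation (f j) = 1)

/-- ROW R7 (helper22): `PDiv` divisors are divisors of `H = W L`; finitely many of them are bad. -/
def R7Stmt (k K : Type u) [Field k] [Field K] [Algebra k K] : Prop :=
  ∀ (m' p : ℕ) (A₀ : Subalgebra k K) (L : Submodule k K) (c : ℕ) (τ : K) (c' m : ℕ)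
    (q : K [⋀^Fin (m' + 1 + 1)]→ₗ[k] K) (W : Submodule k K) (f : Fin (m' + 1 + 1) → K)
    (h : Fin (m' + 1 + 1) → MvPolynomial (Fin (m' + 1 + 1)) k),
    Setup (m' + 1) p A₀ L c τ c' m q W f h →
    (∀ v : ValuationSubring K, PDiv k (bb f h) (zz f h) v → Dv (m' + 1) (W * L) v) ∧
    {v : ValuationSubring K | PDiv k (bb f h) (zz f h) v ∧
      (BadF L (c + m) τ W q f v ∨ RamH f h v)}.Finite

/-- ROW R2: the local degrees of `K` over `P^n`. -/
def R2Stmt (k K : Type u) [Field k] [Field K] [Algebra k K] : Prop :=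
  ∀ (m' p : ℕ) (A₀ : Subalgebra k K) (L : Submodule k K) (c : ℕ) (τ : K) (c' m : ℕ)
    (q : K [⋀^Fin (m' + 1 + 1)]→ₗ[k] K) (W : Submodule k K) (f : Fin (m' + 1 + 1) → K)
    (h : Fin (m' + 1 + 1) → MvPolynomial (Fin (m' + 1 + 1)) k),
    Setup (m' + 1) p A₀ L c τ c' m q W f h →
    ∀ v₀ : ValuationSubring (KB k (bb f h) (zz f h)), ZDim k v₀ →
      LDeg K v₀ (RV v₀ (PP k (bb f h) (zz f h))) (d9 (m' + 1))

/-- The conclusion of ProjP for a bad `v`. -/
def BadConcl (k : Type u) {K : Type u} [Field k] [Field K] [Algebra k K] {m' : ℕ} (b : Fin m' → K) (z : K)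
    (d : ℕ) (v : ValuationSubring K) : Prop :=
  ∃ (M : Type u) (_ : Field M) (_ : Algebra (LB k b) M) (r : M),
    FiniteDimensional (LB k b) M ∧ Algebra.IsSeparable (LB k b) M ∧
    (∀ v₀ : ValuationSubring (LB k b), ZDim k v₀ → LDeg M v₀ (RV v₀ (PB k b)) d) ∧
    v.valuation (Polynomial.aeval z (minpoly (LB k b) r)) < 1

/-- ROW R3: divisors which are bad for `f`. -/
def R3Stmt (k K : Type u) [Field k] [Field K] [Algebra k K] : Prop :=
  ∀ (m' p : ℕ) (A₀ : Subalgebra k K) (L : Submodule k K) (c : ℕ) (τ : K) (c' m : ℕ)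
    (q : K [⋀^Fin (m' + 1 + 1)]→ₗ[k] K) (W : Submodule k K) (f : Fin (m' + 1 + 1) → K)
    (h : Fin (m' + 1 + 1) → MvPolynomial (Fin (m' + 1 + 1)) k),
    Setup (m' + 1) p A₀ L c τ c' m q W f h →
    ∀ v : ValuationSubring K, PDiv k (bb f h) (zz f h) v → (∀ x ∈ LB k (bb f h), x ∈ v) →
      BadF L (c + m) τ W q f v → BadConcl k (bb f h) (zz f h) (d9 (m' + 1)) v

/-- ROW R4 (helper22): divisors where the second map is ramified. -/
def R4Stmt (k K : Type u) [Field k] [Field K] [Algebra k K] : Prop :=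
  ∀ (m' p : ℕ) (A₀ : Subalgebra k K) (L : Submodule k K) (c : ℕ) (τ : K) (c' m : ℕ)
    (q : K [⋀^Fin (m' + 1 + 1)]→ₗ[k] K) (W : Submodule k K) (f : Fin (m' + 1 + 1) → K)
    (h : Fin (m' + 1 + 1) → MvPolynomial (Fin (m' + 1 + 1)) k),
    Setup (m' + 1) p A₀ L c τ c' m q W f h →
    ∀ v : ValuationSubring K, PDiv k (bb f h) (zz f h) v → (∀ x ∈ LB k (bb f h), x ∈ v) →
      RamH f h v →
      BadConcl k (bb f h) (zz f h) (d9 (m' + 1)) v

end Asm

end Pool.Agent.TG9
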