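import Pool.Agent.Lib.TG9.Defs4

/-!
# TANK G, backup track BC9: the valuation inequality behind `DegStmt`
-/

set_option autoImplicit false

namespace Pool.Agent.TG9

open Pool.Agent.TG (Ov ZDim IsMin IsModel Bir ch chN)
open Pool.Agent.LU2 (locV)
open Pool.Agent.TG15 (Gt Tp hx smulK)
open Module Filter MvPolynomial

universe u

/-- ROW D4i (helper57). `V_A = cmp φ hφ A` (composite of `v` and `A`). (1) `h i₀ (f)` is minimal in
`(W L) ^ (t s)` at `V_A`. (2) for every `B` with the same centre as `A` on the integral closure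
of `k[h i / h i₀, i ≤ d]` in `κ`: the inequality for `cl (H' ^ N)`, `H' = hx V_A W * L`. -/
def IneqStmt (k K κ : Type u) [Field k] [Field K] [Algebra k K] [Field κ] [Algebra k κ]
    (n d : ℕ) : Prop :=
  IsAlgClosed k → 0 < n → d ≤ n →
    ∀ (L W : Submodule k K), L.FG → 1 ∈ L → W.FG → W ≠ ⊥ → ∀ (t s : ℕ)
      (f : Fin (n + 1) → K) (h : Fin (n + 1) → MvPolynomial (Fin (n + 1)) k),
    0 < t → 0 < s → (∀ j, f j ∈ (W * L) ^ t) → (∀ i, (h i).IsHomogeneous s) →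
    /- bpf -/
    (∀ V : ValuationSubring K, Ov k V → ∃ j, IsMin V ((W * L) ^ t) (f j)) →
    /- c1 -/
    (∀ V : ValuationSubring K, ZDim k V → ∀ (j₀ : Fin (n + 1)), IsMin V ((W * L) ^ t) (f j₀) →
      ∀ w, IsMin V W w → ∀ z ∈ hx V W, ∃ (i : Fin (n + 1)) (a : k),
        V.valuation (f i / f j₀ - algebraMap k K a) < 1 ∧
        V.valuation (z / w) ^ (n + 1) ≤ V.valuation (f i / f j₀ - algebraMap k K a)) →
    ∀ (v : ValuationSubring K) (φ : v →+* κ) (hφ : IsRes φ) (hv : Ov k v)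
      (_ : ∀ c : k, φ ⟨algebraMap k K c, hv c⟩ = algebraMap k κ c)
      (y : Fin (n + 1) → κ) (a₁ : Fin (n + 1)), IsMin v ((W * L) ^ t) (f a₁) →
    (∀ a, ∃ h : f a / f a₁ ∈ v, φ ⟨f a / f a₁, h⟩ = y a) →
    (∀ B : ValuationSubring κ, ZDim k B → SecAt s d h y B) →
    ∀ (A : ValuationSubring κ), ZDim k A → ∀ i₀ : Fin (n + 1), (i₀ : ℕ) ≤ d →
      aeval y (h i₀) ≠ 0 →
      (∀ i : Fin (n + 1), (i : ℕ) ≤ d → aeval y (h i) / aeval y (h i₀) ∈ A) →
      IsMin (cmp φ hφ A) ((W * L) ^ (t * s)) (aeval f (h i₀)) ∧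
      ∀ B : ValuationSubring κ, ZDim k B →
        SameC k {z : κ | ∃ i : Fin (n + 1), (i : ℕ) ≤ d ∧ z = aeval y (h i) / aeval y (h i₀)}
          A B →
        ∀ m : ℕ, ∀ a ∈ cl ((hx (cmp φ hφ A) W * L) ^ (t * s * m)),
          ∀ ha : a / aeval f (h i₀) ^ m ∈ v, ∃ (i : Fin (n + 1)) (γ : k), (i : ℕ) ≤ d ∧
            A.valuation (aeval y (h i) / aeval y (h i₀) - algebraMap k κ γ) < 1 ∧
            B.valuation (φ ⟨a / aeval f (h i₀) ^ m, ha⟩) ^ ((n + 1) * (d + 1)) ≤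
              B.valuation (aeval y (h i) / aeval y (h i₀) - algebraMap k κ γ) ^ (t * s * m)

end Pool.Agent.TG9
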