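import Pool.Agent.Lib.TG9.DegA
import Pool.Agent.Lib.TG.WLz

/-!
# TANK G, BC9: `DegStmt` from `AbsStmt`, `LinStmt`, `RichStmt`, `IneqStmt`
-/

set_option autoImplicit false

namespace Pool.Agent.TG9

open Pool.Agent.TG (Ov ZDim IsMin IsModel Bir ch chN comap_lt_one exists_comap_eq RV stab)
open Pool.Agent.LU2 (locV)
open Pool.Agent.TG15 (Gt Tp hx smulK)
open Module Filter MvPolynomial

universe u

section CMl

variable {k K κ M : Type u} [Field k] [Field K] [Algebra k K] [Field κ] [Algebra k κ] [Field M]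
  [Algebra k M] [Algebra M κ] [IsScalarTower k M κ] {v : ValuationSubring K} {φ : v →+* κ}
  {hv : Ov k v} {hk : ∀ c : k, φ ⟨algebraMap k K c, hv c⟩ = algebraMap k κ c}

theorem mem_CM {u : K} {A : Submodule k K} {x : M} : x ∈ (CM φ hv hk u A : Submodule k M) ↔
    ∃ a ∈ A, ∃ h : a / u ∈ v, φ ⟨a / u, h⟩ = algebraMap M κ x := Iff.rfl

theorem CM_mono {u : K} {A B : Submodule k K} (h : A ≤ B) :
    (CM φ hv hk u A : Submodule k M) ≤ CM φ hv hk u B := fun _ ⟨a, ha, h1, h2⟩ =>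
  ⟨a, h ha, h1, h2⟩

theorem CM_mul {u w : K} {A B C : Submodule k K} (h : A * B ≤ C) :
    (CM φ hv hk u A : Submodule k M) * CM φ hv hk w B ≤ CM φ hv hk (u * w) C := by
  rw [Submodule.mul_le]
  rintro x ⟨a, ha, h1, h2⟩ y ⟨b, hb, h3, h4⟩
  have h5 : a * b / (u * w) = a / u * (b / w) := mul_div_mul_comm a b u w
  have h6 : a * b / (u * w) ∈ v := by rw [h5]; exact v.mul_mem _ _ h1 h3
  refine ⟨a * b, h (Submodule.mul_mem_mul ha hb), h6, ?_⟩
  have e : (⟨a * b / (u * w), h6⟩ : v) = ⟨a / u, h1⟩ * ⟨b / w, h3⟩ := Subtype.ext h5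
  rw [e, map_mul, h2, h4, map_mul]

end CMl

theorem aeval_mem_pow {k K : Type u} [Field k] [Field K] [Algebra k K] {P : Submodule k K}
    {σ : Type*} {g : MvPolynomial σ k} {s : ℕ} (hg : g.IsHomogeneous s) {f : σ → K}
    (hf : ∀ j, f j ∈ P) : aeval f g ∈ P ^ s := by
  rw [aeval_def, eval₂_eq]
  refine Submodule.sum_mem _ fun d hd => ?_
  have h1 : ∏ i ∈ d.support, f i ^ d i ∈ P ^ (∑ i ∈ d.support, d i) := by
    clear hd
    induction d.support using Finset.cons_induction with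
    | empty => rw [Finset.prod_empty, Finset.sum_empty, pow_zero]; exact (Submodule.one_le.1 le_rfl)
    | cons i S hi ih =>
      rw [Finset.prod_cons, Finset.sum_cons, pow_add]
      exact Submodule.mul_mem_mul (Submodule.pow_mem_pow _ (hf i) _) ih
  have h2 : ∑ i ∈ d.support, d i = s := (hg.degree_eq_sum_deg_support hd).symm
  rw [h2] at h1
  rw [← Algebra.smul_def]
  exact Submodule.smul_mem _ _ h1

theorem pow_mem_cl {k K : Type u} [Field k] [Field K] [Algebra k K] {P : Submodule k K} {c : K}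
    (hc : c ∈ cl P) (r : ℕ) : c ^ r ∈ cl (P ^ r) := by
  induction r with
  | zero => rw [pow_zero, pow_zero]; exact le_cl _ (Submodule.one_le.1 le_rfl)
  | succ r ih =>
    rw [pow_succ, pow_succ]
    exact H57.mul_mem_cl ih hc

theorem val_le_of_le {E : Type u} [Field E] {B B₁ : ValuationSubring E} (hle : B₁ ≤ B) {x y : E}
    (h : B₁.valuation x ≤ B₁.valuation y) : B.valuation x ≤ B.valuation y := by
  by_cases hy : y = 0
  · rw [hy, map_zero] at h
    rw [(map_eq_zero _).1 (le_antisymm h zero_le'), hy]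
  have h1 : x / y ∈ B₁ := by
    rw [← ValuationSubring.valuation_le_one_iff, map_div₀]
    exact (div_le_one₀ (zero_lt_iff.2 ((Valuation.ne_zero_iff _).2 hy))).2 h
  have h2 := hle h1
  rw [← ValuationSubring.valuation_le_one_iff, map_div₀] at h2
  exact (div_le_one₀ (zero_lt_iff.2 ((Valuation.ne_zero_iff _).2 hy))).1 h2

theorem isIntegral_of_map {k κ M : Type u} [Field k] [Field κ] [Algebra k κ] [Field M]
    [Algebra k M] [Algebra M κ] [IsScalarTower k M κ] (S : Set M) {b : M}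
    (hb : IsIntegral (Algebra.adjoin k (algebraMap M κ '' S)) (algebraMap M κ b)) :
    IsIntegral (Algebra.adjoin k S) b := by
  have h1 : algebraMap M κ b ∈ TG.ncl (TG.up κ (Algebra.adjoin k S)) := by
    have h2 : TG.up κ (Algebra.adjoin k S) = Algebra.adjoin k (algebraMap M κ '' S) := by
      rw [TG.up, AlgHom.map_adjoin]
      rfl
    rw [h2]
    exact hb
  have h3 := (TG.ncl_up_iff (F := M) (L := M) (N := κ) (R := Algebra.adjoin k S) b).2 h1
  have h4 : TG.up M (Algebra.adjoin k S) = Algebra.adjoin k S := by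
    ext x
    exact TG.algebraMap_mem_up
  rw [h4] at h3
  exact h3

/-- **ROW D4.** -/
theorem degStmt {k K κ M F : Type u} [Field k] [Field K] [Algebra k K] [Field κ] [Algebra k κ]
    [Field M] [Algebra k M] [Algebra M κ] [IsScalarTower k M κ] [Field F] [Algebra k F]
    [Algebra F M] [IsScalarTower k F M] {n d : ℕ} (hcl : ∀ P : Submodule k K, P.FG → (cl P).FG)
    (habs : AbsStmt k F M d) (hlin : LinStmt k K κ M) (hrich : RichStmt k K n)
    (hineq : IneqStmt k K κ n d) : DegStmt k K κ M F n d := by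
  intro hac hfg htr hn hd L W hL h1L hbir hW hW0 t s f h ht hs hlt hfm hhom hbpf hc1 v φ hφ hv hk
    hvD hpi y a₁ ha₁ hy hsec x hx0 hxh htrF hadj P hP N _ _ _ _ _ _ j V' hV'
  have hHmod : IsModel (W * L) := IsModel.mul ⟨hW, hW0⟩ ⟨hL, fun h0 => by
    rw [h0, Submodule.mem_bot] at h1L
    exact one_ne_zero h1L⟩
  have hT : 0 < t * s := Nat.mul_pos ht hs
  -- the place of `κ`
  set A : ValuationSubring M := V'.comap (j : M →+* N) with hAdef
  obtain ⟨A', hA'⟩ := exists_comap_eq (N := κ) A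
  have hA'z : ZDim k A' := zdim_of_comap hpi (by rw [hA']; exact hV')
  have hVz : ZDim k (cmp φ hφ A') := cmp_zdim hv hk hA'z
  -- the minimal coordinate
  obtain ⟨a₀, ha₀⟩ := hbpf _ hVz.ov
  have ha₀v : IsMin v ((W * L) ^ t) (f a₀) := ha₀.of_le cmp_le
  have hf1 : f a₁ ≠ 0 := ha₁.ne
  have hyu : ∀ a, IsMin v ((W * L) ^ t) (f a) → y a ≠ 0 := by
    intro a ha h0
    obtain ⟨h1, h2⟩ := hy a
    rw [h0] at h2
    have h3 := (hφ.zero _).1 h2
    exact h3.ne (TG.val_div_eq_one ha₁ ha)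
  have hy0 : y a₀ ≠ 0 := hyu a₀ ha₀v
  have hydiv : ∀ a, y a / y a₀ ∈ A' := by
    intro a
    obtain ⟨h1, h2⟩ := ha₀.div (f a) (hfm a)
    obtain ⟨h3, h4⟩ := hy a
    obtain ⟨h5, h6⟩ := hy a₀
    have h7 : φ ⟨f a / f a₀, h1⟩ * y a₀ = y a := by
      rw [← h4, ← h6, ← map_mul]
      congr 1
      refine Subtype.ext ?_
      change f a / f a₀ * (f a₀ / f a₁) = f a / f a₁
      exact div_mul_div_cancel₀ ha₀.ne
    rw [← h7, mul_div_cancel_right₀ _ hy0]
    exact h2
  obtain ⟨i₀, hi₀d, hi₀, -⟩ := hsec A' hA'z a₀ hydiv hy0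
  have hmono : ∀ i, A'.valuation (aeval y (h i)) ≤ A'.valuation (aeval y (h i₀)) := by
    intro i
    rw [hi₀]
    exact val_form_le A' hA'z.ov hy0 hydiv (hhom i)
  have hyi₀ : aeval y (h i₀) ≠ 0 := by
    intro h0
    rw [h0, map_zero] at hi₀
    exact (pow_ne_zero s ((Valuation.ne_zero_iff _).2 hy0)) hi₀.symm
  have hratA : ∀ i : Fin (n + 1), (i : ℕ) ≤ d → aeval y (h i) / aeval y (h i₀) ∈ A' := by
    intro i _
    rw [← A'.valuation_le_one_iff, map_div₀]
    exact (div_le_one₀ (zero_lt_iff.2 ((Valuation.ne_zero_iff _).2 hyi₀))).2 (hmono i)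
  obtain ⟨hmin, hB⟩ := hineq hac hn hd L W hL h1L hW hW0 t s f h ht hs hfm hhom hbpf hc1 v φ hφ hv
    hk y a₁ ha₁ hy hsec A' hA'z i₀ hi₀d hyi₀ hratA
  set V := cmp φ hφ A' with hVdef
  set u := aeval f (h i₀) with hu
  have hminv : IsMin v ((W * L) ^ (t * s)) u := hmin.of_le cmp_le
  have hu0 : u ≠ 0 := hmin.ne
  set H := W * L with hH
  set H' := hx V W * L with hH'
  have hH'le : H' ≤ H := mul_le_mul' (fun _ hz => hz.1) le_rfl
  -- coordinates of `f` and of `y`
  have hw : ∀ a, ∃ h : f a / f a₁ ∈ v, φ ⟨f a / f a₁, h⟩ = y a := hy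
  have hphi : ∀ i, ∃ h' : aeval f (h i) / u ∈ v,
      φ ⟨aeval f (h i) / u, h'⟩ = aeval y (h i) / aeval y (h i₀) := by
    intro i
    obtain ⟨h1, h2⟩ := phi_aeval (φ := φ) hv hk hw (h i)
    obtain ⟨h3, h4⟩ := phi_aeval (φ := φ) hv hk hw (h i₀)
    obtain ⟨h5, h6⟩ := phi_div hφ h1 h3 (by rw [h4]; exact hyi₀)
    have h7 : aeval f (h i) / u = aeval (fun a => f a / f a₁) (h i) /
        aeval (fun a => f a / f a₁) (h i₀) := by
      rw [hu, aeval_div_of_hom (hhom i) hf1, aeval_div_of_hom (hhom i₀) hf1]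
      exact mul_div_mul_left _ _ (pow_ne_zero _ hf1)
    have h8 : aeval f (h i) / u ∈ v := by rw [h7]; exact h5
    refine ⟨h8, ?_⟩
    have e : (⟨aeval f (h i) / u, h8⟩ : v) = ⟨_, h5⟩ := Subtype.ext h7
    rw [e, h6, h2, h4]
  -- the coordinates on `F`
  have hyh0 : aeval y (h 0) ≠ 0 := by
    intro h0
    have h1 := hxh i₀ hi₀d
    rw [h0, mul_zero] at h1
    exact hyi₀ h1.symm
  have hxi₀ : x i₀ ≠ 0 := by
    intro h0
    have h1 := hxh i₀ hi₀d
    rw [h0, map_zero, map_zero, zero_mul] at h1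
    exact hyi₀ h1.symm
  let em : Fin (d + 1) → Fin (n + 1) := Fin.castLE (by omega)
  let i₀' : Fin (d + 1) := ⟨i₀, by omega⟩
  have hemi : em i₀' = i₀ := rfl
  let y' : Fin (d + 1) → F := fun i => x (em i) / x i₀
  have hemd : ∀ i, ((em i : Fin (n + 1)) : ℕ) ≤ d := fun i => by
    have := i.2
    simp only [em, Fin.val_castLE]
    omega
  have hy'κ : ∀ i, algebraMap M κ (algebraMap F M (y' i)) =
      aeval y (h (em i)) / aeval y (h i₀) := by
    intro i
    rw [map_div₀, map_div₀, ← hxh (em i) (hemd i), ← hxh i₀ hi₀d]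
    exact (mul_div_mul_right _ _ hyh0).symm
  let C : ℕ → Submodule k M := fun m => CM φ hv hk (u ^ m) (cl (H ^ (t * s * m)))
  let C' : ℕ → Submodule k M := fun m => CM φ hv hk (u ^ m) (cl (H' ^ (t * s * m)))
  have hHfg : ∀ N, (cl (H ^ N)).FG := fun N => hcl _ (IsModel.pow hHmod N).fg
  have hminm : ∀ m, IsMin v (H ^ (t * s * m)) (u ^ m) := by
    intro m
    rw [pow_mul]
    exact hminv.pow hv m
  have hclv : ∀ m, ∀ a ∈ cl (H ^ (t * s * m)), a / u ^ m ∈ v := fun m a ha =>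
    (ge_iff (hminm m)).1 (ha v hv)
  have hclle : ∀ N, cl (H' ^ N) ≤ cl (H ^ N) := fun N => cl_mono (pow_le_pow_left' hH'le N)
  have hCC : ∀ a b, C a * C b ≤ C (a + b) := by
    intro a b
    have h1 : (u ^ (a + b) : K) = u ^ a * u ^ b := pow_add u a b
    change CM φ hv hk (u ^ a) _ * CM φ hv hk (u ^ b) _ ≤ CM φ hv hk (u ^ (a + b)) _
    rw [h1]
    refine CM_mul ?_
    rw [Submodule.mul_le, mul_add, pow_add]
    exact fun z hz w hw => H57.mul_mem_cl hz hw
  have hy'C : ∀ i, algebraMap F M (y' i) ∈ C 1 := by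
    intro i
    obtain ⟨h1, h2⟩ := hphi (em i)
    have h3 : aeval f (h (em i)) / u ^ 1 = aeval f (h (em i)) / u := by rw [pow_one]
    have h4 : aeval f (h (em i)) / u ^ 1 ∈ v := by rw [h3]; exact h1
    refine ⟨aeval f (h (em i)), ?_, h4, ?_⟩
    · rw [mul_one]
      refine le_cl _ ?_
      rw [pow_mul]
      exact aeval_mem_pow (hhom (em i)) hfm
    · have e : (⟨aeval f (h (em i)) / u ^ 1, h4⟩ : v) = ⟨_, h1⟩ := Subtype.ext h3
      rw [e, h2, hy'κ]
  have hCfg : ∀ m, (C m).FG := by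
    intro m
    exact (hlin v φ hφ hv hk (u ^ m) (cl (H ^ (t * s * m))) ⊥ ⊥ (pow_ne_zero _ hu0) (hHfg _)
      bot_le bot_le (hclv m) (fun a ha => by
        rw [Submodule.mem_bot] at ha
        rw [ha, zero_div, map_zero]
        exact zero_lt_one)).1
  have hrat : ∀ x : M, ∃ m, ∃ a ∈ C m, ∃ b ∈ C m, b ≠ 0 ∧ x = a / b := by
    intro x
    obtain ⟨g, hg⟩ := TG.exists_isMin (P := H) hv hHmod
    obtain ⟨⟨z, hz⟩, hzx⟩ := hφ.surj (algebraMap M κ x)
    obtain ⟨m, a, ha, b, hb, hvb, hzab⟩ := hrich hac hfg htr hn H hHmod.fg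
      (Bir.mul (fun h0 => hW0 h0) hbir) v hvD g hg z hz
    -- multiply by `g ^ ((T - 1) m)`
    set G := g ^ ((t * s - 1) * m) with hG
    have hg0 : g ≠ 0 := hg.ne
    have hG0 : G ≠ 0 := pow_ne_zero _ hg0
    have hdeg : m + (t * s - 1) * m = t * s * m := by
      obtain ⟨r, hr⟩ : ∃ r, t * s = r + 1 := ⟨t * s - 1, by omega⟩
      rw [hr, Nat.add_sub_cancel]
      ring
    have hmulG : ∀ c ∈ cl (H ^ m), c * G ∈ cl (H ^ (t * s * m)) := by
      intro c hc
      rw [← hdeg, pow_add]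
      exact H57.mul_mem_cl hc (le_cl _ (Submodule.pow_mem_pow _ hg.mem _))
    have hzv : v.valuation (b * G) = v.valuation (u ^ m) := by
      rw [map_mul, hvb, ← map_mul, ← pow_add, hdeg]
      have h1 := TG.val_div_eq_one (hminm m) (hg.pow hv (t * s * m))
      rw [map_div₀, div_eq_one_iff_eq ((Valuation.ne_zero_iff _).2 (pow_ne_zero _ hu0))] at h1
      exact h1
    have hum0 : (u ^ m : K) ≠ 0 := pow_ne_zero _ hu0
    have hb1 : b * G / u ^ m ∈ v := hclv m _ (hmulG b hb)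
    have ha1 : a * G / u ^ m ∈ v := hclv m _ (hmulG a ha)
    set β := φ ⟨b * G / u ^ m, hb1⟩ with hβ
    have hβ0 : β ≠ 0 := by
      intro h0
      have h1 := (hφ.zero _).1 h0
      rw [map_div₀, hzv, div_self ((Valuation.ne_zero_iff _).2 hum0)] at h1
      exact lt_irrefl _ h1
    have hb0 : b ≠ 0 := by
      rintro rfl
      apply hβ0
      rw [hβ]
      have e : (⟨0 * G / u ^ m, hb1⟩ : v) = 0 := Subtype.ext (by
        change 0 * G / u ^ m = 0
        rw [zero_mul, zero_div])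
      rw [e, map_zero]
    have hxβ : algebraMap M κ x * β = φ ⟨a * G / u ^ m, ha1⟩ := by
      rw [← hzx, hβ, ← map_mul]
      congr 1
      refine Subtype.ext ?_
      change z * (b * G / u ^ m) = a * G / u ^ m
      rw [hzab]
      field_simp
    obtain ⟨q, hq, y₁, hy₁⟩ := hpi β
    obtain ⟨q, rfl⟩ := Nat.exists_eq_succ_of_ne_zero hq.ne'
    have hy₁0 : y₁ ≠ 0 := by
      rintro rfl
      rw [map_zero] at hy₁
      exact pow_ne_zero _ hβ0 hy₁.symm
    have hpowcl : ∀ (c : K) (r : ℕ), c ∈ cl (H ^ (t * s * m)) →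
        c ^ r ∈ cl (H ^ (t * s * (m * r))) := by
      intro c r hc
      rw [← mul_assoc, pow_mul]
      exact pow_mem_cl hc r
    refine ⟨m * (q + 1), x * y₁, ?_, y₁, ?_, hy₁0, by rw [mul_div_cancel_right₀ _ hy₁0]⟩
    · have h1 : (a * G * (b * G) ^ q) / u ^ (m * (q + 1)) =
          a * G / u ^ m * (b * G / u ^ m) ^ q := by
        rw [div_pow, div_mul_div_comm, ← pow_mul, ← pow_add]
        congr 2
        ring
      have h2 : (a * G * (b * G) ^ q) / u ^ (m * (q + 1)) ∈ v := by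
        rw [h1]
        exact v.mul_mem _ _ ha1 (pow_mem hb1 q)
      refine ⟨a * G * (b * G) ^ q, ?_, h2, ?_⟩
      · have h3 : t * s * (m * (q + 1)) = t * s * m + t * s * (m * q) := by ring
        rw [h3, pow_add]
        exact H57.mul_mem_cl (hmulG a ha) (hpowcl _ q (hmulG b hb))
      · have e : (⟨(a * G * (b * G) ^ q) / u ^ (m * (q + 1)), h2⟩ : v) =
            ⟨a * G / u ^ m, ha1⟩ * ⟨b * G / u ^ m, hb1⟩ ^ q := Subtype.ext h1
        rw [e, map_mul, map_pow, ← hxβ, map_mul, hy₁, pow_succ]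
        ring
    · have h1 : (b * G) ^ (q + 1) / u ^ (m * (q + 1)) = (b * G / u ^ m) ^ (q + 1) := by
        rw [div_pow, ← pow_mul]
      have h2 : (b * G) ^ (q + 1) / u ^ (m * (q + 1)) ∈ v := by
        rw [h1]
        exact pow_mem hb1 _
      refine ⟨(b * G) ^ (q + 1), hpowcl _ _ (hmulG b hb), h2, ?_⟩
      have e : (⟨(b * G) ^ (q + 1) / u ^ (m * (q + 1)), h2⟩ : v) =
          ⟨b * G / u ^ m, hb1⟩ ^ (q + 1) := Subtype.ext h1
      rw [e, map_pow, hy₁]
  -- transport of `SameC`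
  let S : Set M := Set.range fun i => algebraMap F M (y' i)
  let Sκ : Set κ := {z : κ | ∃ i : Fin (n + 1), (i : ℕ) ≤ d ∧ z = aeval y (h i) / aeval y (h i₀)}
  have hSκ : Sκ = algebraMap M κ '' S := by
    ext z
    constructor
    · rintro ⟨i, hi, rfl⟩
      refine ⟨_, ⟨⟨i, by omega⟩, rfl⟩, ?_⟩
      rw [hy'κ]
      rfl
    · rintro ⟨_, ⟨i, rfl⟩, rfl⟩
      exact ⟨em i, hemd i, hy'κ i⟩
  have hintpow : ∀ b : κ, IsIntegral (Algebra.adjoin k Sκ) b → ∃ (q : ℕ) (b₁ : M), 0 < q ∧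
      algebraMap M κ b₁ = b ^ q ∧ IsIntegral (Algebra.adjoin k S) b₁ := by
    intro b hb
    obtain ⟨q, hq, b₁, hb₁⟩ := hpi b
    refine ⟨q, b₁, hq, hb₁, ?_⟩
    have h1 : IsIntegral (Algebra.adjoin k Sκ) (algebraMap M κ b₁) := by
      rw [hb₁]
      exact hb.pow q
    rw [hSκ] at h1
    exact isIntegral_of_map S h1
  have hASκ : ∀ B : ValuationSubring M, ∀ B' : ValuationSubring κ, ZDim k B' →
      B'.comap (algebraMap M κ) = B → SameC k S A B → SameC k Sκ A' B' := by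
    intro B B' hB'z hBB' hSB
    refine ⟨hB'z.ov, fun b hb => ?_⟩
    obtain ⟨q, b₁, hq, hb₁, hint⟩ := hintpow b hb
    obtain ⟨h1, h2⟩ := hSB.2 b₁ hint
    rw [← hBB', ← hA', comap_lt_one, comap_lt_one, hb₁, map_pow, map_pow] at h2
    rw [← hBB'] at h1
    have h3 : b ^ q ∈ B' := by
      rw [← hb₁]
      exact h1
    have h4 : b ∈ B' := by
      rw [← B'.valuation_le_one_iff, map_pow] at h3
      rw [← B'.valuation_le_one_iff]
      exact (pow_le_one_iff hq.ne').1 h3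
    refine ⟨h4, ?_⟩
    rw [pow_lt_one_iff hq.ne', pow_lt_one_iff hq.ne'] at h2
    exact h2
  have hyA : ∀ i, algebraMap F M (y' i) ∈ A := by
    intro i
    rw [← hA']
    change algebraMap M κ (algebraMap F M (y' i)) ∈ A'
    rw [hy'κ]
    exact hratA _ (hemd i)
  have hSA : ∀ b : M, IsIntegral (Algebra.adjoin k S) b → b ∈ A := by
    intro b hb
    refine TG.isIntegral_valuationSubring (fun a ha => ?_) hb
    refine Algebra.adjoin_le (S := TG.valg hV'.ov) ?_ ha
    rintro _ ⟨i, rfl⟩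
    exact hyA i
  have hC'le : ∀ m, C' m ≤ C m := fun m => CM_mono (hclle _)
  have key := habs hac htrF C C' (t * s) ((n + 1) * (d + 1)) i₀' y'
    (Nat.mul_pos (Nat.succ_pos _) (Nat.succ_pos _)) hlt hC'le hCfg hCC hy'C
    (by change x (em i₀') / x i₀ = 1; rw [hemi, div_self hxi₀]) hrat ?_ A hV' hyA ?_ N j V' hAdef.symm
  rotate_left
  · -- generation
    rw [eq_top_iff, ← hadj, IntermediateField.adjoin_le_iff]
    have h0 : (x i₀)⁻¹ ∈ IntermediateField.adjoin k (Set.range y') := by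
      refine IntermediateField.subset_adjoin _ _ ⟨⟨0, by omega⟩, ?_⟩
      change x (em ⟨0, by omega⟩) / x i₀ = _
      have h1 : em ⟨0, by omega⟩ = 0 := rfl
      rw [h1, hx0, one_div]
    rintro z ⟨i, hi, rfl⟩
    have h1 : x i / x i₀ ∈ IntermediateField.adjoin k (Set.range y') :=
      IntermediateField.subset_adjoin _ _ ⟨⟨i, by omega⟩, rfl⟩
    have h2 := div_mem h1 h0
    have h3 : x i / x i₀ / (x i₀)⁻¹ = x i := by field_simp
    rwa [h3] at h2
  · -- the inequality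
    intro B hSB m a ha
    obtain ⟨B₁, hB₁le, hB₁z⟩ := TG.exists_zdim_le (V := B) hSB.1
    obtain ⟨B', hB'⟩ := exists_comap_eq (N := κ) B₁
    have hB'z : ZDim k B' := zdim_of_comap hpi (by rw [hB']; exact hB₁z)
    have hS1 : SameC k S A B₁ := hSB.refine hV' hSA hB₁le hB₁z
    have hS2 := hASκ B₁ B' hB'z hB' hS1
    obtain ⟨a', ha', ha'v, ha'φ⟩ := ha
    obtain ⟨i, γ, hid, h1, h2⟩ := hB B' hB'z hS2 m a' ha' ha'v
    have h3 : aeval y (h i) / aeval y (h i₀) - algebraMap k κ γ =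
        algebraMap M κ (algebraMap F M (y' ⟨i, by omega⟩) - algebraMap k M γ) := by
      rw [map_sub, hy'κ, ← IsScalarTower.algebraMap_apply]
      rfl
    refine ⟨⟨i, by omega⟩, γ, ?_, ?_⟩
    · rw [← hA', comap_lt_one, ← h3]
      exact h1
    · rw [← map_pow, ← map_pow]
      refine val_le_of_le hB₁le ?_
      rw [← hB', comap_val_le]
      simp only [map_pow]
      rw [← h3, ← ha'φ]
      exact h2
  -- conclusion
  refine ⟨V, hVz, cmp_le, fun r hr => ?_⟩
  have hPspan : x i₀ ∈ P := by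
    rw [hP]
    exact Submodule.subset_span ⟨i₀, hi₀d, rfl⟩
  have hyV : ∀ i, y' i ∈ V'.comap (algebraMap F N) := by
    intro i
    have h1 := hyA i
    rw [hAdef] at h1
    change (j : M →+* N) (algebraMap F M (y' i)) ∈ V' at h1
    change algebraMap F N (y' i) ∈ V'
    rw [← j.commutes]
    exact h1
  have hovN : Ov k (V'.comap (algebraMap F N)) := by
    intro c
    change algebraMap F N (algebraMap k F c) ∈ V'
    have h1 := hV'.ov c
    rw [hAdef] at h1
    change (j : M →+* N) (algebraMap k M c) ∈ V' at h1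
    rw [IsScalarTower.algebraMap_apply k F M] at h1
    rw [← j.commutes]
    exact h1
  have hPmin : IsMin (V'.comap (algebraMap F N)) P (x i₀) := by
    rw [hP]
    refine TG.isMin_of_span hovN (Submodule.subset_span ⟨i₀, hi₀d, rfl⟩) hxi₀ ?_
    rintro z ⟨i, hi, rfl⟩
    exact hyV ⟨i, by omega⟩
  have hch : ch P (x i₀) = Algebra.adjoin k (Set.range y') := by
    apply le_antisymm
    · rw [TG.ch_le_iff]
      intro g hg
      rw [hP] at hg
      induction hg using Submodule.span_induction with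
      | mem z hz =>
        obtain ⟨i, hi, rfl⟩ := hz
        exact Algebra.subset_adjoin ⟨⟨i, by omega⟩, rfl⟩
      | zero => rw [zero_div]; exact Subalgebra.zero_mem _
      | add a b _ _ ha hb => rw [add_div]; exact Subalgebra.add_mem _ ha hb
      | smul c a _ ha =>
        rw [Algebra.smul_def, mul_div_assoc, ← Algebra.smul_def]
        exact Subalgebra.smul_mem _ ha c
    · refine Algebra.adjoin_le ?_
      rintro _ ⟨i, rfl⟩
      refine TG.div_mem_ch ?_
      rw [hP]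
      exact Submodule.subset_span ⟨em i, hemd i, rfl⟩
  have hRV : RV (V'.comap (algebraMap F N)) P =
      locV (V'.comap (algebraMap F N)) (Algebra.adjoin k (Set.range y')) := by
    rw [TG.RV_eq hPmin, hch]
  rw [hRV] at hr
  obtain ⟨e₀, he₀⟩ := key r hr
  refine ⟨e₀, fun e he => ?_⟩
  filter_upwards [he₀ e he] with m hm
  intro Kr hKr hKr'
  refine (hlin v φ hφ hv hk (u ^ (m + e)) (cl (H ^ (t * s * (m + e))))
    (cl (H' ^ (t * s * (m + e)))) Kr (pow_ne_zero _ hu0) (hHfg _) (hclle _) hKr (hclv _)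
    (fun a ha => ?_)).2 _ hm
  rcases hKr' a ha with rfl | ⟨z, hz, hz'⟩
  · rw [zero_div, map_zero]
    exact zero_lt_one
  · have h1 := (hminm (m + e)).div z hz
    have hum0 : (u ^ (m + e) : K) ≠ 0 := pow_ne_zero _ hu0
    have h2 := (v.valuation_le_one_iff _).2 h1
    rw [map_div₀, div_le_one₀ (zero_lt_iff.2 ((Valuation.ne_zero_iff _).2 hum0))] at h2
    rw [map_div₀, div_lt_one₀ (zero_lt_iff.2 ((Valuation.ne_zero_iff _).2 hum0))]
    exact hz'.trans_le h2

end Pool.Agent.TG9
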