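import Pool.Agent.Lib.TG9.Defs
import Pool.Agent.Lib.TG15.Start
import Pool.Agent.Lib.TG15.Grow
import Pool.Agent.Lib.TG15n.Num

/-!
# TANK G, backup track BC9: rows T, START, CHOICE

* `tStmt`, `startStmt`, `choiceStmt` (from row CL).
-/

set_option autoImplicit false

namespace Pool.Agent.TG9.H57

open Pool.Agent.TG9
open Pool.Agent.TG (Ov ZDim IsMin IsModel Bir ch chN)
open Pool.Agent.TG15 (Gt Tp hx smulK pow_mono_of_one_mem finrank_smulK sum_shift)
open Module Filter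

universe u

variable {k K : Type u} [Field k] [Field K] [Algebra k K]

section Basic

variable {V : ValuationSubring K} {x y : K} {P Q : Submodule k K}

theorem ge_mono (h : Ge V x P) (hPQ : P ≤ Q) : Ge V x Q :=
  h.imp id fun ⟨a, ha, hxa⟩ => ⟨a, hPQ ha, hxa⟩

theorem gt_mono (h : Gt V x P) (hPQ : P ≤ Q) : Gt V x Q :=
  h.imp id fun ⟨a, ha, hxa⟩ => ⟨a, hPQ ha, hxa⟩

theorem cl_mono (hPQ : P ≤ Q) : cl P ≤ cl Q := fun _ hf V hV => ge_mono (hf V hV) hPQ

theorem ge_mul (hx : Ge V x P) (hy : Ge V y Q) : Ge V (x * y) (P * Q) := by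
  rcases hx with rfl | ⟨a, ha, hxa⟩
  · exact Or.inl (zero_mul _)
  rcases hy with rfl | ⟨b, hb, hyb⟩
  · exact Or.inl (mul_zero _)
  refine Or.inr ⟨a * b, Submodule.mul_mem_mul ha hb, ?_⟩
  rw [map_mul, map_mul]
  exact mul_le_mul' hxa hyb

theorem gt_mul_ge (hx : Gt V x P) (hy : Ge V y Q) : Gt V (x * y) (P * Q) := by
  rcases hx with rfl | ⟨a, ha, hxa⟩
  · exact Or.inl (zero_mul _)
  rcases eq_or_ne y 0 with rfl | hy0
  · exact Or.inl (mul_zero _)
  rcases hy with rfl | ⟨b, hb, hyb⟩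
  · exact absurd rfl hy0
  refine Or.inr ⟨a * b, Submodule.mul_mem_mul ha hb, ?_⟩
  have h0 : V.valuation y ≠ 0 := (Valuation.ne_zero_iff _).2 hy0
  rw [map_mul, map_mul]
  exact (mul_lt_mul_of_pos_right hxa (zero_lt_iff.2 h0)).trans_le (mul_le_mul_right hyb _)

theorem mul_mem_cl (hx : x ∈ cl P) (hy : y ∈ cl Q) : x * y ∈ cl (P * Q) := fun V hV =>
  ge_mul (hx V hV) (hy V hV)

end Basic

/-! ### Row T -/

theorem _root_.Pool.Agent.TG9.tStmt (hcl : ∀ P : Submodule k K, P.FG → (cl P).FG) (n : ℕ) : TStmt k K n := by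
  intro _ _ q L hL _ M t i W W' hW hW' f hf hqf hmax hinc
  have hWL : (W' * L) ≤ (W * L) := mul_le_mul' hW' le_rfl
  have hW'fg : W'.FG := by
    have : FiniteDimensional k W := Module.Finite.iff_fg.2 hW
    exact Module.Finite.iff_fg.1 (Submodule.finiteDimensional_of_le hW')
  set E := cl ((W * L) ^ (t * i)) with hE
  set E' := cl ((W' * L) ^ (t * i)) with hE'
  set A := cl (L ^ (M * t * i)) with hA
  have hE'E : E' ≤ E := cl_mono (pow_le_pow_left' hWL _)
  have hEfd : FiniteDimensional k E := Module.Finite.iff_fg.2 (hcl _ ((hW.mul hL).pow _))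
  have hE'fd : FiniteDimensional k E' := Submodule.finiteDimensional_of_le hE'E
  have hAfd : FiniteDimensional k A := Module.Finite.iff_fg.2 (hcl _ (hL.pow _))
  have hrmE : ∀ Q : K, rm L (W * L) M t i Q = E ⊓ smulK Q A := fun Q => rfl
  have hrmE' : ∀ Q : K, rm L (W' * L) M t i Q = E' ⊓ smulK Q A := fun Q => rfl
  have hfd1 : FiniteDimensional k (E ⊓ smulK (q f) A : Submodule k K) :=
    Submodule.finiteDimensional_of_le inf_le_left
  have hfd2 : FiniteDimensional k (E' ⊓ smulK (q f) A : Submodule k K) :=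
    Submodule.finiteDimensional_of_le inf_le_left
  -- modular law
  have hmod := Submodule.finrank_sup_add_finrank_inf_eq E' (E ⊓ smulK (q f) A)
  have hinf : E' ⊓ (E ⊓ smulK (q f) A) = E' ⊓ smulK (q f) A := by
    rw [← inf_assoc, inf_eq_left.2 hE'E]
  rw [hinf] at hmod
  have hle1 : finrank k (E' ⊔ E ⊓ smulK (q f) A : Submodule k K) ≤ finrank k E :=
    Submodule.finrank_mono (sup_le hE'E inf_le_left)
  have hle2 : finrank k (E ⊓ smulK (q f) A : Submodule k K) ≤
      finrank k (E' ⊔ E ⊓ smulK (q f) A : Submodule k K) := by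
    have : FiniteDimensional k (E' ⊔ E ⊓ smulK (q f) A : Submodule k K) :=
      Submodule.finiteDimensional_of_le (sup_le hE'E inf_le_left)
    exact Submodule.finrank_mono le_sup_right
  have hle3 : finrank k (E' ⊓ smulK (q f) A : Submodule k K) ≤ finrank k E' :=
    Submodule.finrank_mono inf_le_left
  rw [hmax, hrmE]
  have key : Ti q L (W' * L) M t i ≤
      finrank k E' - finrank k (E' ⊓ smulK (q f) A : Submodule k K) := by
    refine csSup_le' ?_
    rintro d ⟨g, hg, hqg, rfl⟩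
    rw [hrmE', ← hE']
    refine Nat.sub_le_sub_left ?_ _
    -- multiplication by `q g / q f`
    have hfd3 : FiniteDimensional k (E' ⊓ smulK (q g) A : Submodule k K) :=
      Submodule.finiteDimensional_of_le inf_le_left
    have h1 : smulK (q g / q f) (E' ⊓ smulK (q f) A) ≤ E' ⊓ smulK (q g) A := by
      rintro _ ⟨_, ⟨hy, b, hb, rfl⟩, rfl⟩
      have h2 : LinearMap.mulLeft k (q g / q f) (LinearMap.mulLeft k (q f) b) = q g * b := by
        rw [LinearMap.mulLeft_apply, LinearMap.mulLeft_apply]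
        field_simp
      rw [h2]
      exact ⟨hinc g hg hqg b hb hy, b, hb, rfl⟩
    have h2 := Submodule.finrank_mono h1
    rwa [finrank_smulK (div_ne_zero hqg hqf)] at h2
  omega

/-! ### Row START -/

theorem _root_.Pool.Agent.TG9.startStmt (hcl : ∀ P : Submodule k K, P.FG → (cl P).FG) (n : ℕ) : StartStmt k K n := by
  intro _ _ L c τ c' q D m t hcm hc'm ht N
  have h1 := D.one
  have hmod : IsModel L := ⟨D.fg, fun h => by
    rw [h, Submodule.mem_bot] at h1
    exact one_ne_zero h1⟩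
  have hH : ∀ i : ℕ, (L ^ m * L) ^ i = L ^ ((m + 1) * i) := fun i => by
    rw [← pow_succ, ← pow_mul]
  have hfd : ∀ s : ℕ, FiniteDimensional k (cl (L ^ s)) := fun s =>
    Module.Finite.iff_fg.2 (hcl _ (D.fg.pow s))
  have hmono : ∀ {a b : ℕ}, a ≤ b → finrank k (cl (L ^ a)) ≤ finrank k (cl (L ^ b)) :=
    fun {a b} hab => Submodule.finrank_mono (cl_mono (pow_mono_of_one_mem h1 hab))
  have hclmono : ∀ {a b : ℕ}, a ≤ b → cl (L ^ a) ≤ cl (L ^ b) :=
    fun {a b} hab => cl_mono (pow_mono_of_one_mem h1 hab)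
  set b : ℕ → ℕ := fun i => finrank k (cl (L ^ ((m + 1) * i))) with hb
  have hbm : Monotone b := fun i j hij => hmono (Nat.mul_le_mul_left _ hij)
  set b' : ℕ → ℕ := fun i => finrank k (cl (L ^ ((m + 1) * t * i))) with hb'
  have hb'm : Monotone b' := fun i j hij => hmono (Nat.mul_le_mul_left _ hij)
  have hbb : b N ≤ b' N := hmono (by nlinarith [Nat.mul_le_mul_left ((m + 1) * N) ht])
  -- the Jacobian
  have hr : ∀ i, Ti q L (L ^ m * L) (m + 1) t i ≤
      b' i - (if n + 2 ≤ i then b' (i - (n + 2)) else 0) := by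
    intro i
    have hHt : (L ^ m * L) ^ (t * i) = L ^ ((m + 1) * t * i) := by rw [hH, mul_assoc]
    refine csSup_le' ?_
    rintro d ⟨g, hg, hqg, rfl⟩
    unfold rm
    rw [hHt]
    refine Nat.sub_le_sub_left ?_ _
    split_ifs with hi
    · have h2 : smulK (q g) (cl (L ^ ((m + 1) * t * (i - (n + 2))))) ≤
          cl (L ^ ((m + 1) * t * i)) ⊓ smulK (q g) (cl (L ^ ((m + 1) * t * i))) := by
        rintro _ ⟨y, hy, rfl⟩
        refine ⟨?_, y, hclmono (Nat.mul_le_mul_left _ (Nat.sub_le _ _)) hy, rfl⟩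
        have h3 : q g ∈ L ^ ((n + 1) * ((m + 1) * t) + c') := D.q_mem ((m + 1) * t) g fun j => by
          rw [← hH]
          exact hg j
        have h4 := mul_mem_cl (le_cl _ h3) hy
        rw [← pow_add] at h4
        refine hclmono ?_ h4
        obtain ⟨s, rfl⟩ := Nat.exists_eq_add_of_le hi
        rw [Nat.add_sub_cancel_left]
        have h5 : m + 1 ≤ (m + 1) * t := Nat.le_mul_of_pos_right _ ht
        nlinarith
      have h5 : FiniteDimensional k
          (cl (L ^ ((m + 1) * t * i)) ⊓ smulK (q g) (cl (L ^ ((m + 1) * t * i))) :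
            Submodule k K) := by
        have := hfd ((m + 1) * t * i)
        exact Submodule.finiteDimensional_of_le inf_le_left
      have h6 := Submodule.finrank_mono h2
      rw [finrank_smulK hqg] at h6
      exact h6
    · exact Nat.zero_le _
  -- the boundary
  have hB : ∀ i, Bi L (c + m) τ (L ^ m) i ≤ b i - (if 1 ≤ i then b (i - 1) else 0) := by
    intro i
    unfold Bi
    rw [hH]
    refine Nat.sub_le_sub_left ?_ _
    split_ifs with hi
    · obtain ⟨s, rfl⟩ := Nat.exists_eq_add_of_le' hi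
      rw [Nat.add_sub_cancel]
      have h2 : smulK τ (cl (L ^ ((m + 1) * s))) ≤ bd L (c + m) τ (L ^ m) (s + 1) := by
        rintro _ ⟨y, hy, rfl⟩
        have hle : c + (m + 1) * s ≤ (m + 1) * (s + 1) := by nlinarith
        have hmem : L ^ (c + (m + 1) * s) ≤ (L ^ m * L) ^ (s + 1) := by
          rw [hH]
          exact pow_mono_of_one_mem h1 hle
        refine ⟨?_, fun V hV => ?_⟩
        · have h4 := mul_mem_cl (le_cl _ D.τ_mem) hy
          rw [← pow_add] at h4
          exact cl_mono hmem h4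
        · have h5 : Gt V τ (L ^ c) := by
            obtain ⟨l, hl⟩ := TG.exists_isMin hV.1 hmod
            have hl0 : V.valuation l ≠ 0 := (Valuation.ne_zero_iff _).2 hl.ne
            have hle' : ∀ (s : ℕ) (z : K), z ∈ L ^ s → V.valuation z ≤ V.valuation l ^ s := by
              intro s z hz
              have h3 := (hl.pow hV.1 s).div z hz
              rw [← V.valuation_le_one_iff, map_div₀, map_pow] at h3
              exact (div_le_one₀ (zero_lt_iff.2 (pow_ne_zero s hl0))).1 h3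
            refine Or.inr ⟨l ^ c, Submodule.pow_mem_pow L hl.mem c, ?_⟩
            rcases hV.2 (l ^ m) (Submodule.pow_mem_pow L hl.mem m) with h6 | ⟨z, hz, hlt⟩
            · exact absurd h6 (mul_ne_zero D.τ_ne (pow_ne_zero _ hl.ne))
            · have h7 := hlt.trans_le (hle' _ z hz)
              rw [map_mul, map_pow, pow_add] at h7
              rw [map_pow]
              exact lt_of_mul_lt_mul_right' h7
          have h6 := gt_mul_ge h5 (hy V hV.1)
          rw [← pow_add] at h6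
          exact gt_mono h6 hmem
      have h5 : FiniteDimensional k (bd L (c + m) τ (L ^ m) (s + 1)) := by
        have h6 : FiniteDimensional k (cl ((L ^ m * L) ^ (s + 1))) := by
          rw [hH]; exact hfd _
        exact Submodule.finiteDimensional_of_le (fun _ h => h.1)
      have h6 := Submodule.finrank_mono h2
      rw [finrank_smulK D.τ_ne] at h6
      exact h6
    · exact Nat.zero_le _
  have hr' : ∑ i ∈ Finset.range N, Ti q L (L ^ m * L) (m + 1) t i ≤ (n + 2) * b' N :=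
    (Finset.sum_le_sum fun i _ => hr i).trans (sum_shift b' hb'm (n + 2) N)
  have hB' : ∑ i ∈ Finset.range N, Bi L (c + m) τ (L ^ m) i ≤ 1 * b N :=
    (Finset.sum_le_sum fun i _ => hB i).trans (sum_shift b hbm 1 N)
  unfold Phi
  rw [hH, Finset.sum_add_distrib]
  have e1 : finrank k (cl (L ^ ((m + 1) * N))) = b N := rfl
  have e2 : finrank k (cl (L ^ ((m + 1) * t * N))) = b' N := rfl
  rw [e1, e2]
  nlinarith [hr', hB', hbb]

/-! ### Row CHOICE -/

/-- The subspace of minimal dimension. -/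
theorem exists_choice (S₀ : Submodule k K) [FiniteDimensional k S₀]
    (F : Submodule k K → ℕ → ℕ) (A C : ℕ → ℕ) (hF : ∀ᶠ t in atTop, F S₀ t ≤ A t)
    (hA : ∀ᶠ t in atTop, A t < C t * finrank k S₀) (hC : ∀ᶠ t in atTop, 0 < C t) :
    ∃ W : Submodule k K, W ≤ S₀ ∧ W ≠ ⊥ ∧ ∀ W' : Submodule k K, W' ≤ W →
      finrank k W ≤ finrank k W' + 1 → ∃ᶠ t in atTop, F W t < F W' t + C t := by
  classical
  set P : Submodule k K → Prop := fun W => W ≤ S₀ ∧ ∃ᶠ t in atTop,
    F W t + C t * (finrank k S₀ - finrank k W) ≤ F S₀ t with hP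
  have hP0 : P S₀ := ⟨le_rfl, (Eventually.of_forall fun t => by
    rw [Nat.sub_self, mul_zero, add_zero]).frequently⟩
  have hex : ∃ d : ℕ, ∃ W : Submodule k K, P W ∧ finrank k W = d := ⟨_, S₀, hP0, rfl⟩
  obtain ⟨W, hW, hWd⟩ := Nat.find_spec hex
  have hmin : ∀ W' : Submodule k K, P W' → finrank k W ≤ finrank k W' := by
    intro W' hW'
    rw [hWd]
    exact Nat.find_min' hex ⟨W', hW', rfl⟩
  refine ⟨W, hW.1, ?_, ?_⟩
  · rintro rfl
    obtain ⟨t, h1, h2, h3⟩ := (hW.2.and_eventually (hF.and hA)).exists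
    rw [finrank_bot, Nat.sub_zero] at h1
    have := h1.trans h2
    omega
  · intro W' hle hrk
    have hWfd : FiniteDimensional k W := Submodule.finiteDimensional_of_le hW.1
    rcases eq_or_ne W' W with rfl | hne
    · exact (hC.mono fun t ht => by omega).frequently
    have hlt : finrank k W' < finrank k W := Submodule.finrank_lt_finrank_of_lt
      (lt_of_le_of_ne hle hne)
    have hnot : ¬ P W' := by
      intro h
      have := hmin W' h
      omega
    have hnot2 : ∀ᶠ t in atTop, F S₀ t <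
        F W' t + C t * (finrank k S₀ - finrank k W') := by
      have h1 : ¬ ∃ᶠ t in atTop,
          F W' t + C t * (finrank k S₀ - finrank k W') ≤ F S₀ t :=
        fun h => hnot ⟨hle.trans hW.1, h⟩
      rw [not_frequently] at h1
      exact h1.mono fun t ht => not_le.1 ht
    refine (hW.2.and_eventually hnot2).mono fun t ht => ?_
    obtain ⟨h1, h2⟩ := ht
    have hd : finrank k W ≤ finrank k S₀ := Submodule.finrank_mono hW.1
    have h3 : finrank k S₀ - finrank k W' = (finrank k S₀ - finrank k W) + 1 := by omega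
    rw [h3, mul_add, mul_one] at h2
    omega

/-- The start, with a second function `a ≤ a₀ (· + s₀)`. -/
theorem exists_start (n : ℕ) (a₀ a : ℕ → ℕ) (s₀ : ℕ) {c₁ c₂ : ℝ} (h1 : 0 < c₁)
    (ha : ∀ᶠ s : ℕ in atTop, c₁ * (s : ℝ) ^ n ≤ a₀ s ∧ (a₀ s : ℝ) ≤ c₂ * (s : ℝ) ^ n)
    (hs : ∀ s, a s ≤ a₀ (s + s₀)) (m₀ : ℕ) :
    ∃ m : ℕ, m₀ ≤ m ∧ ∀ᶠ t in atTop, (n + 5) * a ((m + 1) * t) < (n + 6) * a₀ m * t ^ n := by
  have hδ3 : ∃ δ : ℝ, 0 < δ ∧ δ < 1 ∧
      ((n : ℝ) + 5) * ((1 + δ) * (1 + δ) * (1 + δ)) < ((n : ℝ) + 6) * (1 - δ) := by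
    have hn : (0 : ℝ) ≤ n := Nat.cast_nonneg n
    set N : ℝ := (n : ℝ) + 6 with hN
    have hN6 : 6 ≤ N := by rw [hN]; linarith
    have h5 : (n : ℝ) + 5 = N - 1 := by rw [hN]; ring
    refine ⟨1 / (8 * N), by positivity, ?_, ?_⟩
    · rw [div_lt_one (by positivity)]
      linarith
    · rw [h5]
      have hd : 0 < 1 / (8 * N) := by positivity
      have hdN : 1 / (8 * N) * N = 1 / 8 := by
        field_simp
      set d := 1 / (8 * N) with hdd
      have hd1 : d ≤ 1 / 48 := by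
        rw [hdd]
        apply one_div_le_one_div_of_le (by norm_num)
        linarith
      have h6 : (1 + d) * (1 + d) * (1 + d) ≤ 1 + 4 * d := by nlinarith [mul_pos hd hd]
      have h7 : (N - 1) * ((1 + d) * (1 + d) * (1 + d)) ≤ (N - 1) * (1 + 4 * d) :=
        mul_le_mul_of_nonneg_left h6 (by linarith)
      nlinarith
  obtain ⟨δ, hδ, hδ1, hδ2⟩ := hδ3
  obtain ⟨Λ, hΛ, hup, hlow⟩ := TG15n.exists_limsup_bounds
    (fun s : ℕ => (a₀ s : ℝ) / (s : ℝ) ^ n) h1
    (c₂ := c₂) (by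
      filter_upwards [ha, eventually_gt_atTop 0] with s hs hs0
      have hs' : (0 : ℝ) < (s : ℝ) ^ n := by positivity
      exact ⟨(le_div_iff₀ hs').2 hs.1, (div_le_iff₀ hs').2 hs.2⟩) hδ
  obtain ⟨m, ⟨⟨hm1, hm2⟩, hm0⟩, hmm⟩ :=
    ((hlow.and_eventually (TG15n.eventually_pow n hδ)).and_eventually
    (eventually_gt_atTop 0)).and_eventually (eventually_ge_atTop m₀) |>.exists
  refine ⟨m, hmm, ?_⟩
  have hm' : (0 : ℝ) < m := Nat.cast_pos.2 hm0
  have hmn : (0 : ℝ) < (m : ℝ) ^ n := by positivity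
  have ht : Tendsto (fun t : ℕ => (m + 1) * t) atTop atTop :=
    tendsto_id.const_mul_atTop' (Nat.succ_pos m)
  have ht2 : Tendsto (fun t : ℕ => (m + 1) * t + s₀) atTop atTop :=
    tendsto_atTop_mono (fun t => Nat.le_add_right _ _) ht
  -- `(s + s₀)^n ≤ (1 + δ) s^n`
  have hshift : ∀ᶠ s : ℕ in atTop, ((s : ℝ) + s₀) ^ n ≤ (1 + δ) * (s : ℝ) ^ n := by
    have h1 : Tendsto (fun s : ℕ => (1 + (s₀ : ℝ) / (s : ℝ)) ^ n) atTop (nhds ((1 + 0) ^ n)) :=
      (tendsto_const_nhds.add (tendsto_const_div_atTop_nhds_zero_nat _)).pow n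
    rw [add_zero, one_pow] at h1
    have h2 : ∀ᶠ s : ℕ in atTop, (1 + (s₀ : ℝ) / (s : ℝ)) ^ n < 1 + δ :=
      h1.eventually (gt_mem_nhds (by linarith))
    filter_upwards [h2, eventually_gt_atTop 0] with s hs hs0
    have hs' : (0 : ℝ) < s := Nat.cast_pos.2 hs0
    have h3 : ((s : ℝ) + s₀) ^ n = (1 + (s₀ : ℝ) / (s : ℝ)) ^ n * (s : ℝ) ^ n := by
      rw [← mul_pow]
      congr 1
      field_simp
    rw [h3]
    exact mul_le_mul_of_nonneg_right hs.le (by positivity)
  filter_upwards [ht2.eventually hup, ht.eventually hshift, eventually_gt_atTop 0] with t ht1 ht3 ht0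
  have ht' : (0 : ℝ) < (t : ℝ) ^ n := by positivity
  have hmt : (0 : ℝ) < (((m + 1) * t + s₀ : ℕ) : ℝ) ^ n := by positivity
  have h3 : (a₀ ((m + 1) * t + s₀) : ℝ) < Λ * (1 + δ) * (((m + 1) * t + s₀ : ℕ) : ℝ) ^ n := by
    exact (div_lt_iff₀ hmt).1 ht1
  have h4 : Λ * (1 - δ) * (m : ℝ) ^ n < a₀ m := by
    exact (lt_div_iff₀ hmn).1 hm1
  have h5 : (((m + 1) * t + s₀ : ℕ) : ℝ) ^ n ≤ (1 + δ) * (((m : ℝ) + 1) ^ n * (t : ℝ) ^ n) := by
    have h6 : (((m + 1) * t : ℕ) : ℝ) ^ n = ((m : ℝ) + 1) ^ n * (t : ℝ) ^ n := by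
      push_cast
      rw [mul_pow]
    rw [← h6]
    push_cast at ht3 ⊢
    exact ht3
  have h7 : (a ((m + 1) * t) : ℝ) ≤ a₀ ((m + 1) * t + s₀) := by
    exact_mod_cast hs ((m + 1) * t)
  have hc : ((n + 5 : ℕ) : ℝ) * a ((m + 1) * t) < ((n + 6 : ℕ) : ℝ) * a₀ m * (t : ℝ) ^ n := by
    have hn5 : (0 : ℝ) ≤ ((n + 5 : ℕ) : ℝ) := Nat.cast_nonneg _
    have hΛδ : 0 ≤ Λ * (1 + δ) := by positivity
    calc ((n + 5 : ℕ) : ℝ) * a ((m + 1) * t)
        ≤ ((n + 5 : ℕ) : ℝ) * (Λ * (1 + δ) * (((m + 1) * t + s₀ : ℕ) : ℝ) ^ n) :=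
          mul_le_mul_of_nonneg_left (h7.trans h3.le) hn5
      _ ≤ ((n + 5 : ℕ) : ℝ) * (Λ * (1 + δ) * ((1 + δ) * (((m : ℝ) + 1) ^ n * (t : ℝ) ^ n))) :=
          mul_le_mul_of_nonneg_left (mul_le_mul_of_nonneg_left h5 hΛδ) hn5
      _ ≤ ((n + 5 : ℕ) : ℝ) *
            (Λ * (1 + δ) * ((1 + δ) * (((1 + δ) * (m : ℝ) ^ n) * (t : ℝ) ^ n))) := by
          gcongr
      _ = (((n : ℝ) + 5) * ((1 + δ) * (1 + δ) * (1 + δ))) * (Λ * (m : ℝ) ^ n * (t : ℝ) ^ n) := by
          push_cast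
          ring
      _ ≤ (((n : ℝ) + 6) * (1 - δ)) * (Λ * (m : ℝ) ^ n * (t : ℝ) ^ n) :=
          mul_le_mul_of_nonneg_right hδ2.le (by positivity)
      _ = ((n + 6 : ℕ) : ℝ) * (Λ * (1 - δ) * (m : ℝ) ^ n) * (t : ℝ) ^ n := by
          push_cast
          ring
      _ < ((n + 6 : ℕ) : ℝ) * a₀ m * (t : ℝ) ^ n := by
          have h6 : (0 : ℝ) < ((n + 6 : ℕ) : ℝ) := by positivity
          exact mul_lt_mul_of_pos_right (mul_lt_mul_of_pos_left h4 h6) ht'
  exact_mod_cast hc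

theorem _root_.Pool.Agent.TG9.choiceStmt (hcl : ClStmt k K) (n : ℕ) : ChoiceStmt k K n := by
  intro hk hfg hn hn0 L c τ c' q D t ht
  obtain ⟨hcl1, hcl2⟩ := hcl hk hfg
  obtain ⟨s₀, e, he, hs⟩ := hcl2 L D.fg D.one D.bir
  obtain ⟨c₁, c₂, hc1, hgr⟩ := TG15.growth hn D.fg D.one D.bir
  have hfd : ∀ s : ℕ, FiniteDimensional k (L ^ s : Submodule k K) := fun s =>
    Module.Finite.iff_fg.2 (D.fg.pow s)
  have hsh : ∀ s, finrank k (cl (L ^ s)) ≤ finrank k (L ^ (s + s₀) : Submodule k K) := by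
    intro s
    have h1 : smulK e (cl (L ^ s)) ≤ L ^ (s + s₀) := by
      rintro _ ⟨y, hy, rfl⟩
      exact hs s y hy
    have h2 := Submodule.finrank_mono h1
    rwa [finrank_smulK he] at h2
  obtain ⟨m, hm, hstart⟩ := exists_start n (fun s => finrank k (L ^ s : Submodule k K))
    (fun s => finrank k (cl (L ^ s))) s₀ hc1 hgr hsh (max c c')
  have hcm : c ≤ m := (le_max_left _ _).trans hm
  have hc'm : c' ≤ m := (le_max_right _ _).trans hm
  refine ⟨m, hcm, hc'm, ?_⟩
  have hfdm := hfd m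
  have htt : Tendsto (fun N : ℕ => t * N) atTop atTop := tendsto_id.const_mul_atTop' ht
  refine exists_choice (L ^ m) (fun W N => Phi q L (m + 1) (c + m) τ t W N)
    (fun N => (n + 5) * finrank k (cl (L ^ ((m + 1) * t * N)))) (fun N => C9 n t * N ^ n)
    (Eventually.of_forall fun N => startStmt hcl1 n hk hfg L c τ c' q D m t hcm hc'm ht N) ?_ ?_
  · filter_upwards [htt.eventually hstart] with N hN
    rw [mul_assoc (m + 1) t N]
    refine hN.trans_le (le_of_eq ?_)
    unfold C9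
    rw [mul_pow]
    ring
  · filter_upwards [eventually_gt_atTop 0] with N hN
    unfold C9
    positivity

end Pool.Agent.TG9.H57
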