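import Pool.Agent.Lib.TG9.Defs5
import Pool.Agent.Lib.TG_h81.ProjP
import Pool.Agent.Lib.TG_h68.Cl
import Pool.Agent.Lib.TG9.TSC

/-!
# TANK G, BC9: lemmas for `DegStmt`
-/

set_option autoImplicit false

namespace Pool.Agent.TG9

open Pool.Agent.TG (Ov ZDim IsMin IsModel Bir ch chN comap_lt_one exists_comap_eq)
open Pool.Agent.LU2 (locV)
open Pool.Agent.TG15 (Gt Tp hx smulK)
open Module Filter MvPolynomial

universe u

section Hom

variable {k E : Type u} [Field k] [Field E] [Algebra k E]

/-- Homogeneity. -/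
theorem aeval_smul_of_hom {σ : Type*} {g : MvPolynomial σ k} {s : ℕ} (hg : g.IsHomogeneous s)
    (c : E) (y : σ → E) : aeval (fun a => c * y a) g = c ^ s * aeval y g := by
  rw [aeval_def, aeval_def, eval₂_eq, eval₂_eq, Finset.mul_sum]
  refine Finset.sum_congr rfl fun d hd => ?_
  have h1 : ∏ i ∈ d.support, (c * y i) ^ d i = c ^ s * ∏ i ∈ d.support, y i ^ d i := by
    rw [Finset.prod_congr rfl fun i _ => mul_pow c (y i) (d i), Finset.prod_mul_distrib,
      Finset.prod_pow_eq_pow_sum]
    congr 2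
    exact (hg.degree_eq_sum_deg_support hd).symm
  rw [h1]
  ring

theorem aeval_div_of_hom {σ : Type*} {g : MvPolynomial σ k} {s : ℕ} (hg : g.IsHomogeneous s)
    {c : E} (hc : c ≠ 0) (y : σ → E) : aeval y g = c ^ s * aeval (fun a => y a / c) g := by
  have h1 : (fun a => c * (y a / c)) = y := funext fun a => mul_div_cancel₀ _ hc
  rw [← aeval_smul_of_hom hg, h1]

theorem aeval_mem_of {σ : Type*} (V : ValuationSubring E) (hV : Ov k V) {y : σ → E}
    (hy : ∀ a, y a ∈ V) (g : MvPolynomial σ k) : aeval y g ∈ V := by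
  induction g using MvPolynomial.induction_on with
  | C c => rw [aeval_C]; exact hV c
  | add p q hp hq => rw [map_add]; exact V.add_mem _ _ hp hq
  | mul_X p i hp => rw [map_mul, aeval_X]; exact V.mul_mem _ _ hp (hy i)

/-- Value of a form at a point where `y a₀` is minimal. -/
theorem val_form_le {σ : Type*} (V : ValuationSubring E) (hV : Ov k V) {y : σ → E} {a₀ : σ}
    (h0 : y a₀ ≠ 0) (hy : ∀ a, y a / y a₀ ∈ V) {g : MvPolynomial σ k} {s : ℕ}
    (hg : g.IsHomogeneous s) : V.valuation (aeval y g) ≤ V.valuation (y a₀) ^ s := by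
  rw [aeval_div_of_hom hg h0, map_mul, map_pow]
  exact mul_le_of_le_one_right' ((V.valuation_le_one_iff _).2 (aeval_mem_of V hV hy g))

end Hom

section Alg

variable {k κ M : Type u} [Field k] [Field κ] [Algebra k κ] [Field M] [Algebra k M]
  [Algebra M κ] [IsScalarTower k M κ]

theorem comap_val_le (B : ValuationSubring κ) (x y : M) :
    (B.comap (algebraMap M κ)).valuation x ≤ (B.comap (algebraMap M κ)).valuation y ↔
      B.valuation (algebraMap M κ x) ≤ B.valuation (algebraMap M κ y) := by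
  by_cases hy : y = 0
  · subst hy
    rw [map_zero, map_zero, map_zero]
    constructor
    · intro h
      rw [(map_eq_zero _).1 (le_antisymm h zero_le'), map_zero, map_zero]
    · intro h
      have h1 := (map_eq_zero _).1 (le_antisymm h zero_le')
      rw [(map_eq_zero _).1 h1, map_zero]
  have hy' : algebraMap M κ y ≠ 0 := (map_ne_zero _).2 hy
  have h1 := ValuationSubring.valuation_le_one_iff (B.comap (algebraMap M κ)) (x / y)
  have h2 := ValuationSubring.valuation_le_one_iff B (algebraMap M κ x / algebraMap M κ y)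
  rw [map_div₀, div_le_one₀ (zero_lt_iff.2 ((Valuation.ne_zero_iff _).2 hy))] at h1
  rw [map_div₀, div_le_one₀ (zero_lt_iff.2 ((Valuation.ne_zero_iff _).2 hy'))] at h2
  rw [h1, h2, ← map_div₀]
  exact Iff.rfl

/-- Zero-dimensional valuation rings stay zero-dimensional in radical extensions. -/
theorem zdim_of_comap [IsAlgClosed k] (hM : ∀ x : κ, ∃ q : ℕ, 0 < q ∧ ∃ y : M,
    algebraMap M κ y = x ^ q) {B : ValuationSubring κ} (hB : ZDim k (B.comap (algebraMap M κ))) :
    ZDim k B := by
  have hov : Ov k B := fun c => by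
    have h1 : algebraMap M κ (algebraMap k M c) ∈ B := hB.ov c
    rwa [← IsScalarTower.algebraMap_apply] at h1
  refine ⟨hov, fun x hx => ?_⟩
  obtain ⟨q, hq, y, hy⟩ := hM x
  have hyB : y ∈ B.comap (algebraMap M κ) := by
    change algebraMap M κ y ∈ B
    rw [hy]
    exact pow_mem hx q
  obtain ⟨c, hc⟩ := hB.res y hyB
  rw [comap_lt_one, map_sub, hy, ← IsScalarTower.algebraMap_apply] at hc
  obtain ⟨e, he⟩ := IsAlgClosed.exists_pow_nat_eq c hq
  -- `x ^ q - e ^ q` is the product of the `x - ζ e`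
  let P : Polynomial k := Polynomial.X ^ q - Polynomial.C c
  have hP : P.Monic := Polynomial.monic_X_pow_sub_C c hq.ne'
  have hs : P.Splits := IsAlgClosed.splits P
  have h1 : Polynomial.aeval x P = x ^ q - algebraMap k κ c := by
    simp [P]
  have h2 : Polynomial.aeval x P = (P.roots.map fun a => x - algebraMap k κ a).prod := by
    conv_lhs => rw [hs.eq_prod_roots_of_monic hP]
    rw [map_multiset_prod, Multiset.map_map]
    congr 1
    refine Multiset.map_congr rfl fun a _ => ?_
    simp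
  by_contra hcon
  push Not at hcon
  have h3 : ∀ a : k, B.valuation (x - algebraMap k κ a) = 1 := fun a =>
    le_antisymm ((B.valuation_le_one_iff _).2 (sub_mem hx (hov a))) (hcon a)
  have h4 : B.valuation (Polynomial.aeval x P) = 1 := by
    rw [h2, map_multiset_prod, Multiset.map_map]
    refine Multiset.prod_eq_one fun z hz => ?_
    obtain ⟨a, _, rfl⟩ := Multiset.mem_map.1 hz
    exact h3 a
  rw [h1] at h4
  exact hc.ne h4

/-- A refinement of a valuation ring with a rational centre has the same centre. -/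
theorem SameC.refine {S : Set M} {A B B' : ValuationSubring M} (hA : ZDim k A)
    (hS : ∀ b : M, IsIntegral (Algebra.adjoin k S) b → b ∈ A)
    (h : SameC k S A B) (hle : B' ≤ B) (hB' : ZDim k B') : SameC k S A B' := by
  refine ⟨hB'.ov, fun b hb => ?_⟩
  obtain ⟨c, hc⟩ := hA.res b (hS b hb)
  have hint : ∀ c : k, IsIntegral (Algebra.adjoin k S) (b - algebraMap k M c) := fun c => by
    refine hb.sub ?_
    have h1 : algebraMap k M c = algebraMap (Algebra.adjoin k S) M
        (algebraMap k (Algebra.adjoin k S) c) := rfl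
    rw [h1]
    exact isIntegral_algebraMap
  have h1 : B.valuation (b - algebraMap k M c) < 1 := ((h.2 _ (hint c)).2).1 hc
  have h2 : B'.valuation (b - algebraMap k M c) < 1 :=
    Pool.Agent.LU2.val_lt_one_of_le hle h1
  have hbB : b ∈ B' := by
    have h3 : b = (b - algebraMap k M c) + algebraMap k M c := by ring
    rw [h3]
    exact B'.add_mem _ _ ((B'.valuation_le_one_iff _).1 h2.le) (hB'.ov c)
  refine ⟨hbB, ?_⟩
  constructor
  · intro h3
    exact Pool.Agent.LU2.val_lt_one_of_le hle (((h.2 _ hb).2).1 h3)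
  · intro h3
    -- then `c = 0`
    have h4 : B'.valuation (algebraMap k M c) < 1 := by
      have h5 : algebraMap k M c = b - (b - algebraMap k M c) := by ring
      rw [h5]
      exact Valuation.map_sub_lt _ h3 h2
    have hc0 : c = 0 := by
      by_contra hc0
      have h5 : B'.valuation (algebraMap k M c) = 1 := by
        refine le_antisymm ((B'.valuation_le_one_iff _).2 (hB'.ov c)) ?_
        have h6 := (B'.valuation_le_one_iff _).2 (hB'.ov c⁻¹)
        rw [map_inv₀, map_inv₀] at h6
        have h7 : B'.valuation (algebraMap k M c) ≠ 0 :=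
          (Valuation.ne_zero_iff _).2 ((map_ne_zero _).2 hc0)
        exact (inv_le_one₀ (zero_lt_iff.2 h7)).1 h6
      exact h4.ne h5
    rw [hc0, map_zero, sub_zero] at hc
    exact hc

end Alg

section Phi

variable {k K κ : Type u} [Field k] [Field K] [Algebra k K] [Field κ] [Algebra k κ]
  {v : ValuationSubring K} {φ : v →+* κ}

theorem phi_aeval {σ : Type*} (hv : Ov k v)
    (hk : ∀ c : k, φ ⟨algebraMap k K c, hv c⟩ = algebraMap k κ c) {w : σ → K} {y : σ → κ}
    (hw : ∀ a, ∃ h : w a ∈ v, φ ⟨w a, h⟩ = y a) (g : MvPolynomial σ k) :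
    ∃ h : aeval w g ∈ v, φ ⟨aeval w g, h⟩ = aeval y g := by
  induction g using MvPolynomial.induction_on with
  | C c =>
    have h0 : aeval w (C c) ∈ v := by rw [aeval_C]; exact hv c
    have e : (⟨aeval w (C c), h0⟩ : v) = ⟨algebraMap k K c, hv c⟩ := Subtype.ext (aeval_C _ _)
    exact ⟨h0, by rw [e, hk, aeval_C]⟩
  | add p q hp hq =>
    obtain ⟨h1, h2⟩ := hp
    obtain ⟨h3, h4⟩ := hq
    have h0 : aeval w (p + q) ∈ v := by rw [map_add]; exact v.add_mem _ _ h1 h3
    have e : (⟨aeval w (p + q), h0⟩ : v) = ⟨aeval w p, h1⟩ + ⟨aeval w q, h3⟩ :=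
      Subtype.ext (map_add _ _ _)
    exact ⟨h0, by rw [e, map_add φ, h2, h4, map_add (aeval y)]⟩
  | mul_X p i hp =>
    obtain ⟨h1, h2⟩ := hp
    obtain ⟨h3, h4⟩ := hw i
    have h5 : aeval w (p * X i) = aeval w p * w i := by rw [map_mul, aeval_X]
    have h0 : aeval w (p * X i) ∈ v := by rw [h5]; exact v.mul_mem _ _ h1 h3
    have e : (⟨aeval w (p * X i), h0⟩ : v) = ⟨aeval w p, h1⟩ * ⟨w i, h3⟩ := Subtype.ext h5
    exact ⟨h0, by rw [e, map_mul φ, h2, h4, map_mul (aeval y), aeval_X]⟩

/-- `φ(a / b) = φ(a) / φ(b)`. -/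
theorem phi_div (hφ : IsRes φ) {a b : K} (ha : a ∈ v) (hb : b ∈ v) (hb0 : φ ⟨b, hb⟩ ≠ 0) :
    ∃ h : a / b ∈ v, φ ⟨a / b, h⟩ = φ ⟨a, ha⟩ / φ ⟨b, hb⟩ := by
  have hb1 : v.valuation b = 1 :=
    le_antisymm ((v.valuation_le_one_iff _).2 hb)
      (not_lt.1 fun h => hb0 ((hφ.zero ⟨b, hb⟩).2 h))
  have hb2 : b ≠ 0 := by
    intro h0
    rw [h0, map_zero] at hb1
    exact zero_ne_one hb1
  have h1 : a / b ∈ v := by
    rw [← v.valuation_le_one_iff, map_div₀, hb1, div_one]
    exact (v.valuation_le_one_iff _).2 ha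
  refine ⟨h1, ?_⟩
  rw [eq_div_iff hb0, ← map_mul]
  congr 1
  exact Subtype.ext (div_mul_cancel₀ _ hb2)

end Phi

end Pool.Agent.TG9
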