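import Pool.Agent.Lib.TG9.Defs
import Pool.Agent.Lib.TG15.LemN

/-!
# TANK G, BC9: ROW EB, degree and boundary, for arbitrary `W' ≤ W`
-/

set_option autoImplicit false

namespace Pool.Agent.TG9

open Pool.Agent.TG (Ov ZDim IsMin IsModel Bir ch chN)
open Pool.Agent.TG15 (Gt Tp hx smulK exists_isMin_finset isMin_iff div_mem_iff)
open Module Filter

universe u

variable {k K : Type u} [Field k] [Field K] [Algebra k K]

theorem Ge.mono {V : ValuationSubring K} {x : K} {F G : Submodule k K} (h : Ge V x F)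
    (hFG : F ≤ G) : Ge V x G :=
  h.imp id fun ⟨y, hy, hxy⟩ => ⟨y, hFG hy, hxy⟩

theorem Gt.mono' {V : ValuationSubring K} {x : K} {F G : Submodule k K} (h : Gt V x F)
    (hFG : F ≤ G) : Gt V x G :=
  h.imp id fun ⟨y, hy, hxy⟩ => ⟨y, hFG hy, hxy⟩

theorem cl_mono {P Q : Submodule k K} (h : P ≤ Q) : cl P ≤ cl Q := fun _ hf V hV =>
  (hf V hV).mono h

theorem van_le (P : Submodule k K) (T : ValuationSubring K → Prop) : van P T ≤ cl P :=
  fun _ h => h.1

theorem van_mono (P : Submodule k K) {T T' : ValuationSubring K → Prop} (h : ∀ V, T' V → T V) :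
    van P T ≤ van P T' := fun _ hf => ⟨hf.1, fun V hV => hf.2 V (h V hV)⟩

/-- Finitely many valuation rings are enough. -/
theorem exists_finite_test_van (P : Submodule k K) (hP : (cl P).FG)
    (T : ValuationSubring K → Prop) :
    ∃ S : Finset (ValuationSubring K), (∀ V ∈ S, T V) ∧ van P (· ∈ S) = van P T := by
  classical
  have hfd : FiniteDimensional k (cl P) := Module.Finite.iff_fg.2 hP
  have hfdv : ∀ Q, FiniteDimensional k (van P Q) := fun Q =>
    Submodule.finiteDimensional_of_le (van_le P Q)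
  have hex : ∃ d : ℕ, ∃ S : Finset (ValuationSubring K), (∀ V ∈ S, T V) ∧
      finrank k (van P (· ∈ S)) = d := ⟨_, ∅, by simp, rfl⟩
  obtain ⟨S, hS, hd⟩ := Nat.find_spec hex
  refine ⟨S, hS, le_antisymm (fun f hf => ⟨hf.1, fun V hV => ?_⟩)
    (van_mono P fun V hV => hS V hV)⟩
  have h1 : van P (· ∈ insert V S) ≤ van P (· ∈ S) :=
    van_mono P fun W hW => Finset.mem_insert_of_mem hW
  have h2 : finrank k (van P (· ∈ S)) ≤ finrank k (van P (· ∈ insert V S)) := by
    rw [hd]
    exact Nat.find_min' hex ⟨insert V S, fun W hW => by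
      rcases Finset.mem_insert.1 hW with rfl | hW
      · exact hV
      · exact hS W hW, rfl⟩
  have h3 := Submodule.eq_of_le_of_finrank_le h1 h2
  rw [← h3] at hf
  exact hf.2 V (Finset.mem_insert_self V S)

theorem pow_mul_mem_cl {H P : Submodule k K} {h f : K} (hh : h ∈ H) (hf : f ∈ cl P) (m : ℕ) :
    h ^ m * f ∈ cl (H ^ m * P) := by
  intro V hV
  rcases hf V hV with rfl | ⟨y, hy, hfy⟩
  · exact Or.inl (mul_zero _)
  · refine Or.inr ⟨h ^ m * y, Submodule.mul_mem_mul (Submodule.pow_mem_pow H hh m) hy, ?_⟩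
    rw [map_mul, map_mul]
    exact mul_le_mul_right hfy _

/-- The valuation rings at which the value of `H'` is larger than the value of `H`. -/
def Tn (H H' : Submodule k K) (V : ValuationSubring K) : Prop := Ov k V ∧ ∀ h ∈ H', Gt V h H

/-- One layer. -/
theorem layer [Infinite k] (hcl : ∀ P : Submodule k K, P.FG → (cl P).FG) {H H' : Submodule k K}
    (hH : H.FG) (hHb : H ≠ ⊥) (hle : H' ≤ H) {t i : ℕ} (hi : i < t) :
    finrank k (cl (H ^ (t - (i + 1)) * H' ^ (i + 1))) +
      (finrank k (cl (H' ^ i)) - finrank k (van (H' ^ i) (Tn H H'))) ≤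
    finrank k (cl (H ^ (t - i) * H' ^ i)) := by
  classical
  have hHfin : FiniteDimensional k H := Module.Finite.iff_fg.2 hH
  have hH'fin : FiniteDimensional k H' := Submodule.finiteDimensional_of_le hle
  have hH' : H'.FG := Module.Finite.iff_fg.1 hH'fin
  obtain ⟨S, hS, hSv⟩ := exists_finite_test_van (H' ^ i) (hcl _ (hH'.pow i)) (Tn H H')
  obtain ⟨h, hhH, hh0, hhmin⟩ := exists_isMin_finset (k := k) ⟨hH, hHb⟩ S fun V hV => (hS V hV).1
  rw [← hSv]
  set T := van (H' ^ i) (· ∈ S) with hT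
  have hfi : FiniteDimensional k (cl (H' ^ i)) := Module.Finite.iff_fg.2 (hcl _ (hH'.pow i))
  have hfD : FiniteDimensional k (cl (H ^ (t - i) * H' ^ i)) :=
    Module.Finite.iff_fg.2 (hcl _ ((hH.pow _).mul (hH'.pow _)))
  have hfD' : FiniteDimensional k (cl (H ^ (t - (i + 1)) * H' ^ (i + 1))) :=
    Module.Finite.iff_fg.2 (hcl _ ((hH.pow _).mul (hH'.pow _)))
  -- a complement
  obtain ⟨C', hC'⟩ := Submodule.exists_isCompl (T.comap (cl (H' ^ i)).subtype)
  set C := C'.map (cl (H' ^ i)).subtype with hC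
  have hTle : T ≤ cl (H' ^ i) := van_le _ _
  have hTmap : (T.comap (cl (H' ^ i)).subtype).map (cl (H' ^ i)).subtype = T := by
    rw [Submodule.map_comap_eq, Submodule.range_subtype]
    exact inf_eq_right.2 hTle
  have hdisj : ∀ x ∈ C, x ∈ T → x = 0 := by
    rintro _ ⟨⟨x, hx⟩, hxC, rfl⟩ hxT
    have h2 : (⟨x, hx⟩ : cl (H' ^ i)) ∈ T.comap (cl (H' ^ i)).subtype ⊓ C' := ⟨hxT, hxC⟩
    rw [hC'.inf_eq_bot, Submodule.mem_bot] at h2
    exact congrArg Subtype.val h2
  have hrank : finrank k (cl (H' ^ i)) = finrank k T + finrank k C := by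
    have h2 := Submodule.finrank_add_eq_of_isCompl hC'
    rw [← h2]
    have h3 := LinearEquiv.finrank_eq (Submodule.equivMapOfInjective
      (cl (H' ^ i)).subtype (Submodule.injective_subtype _)
      (T.comap (cl (H' ^ i)).subtype))
    rw [hTmap] at h3
    rw [h3]
    congr 1
    exact LinearEquiv.finrank_eq (Submodule.equivMapOfInjective _
      (Submodule.injective_subtype _) _)
  have hCle : C ≤ cl (H' ^ i) := Submodule.map_subtype_le _ _
  -- multiplication by `h ^ (t - i)`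
  set μ : K →ₗ[k] K := LinearMap.mulLeft k (h ^ (t - i)) with hμ
  have hμinj : Function.Injective μ := fun x y hxy => by
    have h3 : h ^ (t - i) * x = h ^ (t - i) * y := hxy
    exact mul_left_cancel₀ (pow_ne_zero _ hh0) h3
  have hfC : FiniteDimensional k C := Submodule.finiteDimensional_of_le hCle
  have hμC : finrank k (C.map μ) = finrank k C :=
    (LinearEquiv.finrank_eq (Submodule.equivMapOfInjective μ hμinj C)).symm
  have hsub1 : C.map μ ≤ cl (H ^ (t - i) * H' ^ i) := by
    rintro _ ⟨x, hx, rfl⟩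
    exact pow_mul_mem_cl hhH (hCle hx) _
  have e : t - i = (t - (i + 1)) + 1 := by omega
  have hsub2 : cl (H ^ (t - (i + 1)) * H' ^ (i + 1)) ≤ cl (H ^ (t - i) * H' ^ i) := by
    refine cl_mono ?_
    rw [e, pow_succ H, pow_succ' H', mul_assoc]
    exact mul_le_mul' le_rfl (mul_le_mul' hle le_rfl)
  have hdis : Disjoint (cl (H ^ (t - (i + 1)) * H' ^ (i + 1))) (C.map μ) := by
    rw [Submodule.disjoint_def]
    rintro _ hx ⟨f, hf, rfl⟩
    by_cases hf0 : f = 0
    · rw [hf0, map_zero]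
    exfalso
    apply hf0
    refine hdisj f hf ⟨hCle hf, fun V hV => ?_⟩
    obtain ⟨hov, hVH⟩ := hS V hV
    have hμf : μ f ≠ 0 := fun h0 => hf0 (hμinj (by rw [h0, map_zero]))
    obtain ⟨y, hy, hfy⟩ : ∃ y ∈ H ^ (t - (i + 1)) * H' ^ (i + 1),
        V.valuation (μ f) ≤ V.valuation y := (hx V hov).resolve_left hμf
    have hy0 : y ≠ 0 := by
      rintro rfl
      rw [map_zero, le_zero_iff, map_eq_zero] at hfy
      exact hμf hfy
    have hb : H' ≠ ⊥ := by
      rintro rfl
      rw [← Submodule.zero_eq_bot, zero_pow (Nat.succ_ne_zero i), mul_zero,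
        Submodule.zero_eq_bot, Submodule.mem_bot] at hy
      exact hy0 hy
    have hH'm : IsModel H' := ⟨hH', hb⟩
    obtain ⟨h', hh'⟩ := TG.exists_isMin hov hH'm
    have hVh := hhmin V hV
    -- `v (h') < v (h)`
    have hlt : V.valuation h' < V.valuation h := by
      rcases hVH h' hh'.mem with h0 | ⟨y, hy, hyv⟩
      · exact absurd h0 hh'.ne
      · exact hyv.trans_le ((div_mem_iff hVh.ne).1 (hVh.div y hy))
    refine Or.inr ⟨h' ^ i, Submodule.pow_mem_pow H' hh'.mem i, ?_⟩
    have h6 := ((hVh.pow hov (t - (i + 1))).mul (hh'.pow hov (i + 1))).div _ hy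
    have h7 : h ^ (t - (i + 1)) * h' ^ (i + 1) ≠ 0 :=
      mul_ne_zero (pow_ne_zero _ hh0) (pow_ne_zero _ hh'.ne)
    have h8 := (div_mem_iff h7).1 h6
    have h9 : V.valuation (μ f) = V.valuation h ^ (t - i) * V.valuation f := by
      rw [hμ, LinearMap.mulLeft_apply, map_mul, map_pow]
    rw [map_mul, map_pow, map_pow] at h8
    rw [h9] at hfy
    rw [map_pow]
    have hvh : 0 < V.valuation h := zero_lt_iff.2 ((Valuation.ne_zero_iff _).2 hh0)
    have hvh' : 0 < V.valuation h' := zero_lt_iff.2 ((Valuation.ne_zero_iff _).2 hh'.ne)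
    have h10 : V.valuation h ^ (t - i) * V.valuation f <
        V.valuation h ^ (t - i) * V.valuation h' ^ i := by
      calc V.valuation h ^ (t - i) * V.valuation f
          ≤ V.valuation h ^ (t - (i + 1)) * V.valuation h' ^ (i + 1) := hfy.trans h8
        _ = V.valuation h ^ (t - (i + 1)) * V.valuation h' ^ i * V.valuation h' := by
            rw [pow_succ, mul_assoc]
        _ < V.valuation h ^ (t - (i + 1)) * V.valuation h' ^ i * V.valuation h :=
            mul_lt_mul_of_pos_left hlt (mul_pos (pow_pos hvh _) (pow_pos hvh' _))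
        _ = V.valuation h ^ (t - i) * V.valuation h' ^ i := by
            rw [e, pow_succ, mul_right_comm]
    exact lt_of_mul_lt_mul_left h10 zero_le
  have hsup : cl (H ^ (t - (i + 1)) * H' ^ (i + 1)) ⊔ C.map μ ≤ cl (H ^ (t - i) * H' ^ i) :=
    sup_le hsub2 hsub1
  have h4 := Submodule.finrank_mono hsup
  have hfm : FiniteDimensional k (C.map μ) := Submodule.finiteDimensional_of_le hsub1
  have h5 := Submodule.finrank_sup_add_finrank_inf_eq
    (cl (H ^ (t - (i + 1)) * H' ^ (i + 1))) (C.map μ)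
  rw [hdis.eq_bot, finrank_bot, add_zero, hμC] at h5
  omega

theorem new_div [Infinite k] (hcl : ∀ P : Submodule k K, P.FG → (cl P).FG) {H H' : Submodule k K}
    (hH : H.FG) (hHb : H ≠ ⊥) (hle : H' ≤ H) (t : ℕ) :
    finrank k (cl (H' ^ t)) + ∑ i ∈ Finset.range t,
      (finrank k (cl (H' ^ i)) - finrank k (van (H' ^ i) (Tn H H'))) ≤
    finrank k (cl (H ^ t)) := by
  have key : ∀ j ≤ t, finrank k (cl (H ^ (t - j) * H' ^ j)) +
      ∑ i ∈ Finset.range j, (finrank k (cl (H' ^ i)) - finrank k (van (H' ^ i) (Tn H H'))) ≤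
      finrank k (cl (H ^ t)) := by
    intro j
    induction j with
    | zero =>
      intro _
      rw [Nat.sub_zero, pow_zero, mul_one, Finset.range_zero, Finset.sum_empty, add_zero]
    | succ j ih =>
      intro hj
      have h1 := ih (by omega)
      have h2 := layer hcl hH hHb hle (show j < t by omega)
      rw [Finset.sum_range_succ]
      omega
  have h := key t le_rfl
  rwa [Nat.sub_self, pow_zero, one_mul] at h

theorem gt_of_le {V : ValuationSubring K} {x y : K} {F : Submodule k K} (hy : Gt V y F)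
    (hxy : V.valuation x ≤ V.valuation y) : Gt V x F := by
  rcases hy with rfl | ⟨z, hz, hyz⟩
  · left
    rwa [map_zero, le_zero_iff, map_eq_zero] at hxy
  · exact Or.inr ⟨z, hz, hxy.trans_lt hyz⟩

/-- A valuation ring in the boundary of `W'` is in the boundary of `W` or `v(H') > v(H)`. -/
theorem tp_or {L W W' : Submodule k K} (hL : IsModel L) (hW : W.FG) (hle : W' ≤ W) {c : ℕ} {τ : K}
    {V : ValuationSubring K} (hV : Tp L c τ W' V) :
    Tn (W * L) (W' * L) V ∨ (Tp L c τ W V ∧ W * L ≠ ⊥ ∧ ∃ h, IsMin V (W' * L) h ∧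
      IsMin V (W * L) h) := by
  by_cases hT : Tn (W * L) (W' * L) V
  · exact Or.inl hT
  right
  have hov := hV.1
  unfold Tn at hT
  push Not at hT
  obtain ⟨h, hh, hG⟩ := hT hov
  have hmin : IsMin V (W * L) h := isMin_iff.2 ⟨mul_le_mul' hle le_rfl hh, hG⟩
  have hmin' : IsMin V (W' * L) h :=
    ⟨hh, hmin.ne, fun g hg => hmin.div g (mul_le_mul' hle le_rfl hg)⟩
  have hW'b : W' ≠ ⊥ := by
    rintro rfl
    rw [Submodule.bot_mul, Submodule.mem_bot] at hh
    exact hmin.ne hh
  have hWb : W ≠ ⊥ := by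
    rintro rfl
    exact hW'b (le_bot_iff.1 hle)
  have hWfin : FiniteDimensional k W := Module.Finite.iff_fg.2 hW
  have hW'fg : W'.FG := Module.Finite.iff_fg.1 (Submodule.finiteDimensional_of_le hle)
  obtain ⟨w, hw⟩ := TG.exists_isMin hov (⟨hW, hWb⟩ : IsModel W)
  obtain ⟨w', hw'⟩ := TG.exists_isMin hov (⟨hW'fg, hW'b⟩ : IsModel W')
  obtain ⟨l, hl⟩ := TG.exists_isMin hov hL
  have h1 : V.valuation (w * l) ≤ V.valuation h :=
    (div_mem_iff hmin.ne).1 (hmin.div _ (hw.mul hl).mem)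
  have h2 : V.valuation h ≤ V.valuation (w' * l) :=
    (div_mem_iff (hw'.mul hl).ne).1 ((hw'.mul hl).div _ hmin'.mem)
  have h3 : V.valuation w ≤ V.valuation w' := by
    have h4 := h1.trans h2
    rw [map_mul, map_mul] at h4
    exact le_of_mul_le_mul_right h4 (zero_lt_iff.2 ((Valuation.ne_zero_iff _).2 hl.ne))
  refine ⟨⟨hov, fun w₀ hw₀ => gt_of_le (hV.2 w' hw'.mem) ?_⟩, fun h0 => ?_, h, hmin', hmin⟩
  · rw [map_mul, map_mul]
    have h5 : V.valuation w₀ ≤ V.valuation w := (div_mem_iff hw.ne).1 (hw.div _ hw₀)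
    exact mul_le_mul_right (h5.trans h3) _
  · have h6 := hmin.mem
    rw [h0, Submodule.mem_bot] at h6
    exact hmin.ne h6

/-- ROW EB. -/
theorem eb [Infinite k] (hcl : ∀ P : Submodule k K, P.FG → (cl P).FG) {L : Submodule k K}
    (hL : IsModel L) (c : ℕ) (τ : K) {W W' : Submodule k K} (hW : W.FG) (hle : W' ≤ W) (N : ℕ) :
    finrank k (cl ((W' * L) ^ N)) + ∑ i ∈ Finset.range N, (Bi L c τ W' i +
        (finrank k (cl ((W * L) ^ i)) -
          finrank k (cl ((W' * L) ^ i) ⊔ bd L c τ W i : Submodule k K))) ≤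
      finrank k (cl ((W * L) ^ N)) + ∑ i ∈ Finset.range N, Bi L c τ W i := by
  classical
  have hWfin : FiniteDimensional k W := Module.Finite.iff_fg.2 hW
  have hW'fg : W'.FG := Module.Finite.iff_fg.1 (Submodule.finiteDimensional_of_le hle)
  have hH : (W * L).FG := hW.mul hL.fg
  have hH' : (W' * L).FG := hW'fg.mul hL.fg
  have hHle : W' * L ≤ W * L := mul_le_mul' hle le_rfl
  by_cases hWb : W = ⊥
  · have hW'b : W' = ⊥ := by rw [hWb] at hle; exact le_bot_iff.1 hle
    rw [hWb, hW'b]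
    refine Nat.add_le_add_left (Finset.sum_le_sum fun i _ => ?_) _
    have h1 : cl (((⊥ : Submodule k K) * L) ^ i) ⊔ bd L c τ ⊥ i = cl ((⊥ * L) ^ i) :=
      sup_eq_left.2 (van_le _ _)
    rw [h1, Nat.sub_self, add_zero]
  have hHb : W * L ≠ ⊥ := ((⟨hW, hWb⟩ : IsModel W).mul hL).ne
  have h1 := new_div hcl hH hHb hHle N
  have h2 : ∀ i, Bi L c τ W' i + (finrank k (cl ((W * L) ^ i)) -
      finrank k (cl ((W' * L) ^ i) ⊔ bd L c τ W i : Submodule k K)) ≤
      Bi L c τ W i + (finrank k (cl ((W' * L) ^ i)) -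
        finrank k (van ((W' * L) ^ i) (Tn (W * L) (W' * L)))) := by
    intro i
    have hf1 : FiniteDimensional k (cl ((W * L) ^ i)) :=
      Module.Finite.iff_fg.2 (hcl _ (hH.pow i))
    have hf2 : FiniteDimensional k (cl ((W' * L) ^ i)) :=
      Module.Finite.iff_fg.2 (hcl _ (hH'.pow i))
    have hcle : cl ((W' * L) ^ i) ≤ cl ((W * L) ^ i) := cl_mono (pow_le_pow_left' hHle i)
    set nd := van ((W' * L) ^ i) (Tn (W * L) (W' * L)) with hnd
    set b' := bd L c τ W' i with hb'
    set b := bd L c τ W i with hb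
    have hble : b ≤ cl ((W * L) ^ i) := van_le _ _
    have hb'le : b' ≤ cl ((W' * L) ^ i) := van_le _ _
    have hndle : nd ≤ cl ((W' * L) ^ i) := van_le _ _
    have hf3 : FiniteDimensional k b := Submodule.finiteDimensional_of_le hble
    have hf4 : FiniteDimensional k b' := Submodule.finiteDimensional_of_le hb'le
    have hf5 : FiniteDimensional k nd := Submodule.finiteDimensional_of_le hndle
    have key : (cl ((W' * L) ^ i) ⊓ b) ⊓ nd ≤ b' := by
      rintro f ⟨⟨hf1, hf2⟩, hf3⟩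
      refine ⟨hf1, fun V hV => ?_⟩
      rcases tp_or hL hW hle hV with hT | ⟨hT, _, h, hm', hm⟩
      · exact hf3.2 V hT
      · rcases hf2.2 V hT with h0 | ⟨y, hy, hfy⟩
        · exact Or.inl h0
        · refine Or.inr ⟨h ^ i, Submodule.pow_mem_pow _ hm'.mem i, hfy.trans_le ?_⟩
          exact (div_mem_iff (pow_ne_zero _ hm.ne)).1 ((hm.pow hT.1 i).div y hy)
    have e1 := Submodule.finrank_sup_add_finrank_inf_eq (cl ((W' * L) ^ i)) b
    have e2 := Submodule.finrank_sup_add_finrank_inf_eq (cl ((W' * L) ^ i) ⊓ b) nd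
    have e3 := Submodule.finrank_mono key
    have e4 := Submodule.finrank_mono (sup_le (inf_le_left : cl ((W' * L) ^ i) ⊓ b ≤ _) hndle)
    have e5 := Submodule.finrank_mono (sup_le hcle hble)
    have e6 := Submodule.finrank_mono hb'le
    have e7 := Submodule.finrank_mono hndle
    have e8 := Submodule.finrank_mono hble
    have e9 := Submodule.finrank_mono hcle
    unfold Bi
    rw [← hb', ← hb]
    omega
  have h3 := Finset.sum_le_sum fun i (_ : i ∈ Finset.range N) => h2 i
  rw [Finset.sum_add_distrib (f := fun i => Bi L c τ W i)] at h3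
  omega

/-- ROW EB in the form of `EBStmt` (with `L ≠ ⊥`, which is needed). -/
theorem ebStmt (hcl : ClStmt k K) : IsAlgClosed k → (⊤ : IntermediateField k K).FG →
    ∀ L : Submodule k K, L.FG → L ≠ ⊥ → ∀ (c : ℕ) (τ : K) (W W' : Submodule k K), W.FG →
    W' ≤ W → ∀ N : ℕ,
      finrank k (cl ((W' * L) ^ N)) + ∑ i ∈ Finset.range N, (Bi L c τ W' i +
        (finrank k (cl ((W * L) ^ i)) -
          finrank k (cl ((W' * L) ^ i) ⊔ bd L c τ W i : Submodule k K))) ≤
      finrank k (cl ((W * L) ^ N)) + ∑ i ∈ Finset.range N, Bi L c τ W i := by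
  intro hk hK L hL hL0 c τ W W' hW hle N
  have : Infinite k := IsAlgClosed.instInfinite
  exact eb (hcl hk hK).1 ⟨hL, hL0⟩ c τ hW hle N

end Pool.Agent.TG9
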