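import Pool.Agent.Lib.TG9.Deg
import Pool.Agent.Lib.ALL_h26.Sub

/-!
# TANK G, BC9: the valuation inequality `IneqStmt`
-/

set_option autoImplicit false

namespace Pool.Agent.TG9

open Pool.Agent.TG (Ov ZDim IsMin IsModel Bir ch chN comap_lt_one exists_comap_eq)
open Pool.Agent.LU2 (locV)
open Pool.Agent.TG15 (Gt Tp hx smulK)
open Module Filter MvPolynomial
open Pool.Agent

universe u

section Min

variable {k K : Type u} [Field k] [Field K] [Algebra k K] {V : ValuationSubring K}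
  {P Q : Submodule k K} {f g : K}

theorem im_le (hf : IsMin V P f) (hg : g ∈ P) : V.valuation g ≤ V.valuation f := by
  have h1 := (V.valuation_le_one_iff _).2 (hf.div g hg)
  rw [map_div₀, div_le_one₀ (zero_lt_iff.2 ((Valuation.ne_zero_iff _).2 hf.ne))] at h1
  exact h1

theorem im_of_le (hf : f ∈ P) (h0 : f ≠ 0)
    (h : ∀ g ∈ P, V.valuation g ≤ V.valuation f) : IsMin V P f := by
  refine ⟨hf, h0, fun g hg => ?_⟩
  rw [← V.valuation_le_one_iff, map_div₀,
    div_le_one₀ (zero_lt_iff.2 ((Valuation.ne_zero_iff _).2 h0))]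
  exact h g hg

theorem im_eq (hf : IsMin V P f) (hg : IsMin V P g) : V.valuation g = V.valuation f :=
  le_antisymm (im_le hf hg.mem) (im_le hg hf.mem)

/-- A product is minimal iff the factors are. -/
theorem isMin_mul_iff (hf : f ∈ P) (hg : IsMin V Q g) (hf0 : f ≠ 0) :
    IsMin V (P * Q) (f * g) ↔ IsMin V P f := by
  constructor
  · intro h
    refine im_of_le hf hf0 fun x hx => ?_
    have h1 := im_le h (Submodule.mul_mem_mul hx hg.mem)
    rw [map_mul, map_mul] at h1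
    exact le_of_mul_le_mul_right h1 (zero_lt_iff.2 ((Valuation.ne_zero_iff _).2 hg.ne))
  · intro h
    exact h.mul hg

theorem gt_iff_not_isMin (hP : ∃ w, IsMin V P w) (hf : f ∈ P) (hf0 : f ≠ 0) :
    Gt V f P ↔ ¬ IsMin V P f := by
  constructor
  · rintro (h | ⟨y, hy, h⟩) hmin
    · exact hf0 h
    · exact absurd (im_le hmin hy) (not_le.2 h)
  · intro h
    obtain ⟨w, hw⟩ := hP
    refine Or.inr ⟨w, hw.mem, lt_of_le_of_ne (im_le hw hf) fun h1 => h ?_⟩
    exact im_of_le hf hf0 fun g hg => (im_le hw hg).trans h1.symm.le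

end Min

/-- Change of the denominator in the chain bound. -/
theorem conv_den {k κ : Type u} [Field k] [Field κ] [Algebra k κ] {B : ValuationSubring κ}
    (hB : ZDim k B) {p q r : κ} (hr : r ≠ 0) (hq : q ≠ 0) (hqr : B.valuation q = B.valuation r)
    {γ : k} (h : B.valuation (p / q - algebraMap k κ γ) < 1) :
    (∃ γ' : k, B.valuation (p / r - algebraMap k κ γ') < 1 ∧
      B.valuation (p / q - algebraMap k κ γ) ≤ B.valuation (p / r - algebraMap k κ γ')) ∨
    ∃ γ' : k, B.valuation (q / r - algebraMap k κ γ') < 1 ∧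
      B.valuation (p / q - algebraMap k κ γ) ≤ B.valuation (q / r - algebraMap k κ γ') := by
  have hq0 : B.valuation q ≠ 0 := (Valuation.ne_zero_iff _).2 hq
  have hr0 : B.valuation r ≠ 0 := (Valuation.ne_zero_iff _).2 hr
  have h1 : B.valuation (q / r) = 1 := by rw [map_div₀, hqr, div_self hr0]
  have h2 : B.valuation (r / q) = 1 := by rw [map_div₀, hqr, div_self hr0]
  obtain ⟨l, hl⟩ := hB.res (q / r) ((B.valuation_le_one_iff _).1 h1.le)
  have hγ : B.valuation (algebraMap k κ γ) ≤ 1 := (B.valuation_le_one_iff _).2 (hB.ov γ)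
  have e1 : p / r - algebraMap k κ (γ * l) =
      (p / q - algebraMap k κ γ) * (q / r) + algebraMap k κ γ * (q / r - algebraMap k κ l) := by
    rw [map_mul]
    field_simp
    ring
  have e2 : p / q - algebraMap k κ γ = ((p / r - algebraMap k κ (γ * l)) -
      algebraMap k κ γ * (q / r - algebraMap k κ l)) * (r / q) := by
    rw [map_mul]
    field_simp
    ring
  have h3 : B.valuation (p / r - algebraMap k κ (γ * l)) < 1 := by
    rw [e1]
    refine Valuation.map_add_lt _ ?_ ?_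
    · rw [map_mul, h1, mul_one]; exact h
    · rw [map_mul]; exact lt_of_le_of_lt (mul_le_of_le_one_left' hγ) hl
  have h4 : B.valuation (p / q - algebraMap k κ γ) ≤
      max (B.valuation (p / r - algebraMap k κ (γ * l)))
        (B.valuation (q / r - algebraMap k κ l)) := by
    rw [e2, map_mul, h2, mul_one]
    refine (Valuation.map_sub _ _ _).trans (max_le_max le_rfl ?_)
    rw [map_mul]
    exact mul_le_of_le_one_left' hγ
  rcases le_total (B.valuation (q / r - algebraMap k κ l))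
    (B.valuation (p / r - algebraMap k κ (γ * l))) with h5 | h5
  · rw [max_eq_left h5] at h4
    exact Or.inl ⟨γ * l, h3, h4⟩
  · rw [max_eq_right h5] at h4
    exact Or.inr ⟨l, hl, h4⟩

/-- **ROW D4i.** -/
theorem ineqStmt' (k K κ : Type u) [Field k] [Field K] [Algebra k K] [Field κ] [Algebra k κ]
    (n d : ℕ) : IneqStmt k K κ n d := by
  intro hac hn hd L W hL h1L hW hW0 t s f h ht hs hfm hhom hbpf hc1 v φ hφ hv hk y a₁ ha₁ hy hsec
    A hA i₀ hi₀d hyi₀ hratA
  have hL0 : L ≠ ⊥ := fun h0 => by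
    rw [h0, Submodule.mem_bot] at h1L
    exact one_ne_zero h1L
  have hHmod : IsModel (W * L) := IsModel.mul ⟨hW, hW0⟩ ⟨hL, hL0⟩
  set H := W * L with hH
  set u := aeval f (h i₀) with hu
  have hf1 : f a₁ ≠ 0 := ha₁.ne
  -- (1)
  have pt : ∀ B : ValuationSubring κ, ZDim k B →
      (∀ i : Fin (n + 1), (i : ℕ) ≤ d → aeval y (h i) / aeval y (h i₀) ∈ B) →
      ∃ a₀, IsMin (cmp φ hφ B) (H ^ t) (f a₀) ∧ y a₀ ≠ 0 ∧ (∀ a, y a / y a₀ ∈ B) ∧
        (∀ a, ∃ h' : f a / f a₀ ∈ v, φ ⟨f a / f a₀, h'⟩ = y a / y a₀) ∧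
        B.valuation (aeval y (h i₀)) = B.valuation (y a₀) ^ s ∧
        IsMin (cmp φ hφ B) (H ^ (t * s)) u := by
    intro B hB hrat
    have hVz : ZDim k (cmp φ hφ B) := cmp_zdim hv hk hB
    obtain ⟨a₀, ha₀⟩ := hbpf _ hVz.ov
    have ha₀v : IsMin v (H ^ t) (f a₀) := ha₀.of_le cmp_le
    have hy0 : y a₀ ≠ 0 := by
      intro h0
      obtain ⟨h1, h2⟩ := hy a₀
      rw [h0] at h2
      exact ((hφ.zero _).1 h2).ne (TG.val_div_eq_one ha₁ ha₀v)
    have hyd : ∀ a, ∃ h' : f a / f a₀ ∈ v, φ ⟨f a / f a₀, h'⟩ = y a / y a₀ := by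
      intro a
      obtain ⟨h3, h4⟩ := hy a
      obtain ⟨h5, h6⟩ := hy a₀
      obtain ⟨h7, h8⟩ := phi_div hφ h3 h5 (by rw [h6]; exact hy0)
      have h9 : f a / f a₁ / (f a₀ / f a₁) = f a / f a₀ := div_div_div_cancel_right₀ hf1 _ _
      have h10 : f a / f a₀ ∈ v := by rw [← h9]; exact h7
      refine ⟨h10, ?_⟩
      have e : (⟨f a / f a₀, h10⟩ : v) = ⟨_, h7⟩ := Subtype.ext h9.symm
      rw [e, h8, h4, h6]
    have hydB : ∀ a, y a / y a₀ ∈ B := by
      intro a
      obtain ⟨h1, h2⟩ := ha₀.div (f a) (hfm a)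
      obtain ⟨h3, h4⟩ := hyd a
      rw [← h4]
      exact h2
    obtain ⟨i₁, hi₁d, hi₁, -⟩ := hsec B hB a₀ hydB hy0
    have hval : B.valuation (aeval y (h i₀)) = B.valuation (y a₀) ^ s := by
      refine le_antisymm (val_form_le B hB.ov hy0 hydB (hhom i₀)) ?_
      rw [← hi₁]
      have h1 := (B.valuation_le_one_iff _).2 (hrat i₁ hi₁d)
      rw [map_div₀, div_le_one₀ (zero_lt_iff.2 ((Valuation.ne_zero_iff _).2 hyi₀))] at h1
      exact h1
    refine ⟨a₀, ha₀, hy0, hydB, hyd, hval, ?_⟩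
    -- `u / f a₀ ^ s` is a unit
    obtain ⟨h1, h2⟩ := phi_aeval (φ := φ) hv hk hyd (h i₀)
    have h3 : B.valuation (aeval (fun a => y a / y a₀) (h i₀)) = 1 := by
      rw [aeval_div_of_hom (hhom i₀) hy0, map_mul, map_pow] at hval
      have h4 : B.valuation (y a₀) ^ s ≠ 0 := pow_ne_zero _ ((Valuation.ne_zero_iff _).2 hy0)
      exact mul_left_cancel₀ h4 (by rw [hval, mul_one])
    have h4 : (cmp φ hφ B).valuation (aeval (fun a => f a / f a₀) (h i₀)) = 1 :=
      (cmp_eq_one (hφ := hφ) (B := B) ⟨_, h1⟩).2 (by rw [h2]; exact h3)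
    have h5 : u = f a₀ ^ s * aeval (fun a => f a / f a₀) (h i₀) :=
      aeval_div_of_hom (hhom i₀) ha₀.ne f
    have h6 : (cmp φ hφ B).valuation u = (cmp φ hφ B).valuation (f a₀ ^ s) := by
      rw [h5, map_mul, h4, mul_one]
    have h7 : IsMin (cmp φ hφ B) (H ^ (t * s)) (f a₀ ^ s) := by
      rw [pow_mul]
      exact ha₀.pow hVz.ov s
    refine im_of_le ?_ ?_ fun g hg => ?_
    · rw [pow_mul]
      exact aeval_mem_pow (hhom i₀) hfm
    · intro h0
      rw [h0, map_zero] at h6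
      exact (Valuation.ne_zero_iff _).2 h7.ne h6.symm
    · rw [h6]
      exact im_le h7 hg
  obtain ⟨aA, -, -, -, -, -, hminA⟩ := pt A hA hratA
  refine ⟨hminA, fun B hB hSB m a ha hav => ?_⟩
  have hVA : ZDim k (cmp φ hφ A) := cmp_zdim hv hk hA
  have hVB : ZDim k (cmp φ hφ B) := cmp_zdim hv hk hB
  set VA := cmp φ hφ A with hVAdef
  set VB := cmp φ hφ B with hVBdef
  let Sκ : Set κ := {z : κ | ∃ i : Fin (n + 1), (i : ℕ) ≤ d ∧ z = aeval y (h i) / aeval y (h i₀)}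
  have hSint : ∀ z ∈ Sκ, IsIntegral (Algebra.adjoin k Sκ) z := fun z hz => by
    have h1 : z = algebraMap (Algebra.adjoin k Sκ) κ ⟨z, Algebra.subset_adjoin hz⟩ := rfl
    rw [h1]
    exact isIntegral_algebraMap
  have hratB : ∀ i : Fin (n + 1), (i : ℕ) ≤ d → aeval y (h i) / aeval y (h i₀) ∈ B :=
    fun i hi => (hSB.2 _ (hSint _ ⟨i, hi, rfl⟩)).1
  obtain ⟨aB, haB, hyB0, hydB, hyφB, hvalB, hminB⟩ := pt B hB hratB
  have hTpos : t * s ≠ 0 := (Nat.mul_pos ht hs).ne'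
  -- integrality
  have hint : ∀ x ∈ H ^ (t * s), ∃ h' : x / u ∈ v, IsIntegral (Algebra.adjoin k Sκ) (φ ⟨x / u, h'⟩) := by
    intro x hx
    have hxv : x / u ∈ v := cmp_le (hminA.div x hx)
    refine ⟨hxv, TG.isIntegral_of_forall_mem _ fun V hV => ?_⟩
    have hSfin : Sκ.Finite := (Set.finite_range fun i => aeval y (h i) / aeval y (h i₀)).subset
      (by rintro z ⟨i, -, rfl⟩; exact ⟨i, rfl⟩)
    obtain ⟨B', hB'V, hB'S, hB'r⟩ := ALLF.exists_zeroDim_sub V (Algebra.adjoin k Sκ)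
      ⟨hSfin.toFinset, by rw [hSfin.coe_toFinset]⟩ hV
    have hB'z : ZDim k B' := ⟨fun c => hB'S _ (Subalgebra.algebraMap_mem _ c), hB'r⟩
    obtain ⟨-, -, -, -, -, -, h1⟩ := pt B' hB'z fun i hi =>
      hB'S _ (Algebra.subset_adjoin ⟨i, hi, rfl⟩)
    obtain ⟨h2, h3⟩ := h1.div x hx
    exact hB'V h3
  -- minimal elements of `H` are the same
  have hminHV : ∀ {V : ValuationSubring K}, Ov k V → IsMin V (H ^ (t * s)) u → ∀ x ∈ H, x ≠ 0 →
      (IsMin V H x ↔ ¬ V.valuation (x ^ (t * s) / u) < 1) := by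
    intro V hV hVu x hx hx0
    have hu0 : V.valuation u ≠ 0 := (Valuation.ne_zero_iff _).2 hVu.ne
    rw [map_div₀, map_pow, div_lt_one₀ (zero_lt_iff.2 hu0), not_lt]
    constructor
    · intro h1
      rw [← map_pow]
      exact im_le (h1.pow hV (t * s)) hVu.mem
    · intro h1
      refine im_of_le hx hx0 fun g hg => ?_
      refine (pow_le_pow_iff_left₀ zero_le' zero_le' hTpos).1 ?_
      rw [← map_pow]
      exact (im_le hVu (Submodule.pow_mem_pow _ hg _)).trans h1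
  have hminH : ∀ x ∈ H, x ≠ 0 → (IsMin VA H x ↔ IsMin VB H x) := by
    intro x hx hx0
    rw [hminHV hVA.ov hminA x hx hx0, hminHV hVB.ov hminB x hx hx0]
    obtain ⟨h1, h2⟩ := hint _ (Submodule.pow_mem_pow _ hx (t * s))
    have h3 := (hSB.2 _ h2).2
    rw [← cmp_lt_one (hφ := hφ) (B := A), ← cmp_lt_one (hφ := hφ) (B := B)] at h3
    exact not_congr h3
  -- minimal elements of `W` and `L`
  obtain ⟨w, hw⟩ := TG.exists_isMin (P := W) hVA.ov ⟨hW, hW0⟩
  obtain ⟨l, hl⟩ := TG.exists_isMin (P := L) hVA.ov ⟨hL, hL0⟩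
  have hwl : IsMin VB H (w * l) :=
    (hminH _ (Submodule.mul_mem_mul hw.mem hl.mem) (mul_ne_zero hw.ne hl.ne)).1 (hw.mul hl)
  have hlB : IsMin VB L l := by
    refine im_of_le hl.mem hl.ne fun g hg => ?_
    have h1 := im_le hwl (Submodule.mul_mem_mul hw.mem hg)
    rw [map_mul, map_mul] at h1
    exact le_of_mul_le_mul_left h1 (zero_lt_iff.2 ((Valuation.ne_zero_iff _).2 hw.ne))
  have hwB : IsMin VB W w := (isMin_mul_iff hw.mem hlB hw.ne).1 hwl
  have hhx : hx VA W = hx VB W := by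
    ext z
    by_cases hz0 : z = 0
    · subst hz0
      exact ⟨fun _ => zero_mem _, fun _ => zero_mem _⟩
    constructor
    · rintro ⟨hz, hz'⟩
      refine ⟨hz, ?_⟩
      rw [gt_iff_not_isMin ⟨w, hw⟩ hz hz0] at hz'
      rw [gt_iff_not_isMin ⟨w, hwB⟩ hz hz0]
      intro h1
      refine hz' ((isMin_mul_iff hz hl hz0).1 ?_)
      exact (hminH _ (Submodule.mul_mem_mul hz hl.mem) (mul_ne_zero hz0 hl.ne)).2 (h1.mul hlB)
    · rintro ⟨hz, hz'⟩
      refine ⟨hz, ?_⟩
      rw [gt_iff_not_isMin ⟨w, hwB⟩ hz hz0] at hz'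
      rw [gt_iff_not_isMin ⟨w, hw⟩ hz hz0]
      intro h1
      refine hz' ((isMin_mul_iff hz hlB hz0).1 ?_)
      exact (hminH _ (Submodule.mul_mem_mul hz hl.mem) (mul_ne_zero hz0 hl.ne)).1 (h1.mul hl)
  rw [hhx] at ha
  have hu0 : u ≠ 0 := hminA.ne
  have hum0 : u ^ m ≠ 0 := pow_ne_zero _ hu0
  -- trivial cases
  have htriv : B.valuation (φ ⟨a / u ^ m, hav⟩) ^ ((n + 1) * (d + 1)) ≤
      B.valuation (0 : κ) ^ (t * s * m) → ∃ (i : Fin (n + 1)) (γ : k), (i : ℕ) ≤ d ∧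
      A.valuation (aeval y (h i) / aeval y (h i₀) - algebraMap k κ γ) < 1 ∧
      B.valuation (φ ⟨a / u ^ m, hav⟩) ^ ((n + 1) * (d + 1)) ≤
        B.valuation (aeval y (h i) / aeval y (h i₀) - algebraMap k κ γ) ^ (t * s * m) := by
    intro h1
    refine ⟨i₀, 1, hi₀d, ?_, ?_⟩
    · rw [div_self hyi₀, map_one, sub_self, map_zero]
      exact zero_lt_one
    · rw [div_self hyi₀, map_one, sub_self]
      exact h1
  rcases Nat.eq_zero_or_pos m with hm0 | hmpos
  · refine htriv ?_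
    subst hm0
    rw [mul_zero (t * s), pow_zero (B.valuation (0 : κ))]
    refine pow_le_one₀ zero_le' ?_
    have h1 : a ∈ VB := by
      rw [mul_zero, pow_zero] at ha
      rcases ha VB hVB.ov with h2 | ⟨z, hz, h2⟩
      · rw [h2]; exact VB.zero_mem
      · obtain ⟨c, rfl⟩ := Submodule.mem_one.1 hz
        rw [← VB.valuation_le_one_iff]
        exact h2.trans ((VB.valuation_le_one_iff _).2 (hVB.ov c))
    obtain ⟨h2, h3⟩ := h1
    have e : (⟨a / u ^ 0, hav⟩ : v) = ⟨a, h2⟩ := Subtype.ext (by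
      change a / u ^ 0 = a
      rw [pow_zero, div_one])
    rw [e]
    exact (B.valuation_le_one_iff _).2 h3
  by_cases ha0 : a = 0
  · refine htriv ?_
    have e : (⟨a / u ^ m, hav⟩ : v) = 0 := Subtype.ext (by
      change a / u ^ m = 0
      rw [ha0, zero_div])
    rw [e, map_zero, map_zero, zero_pow (by positivity)]
    exact zero_le'
  -- the main case
  have hN0 : t * s * m ≠ 0 := Nat.mul_ne_zero hTpos hmpos.ne'
  set N := t * s * m with hN
  rcases ha VB hVB.ov with h1 | ⟨z, hz, haz⟩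
  · exact absurd h1 ha0
  have hz0 : z ≠ 0 := by
    rintro rfl
    rw [map_zero] at haz
    exact ha0 ((map_eq_zero _).1 (le_antisymm haz zero_le'))
  have hW'0 : hx VB W ≠ ⊥ := by
    intro h0
    rw [h0, Submodule.bot_mul, ← Submodule.zero_eq_bot, zero_pow hN0, Submodule.zero_eq_bot,
      Submodule.mem_bot] at hz
    exact hz0 hz
  have hW'fg : (hx VB W).FG := by
    have h2 : FiniteDimensional k W := (Submodule.fg_iff_finiteDimensional _).1 hW
    refine (Submodule.fg_iff_finiteDimensional _).2 ?_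
    exact Submodule.finiteDimensional_of_le (S₂ := W) fun x hx => hx.1
  obtain ⟨w', hw'⟩ := TG.exists_isMin (P := hx VB W) hVB.ov ⟨hW'fg, hW'0⟩
  have h2 : VB.valuation z ≤ VB.valuation ((w' * l) ^ N) :=
    im_le ((hw'.mul hlB).pow hVB.ov N) hz
  have h3 : VB.valuation (u ^ m) = VB.valuation ((w * l) ^ N) := by
    have h4 : IsMin VB (H ^ N) (u ^ m) := by
      rw [hN, pow_mul]
      exact hminB.pow hVB.ov m
    exact im_eq ((hwB.mul hlB).pow hVB.ov N) h4
  have hwl0 : VB.valuation ((w * l) ^ N) ≠ 0 := (Valuation.ne_zero_iff _).2 (pow_ne_zero _ hwl.ne)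
  have h4 : VB.valuation (a / u ^ m) ≤ VB.valuation (w' / w) ^ N := by
    rw [map_div₀, h3, ← map_pow, div_pow, map_div₀]
    refine div_le_of_le_mul₀ zero_le' zero_le' ?_
    refine (haz.trans h2).trans (le_of_eq ?_)
    rw [mul_pow, mul_pow, map_mul, map_mul, ← mul_assoc,
      div_mul_cancel₀ _ ((Valuation.ne_zero_iff _).2 (pow_ne_zero _ hwB.ne))]
  obtain ⟨i, α, hα1, hα2⟩ := hc1 VB hVB aB haB w hwB w' hw'.mem
  obtain ⟨hfi, hφi⟩ := hyφB i
  have hYv : f i / f aB - algebraMap k K α ∈ v := sub_mem hfi (hv α)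
  have hYφ : φ ⟨f i / f aB - algebraMap k K α, hYv⟩ = y i / y aB - algebraMap k κ α := by
    have e : (⟨f i / f aB - algebraMap k K α, hYv⟩ : v) = ⟨_, hfi⟩ - ⟨_, hv α⟩ := rfl
    rw [e, map_sub, hφi, hk]
  have hY1 : B.valuation (y i / y aB - algebraMap k κ α) < 1 := by
    rw [← hYφ, ← cmp_lt_one (hφ := hφ) (B := B)]
    exact hα1
  obtain ⟨i₁, hi₁d, hi₁v, hi₁⟩ := hsec B hB aB hydB hyB0
  obtain ⟨i', γ, hi'd, hγ1, hγ2⟩ := hi₁ i α hY1
  -- chain of inequalities
  have h5 : VB.valuation ((a / u ^ m) ^ (n + 1)) ≤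
      VB.valuation ((f i / f aB - algebraMap k K α) ^ N) := by
    rw [map_pow, map_pow]
    calc VB.valuation (a / u ^ m) ^ (n + 1) ≤ (VB.valuation (w' / w) ^ N) ^ (n + 1) :=
          pow_le_pow_left₀ zero_le' h4 _
      _ = (VB.valuation (w' / w) ^ (n + 1)) ^ N := by rw [← pow_mul, ← pow_mul, mul_comm]
      _ ≤ _ := pow_le_pow_left₀ zero_le' hα2 _
  have h6 : B.valuation (φ ⟨a / u ^ m, hav⟩) ^ (n + 1) ≤
      B.valuation (y i / y aB - algebraMap k κ α) ^ N := by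
    have h6a := val_le_of_cmp (hφ := hφ) (B := B) (x := ⟨a / u ^ m, hav⟩ ^ (n + 1))
      (y := ⟨f i / f aB - algebraMap k K α, hYv⟩ ^ N) h5
    rw [map_pow φ, map_pow φ, map_pow B.valuation, map_pow B.valuation, hYφ] at h6a
    exact h6a
  have hkey : ∀ (i'' : Fin (n + 1)) (γ' : k), (i'' : ℕ) ≤ d →
      B.valuation (aeval y (h i'') / aeval y (h i₀) - algebraMap k κ γ') < 1 →
      B.valuation (aeval y (h i') / aeval y (h i₁) - algebraMap k κ γ) ≤
        B.valuation (aeval y (h i'') / aeval y (h i₀) - algebraMap k κ γ') →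
      ∃ (i : Fin (n + 1)) (γ : k), (i : ℕ) ≤ d ∧
      A.valuation (aeval y (h i) / aeval y (h i₀) - algebraMap k κ γ) < 1 ∧
      B.valuation (φ ⟨a / u ^ m, hav⟩) ^ ((n + 1) * (d + 1)) ≤
        B.valuation (aeval y (h i) / aeval y (h i₀) - algebraMap k κ γ) ^ N := by
    intro i'' γ' hi'' h7 h8
    refine ⟨i'', γ', hi'', ?_, ?_⟩
    · have h9 : IsIntegral (Algebra.adjoin k Sκ)
          (aeval y (h i'') / aeval y (h i₀) - algebraMap k κ γ') := by
        refine (hSint _ ⟨i'', hi'', rfl⟩).sub ?_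
        have h10 : algebraMap k κ γ' = algebraMap (Algebra.adjoin k Sκ) κ
            (algebraMap k (Algebra.adjoin k Sκ) γ') := rfl
        rw [h10]
        exact isIntegral_algebraMap
      exact ((hSB.2 _ h9).2).2 h7
    · calc B.valuation (φ ⟨a / u ^ m, hav⟩) ^ ((n + 1) * (d + 1)) =
            (B.valuation (φ ⟨a / u ^ m, hav⟩) ^ (n + 1)) ^ (d + 1) := pow_mul _ _ _
        _ ≤ (B.valuation (y i / y aB - algebraMap k κ α) ^ N) ^ (d + 1) :=
            pow_le_pow_left₀ zero_le' h6 _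
        _ = (B.valuation (y i / y aB - algebraMap k κ α) ^ (d + 1)) ^ N := by
            rw [← pow_mul, ← pow_mul, mul_comm]
        _ ≤ _ := pow_le_pow_left₀ zero_le' (hγ2.trans h8) _
  have hq0 : aeval y (h i₁) ≠ 0 := by
    intro h0
    rw [h0, map_zero] at hi₁v
    exact (pow_ne_zero s ((Valuation.ne_zero_iff _).2 hyB0)) hi₁v.symm
  rcases conv_den hB hyi₀ hq0 (hi₁v.trans hvalB.symm) hγ1 with ⟨γ', h7, h8⟩ | ⟨γ', h7, h8⟩
  · exact hkey i' γ' hi'd h7 h8
  · exact hkey i₁ γ' hi₁d h7 h8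

end Pool.Agent.TG9
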