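import Pool.Agent.Lib.TG9.Defs4

/-!
# TANK G, backup track BC9: row D2 (linear algebra of restriction to a divisor)
-/

set_option autoImplicit false

namespace Pool.Agent.TG9

open Pool.Agent.TG (Ov)
open Module

universe u

section Lin

variable {k V : Type*} [Field k] [AddCommGroup V] [Module k V]

theorem lin1 {B B' R : Submodule k V} (hB : B' ≤ B) [FiniteDimensional k B] :
    finrank k (B ⊓ R : Submodule k V) + finrank k B' ≤
      finrank k (B' ⊓ R : Submodule k V) + finrank k B := by
  have h1 : FiniteDimensional k (B ⊓ R : Submodule k V) :=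
    Submodule.finiteDimensional_of_le inf_le_left
  have h2 : FiniteDimensional k B' := Submodule.finiteDimensional_of_le hB
  have h3 := Submodule.finrank_sup_add_finrank_inf_eq (B ⊓ R) B'
  have h4 : (B ⊓ R) ⊓ B' = B' ⊓ R := by
    rw [inf_comm, ← inf_assoc, inf_eq_left.2 hB]
  have h5 : (B ⊓ R) ⊔ B' ≤ B := sup_le inf_le_left hB
  have h6 := Submodule.finrank_mono h5
  rw [h4] at h3
  omega

theorem lin2 {W : Type*} [AddCommGroup W] [Module k W] [FiniteDimensional k V] (ψ : V →ₗ[k] W)
    (A' : Submodule k V) :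
    finrank k A' + finrank k (LinearMap.range ψ) ≤ finrank k (A'.map ψ) + finrank k V := by
  have h1 := LinearMap.finrank_range_add_finrank_ker ψ
  have h2 := LinearMap.finrank_range_add_finrank_ker (ψ.domRestrict A')
  have h3 : LinearMap.range (ψ.domRestrict A') = A'.map ψ := by
    rw [LinearMap.range_domRestrict]
  rw [h3] at h2
  have h4 : finrank k (LinearMap.ker (ψ.domRestrict A')) ≤ finrank k (LinearMap.ker ψ) := by
    let χ : LinearMap.ker (ψ.domRestrict A') →ₗ[k] LinearMap.ker ψ :=
      (A'.subtype.comp (LinearMap.ker (ψ.domRestrict A')).subtype).codRestrict _ (fun x => x.2)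
    refine LinearMap.finrank_le_finrank_of_injective (f := χ) ?_
    intro x y hxy
    apply Subtype.ext
    apply Subtype.ext
    have h5 : ((χ x : LinearMap.ker ψ) : V) = (χ y : LinearMap.ker ψ) := by rw [hxy]
    exact h5
  omega

theorem finrank_comap_inj {W : Type*} [AddCommGroup W] [Module k W] (ι : V →ₗ[k] W)
    (hι : Function.Injective ι) (B : Submodule k W) :
    finrank k (B.comap ι) = finrank k (B ⊓ LinearMap.range ι : Submodule k W) := by
  have h1 : (B.comap ι).map ι = B ⊓ LinearMap.range ι := by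
    rw [Submodule.map_comap_eq, inf_comm]
  rw [← h1]
  exact (LinearEquiv.finrank_eq (Submodule.equivMapOfInjective ι hι (B.comap ι)))

end Lin

/-- **ROW D2.** -/
theorem linStmt (k K κ M : Type u) [Field k] [Field K] [Algebra k K] [Field κ] [Algebra k κ]
    [Field M] [Algebra k M] [Algebra M κ] [IsScalarTower k M κ] : LinStmt k K κ M := by
  intro v φ hφ hv hk u A A' Kr hu hA hA' hKr hAv hKv
  have hfd : FiniteDimensional k A := (Submodule.fg_iff_finiteDimensional _).1 hA
  -- the map
  let ψ : A →ₗ[k] κ :=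
    { toFun := fun a => φ ⟨(a : K) / u, hAv a a.2⟩
      map_add' := fun a b => by
        have h2 : (⟨((a + b : A) : K) / u, hAv _ (a + b).2⟩ : v) =
            ⟨(a : K) / u, hAv a a.2⟩ + ⟨(b : K) / u, hAv b b.2⟩ := Subtype.ext (add_div _ _ _)
        rw [h2, map_add]
      map_smul' := fun c a => by
        have h0 : ((c • a : A) : K) / u = algebraMap k K c * ((a : K) / u) := by
          rw [Submodule.coe_smul, Algebra.smul_def, mul_div_assoc]
        have h2 : (⟨((c • a : A) : K) / u, hAv _ (c • a).2⟩ : v) =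
            ⟨algebraMap k K c, hv c⟩ * ⟨(a : K) / u, hAv a a.2⟩ := Subtype.ext h0
        rw [h2, map_mul, hk, RingHom.id_apply, Algebra.smul_def] }
  have hψ : ∀ a : A, ψ a = φ ⟨(a : K) / u, hAv a a.2⟩ := fun _ => rfl
  let ι : M →ₗ[k] κ := (IsScalarTower.toAlgHom k M κ).toLinearMap
  have hι : Function.Injective ι := (algebraMap M κ).injective
  -- submodules of `A`
  let sub : Submodule k K → Submodule k A := fun B => B.comap A.subtype
  have hCM : ∀ B : Submodule k K, B ≤ A →
      (CM φ hv hk u B : Submodule k M) = ((sub B).map ψ).comap ι := by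
    intro B hB
    ext x
    constructor
    · rintro ⟨a, ha, h1, h2⟩
      exact ⟨⟨a, hB ha⟩, ha, h2⟩
    · rintro ⟨a, ha, h2⟩
      exact ⟨a, ha, hAv a a.2, h2⟩
  have hsubA : sub A = ⊤ := by
    ext x
    exact ⟨fun _ => trivial, fun _ => x.2⟩
  have hmapA : (sub A).map ψ = LinearMap.range ψ := by
    rw [hsubA, Submodule.map_top]
  have hfin : ∀ B : Submodule k K, B ≤ A → (CM φ hv hk u B : Submodule k M).FG := by
    intro B hB
    rw [hCM B hB, Submodule.fg_iff_finiteDimensional]
    let χ : ((sub B).map ψ).comap ι →ₗ[k] ((sub B).map ψ) :=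
      (ι.comp (((sub B).map ψ).comap ι).subtype).codRestrict _ (fun x => x.2)
    refine FiniteDimensional.of_injective χ ?_
    intro x y hxy
    apply Subtype.ext
    exact hι (congrArg Subtype.val hxy)
  refine ⟨hfin A le_rfl, fun X hX => ?_⟩
  -- dimension of the restrictions
  have h1 : finrank k (CM φ hv hk u A' : Submodule k M) =
      finrank k ((sub A').map ψ ⊓ LinearMap.range ι : Submodule k κ) := by
    rw [hCM A' hA']
    exact finrank_comap_inj ι hι _
  have h2 : finrank k (CM φ hv hk u A : Submodule k M) =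
      finrank k (LinearMap.range ψ ⊓ LinearMap.range ι : Submodule k κ) := by
    rw [hCM A le_rfl, hmapA]
    exact finrank_comap_inj ι hι _
  have h3 := lin1 (R := LinearMap.range ι) (B := LinearMap.range ψ) (B' := (sub A').map ψ)
    (LinearMap.map_le_range)
  have hsup : A' ⊔ Kr ≤ A := sup_le hA' hKr
  have h4 : (sub (A' ⊔ Kr)).map ψ = (sub A').map ψ := by
    refine le_antisymm ?_ (Submodule.map_mono (Submodule.comap_mono le_sup_left))
    rintro _ ⟨a, ha, rfl⟩
    have ha' : (a : K) ∈ A' ⊔ Kr := ha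
    obtain ⟨y, hy, z, hz, hyz⟩ := Submodule.mem_sup.1 ha'
    refine ⟨⟨y, hA' hy⟩, hy, ?_⟩
    have h5 : a = ⟨y, hA' hy⟩ + ⟨z, hKr hz⟩ := Subtype.ext hyz.symm
    have h6 : ψ ⟨z, hKr hz⟩ = 0 := by
      rw [hψ]
      exact (hφ.zero _).2 (hKv z hz)
    rw [h5, map_add, h6, add_zero]
  have h5 := lin2 ψ (sub (A' ⊔ Kr))
  rw [h4] at h5
  have h6 : finrank k (sub (A' ⊔ Kr)) = finrank k (A' ⊔ Kr : Submodule k K) :=
    LinearEquiv.finrank_eq (Submodule.comapSubtypeEquivOfLe hsup)
  rw [h6] at h5
  rw [h1, h2] at hX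
  omega

end Pool.Agent.TG9
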