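import Pool.Agent.Lib.TG9.Defs3
import Pool.Agent.Lib.TG_h62.DV

/-!
# TANK G, backup track BC9: row NUM
-/

set_option autoImplicit false

namespace Pool.Agent.TG9

open Filter Topology
open Pool.Agent.TGh62 (pow_le_fact_choose)

/-- `Q (m + c) ^ n + c' < (Q + 1) m ^ n` for large `m`. -/
theorem eventually_lt9 (Q c c' n : ℕ) (hn : 0 < n) :
    ∀ᶠ m : ℕ in atTop, Q * (m + c) ^ n + c' < (Q + 1) * m ^ n := by
  have h1 : Tendsto (fun m : ℕ => (Q : ℝ) * (1 + (c : ℝ) / m) ^ n + c' / (m : ℝ) ^ n) atTop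
      (𝓝 ((Q : ℝ) * (1 + 0) ^ n + 0)) := by
    refine Tendsto.add (Tendsto.const_mul _ (Tendsto.pow (Tendsto.const_add _ ?_) n)) ?_
    · exact tendsto_const_div_atTop_nhds_zero_nat _
    · refine Tendsto.div_atTop tendsto_const_nhds ?_
      exact (tendsto_pow_atTop (by omega)).comp tendsto_natCast_atTop_atTop
  have h2 : (Q : ℝ) * (1 + 0) ^ n + 0 < Q + 1 := by
    rw [add_zero, add_zero, one_pow, mul_one]
    linarith
  filter_upwards [h1.eventually (eventually_lt_nhds h2), eventually_ge_atTop 1] with m hm hm1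
  have hm0 : (0 : ℝ) < m := by
    have : 0 < m := by omega
    exact_mod_cast this
  have hmn : (0 : ℝ) < (m : ℝ) ^ n := by positivity
  have h3 : ((Q : ℝ) * (1 + (c : ℝ) / m) ^ n + c' / (m : ℝ) ^ n) * (m : ℝ) ^ n =
      Q * ((m : ℝ) + c) ^ n + c' := by
    have h4 : (m : ℝ) + c = (1 + (c : ℝ) / m) * m := by
      field_simp
    rw [h4, mul_pow, add_mul, div_mul_cancel₀ _ hmn.ne']
    ring
  have h4 := mul_lt_mul_of_pos_right hm hmn
  rw [h3] at h4
  exact_mod_cast h4

theorem tendsto_div9 (T e : ℕ) (hT : 0 < T) : Tendsto (fun N : ℕ => N / T - e) atTop atTop := by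
  refine tendsto_atTop.2 fun b => ?_
  filter_upwards [eventually_ge_atTop (T * (b + e))] with N hN
  have h1 : b + e ≤ N / T := (Nat.le_div_iff_mul_le hT).2 (by rwa [mul_comm])
  omega

theorem sum_choose9 (n M : ℕ) : ∑ m ∈ Finset.range M, (m + n).choose n = (M + n).choose (n + 1) := by
  induction M with
  | zero => simp
  | succ M ih =>
    rw [Finset.sum_range_succ, ih]
    have h1 : M + 1 + n = (M + n) + 1 := by omega
    rw [h1, Nat.choose_succ_succ', add_comm]

theorem pow_le_choose9 (n M : ℕ) (hn : 0 < n) (hM : 1 ≤ M) :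
    M ^ n ≤ n.factorial * (M + (n - 1)).choose n := by
  obtain ⟨r, rfl⟩ : ∃ r, M = r + 1 := ⟨M - 1, by omega⟩
  have h := Nat.pow_succ_le_ascFactorial (r + 1) n
  rw [Nat.ascFactorial_eq_factorial_mul_choose] at h
  have h1 : r + 1 + (n - 1) = r + n := by omega
  rw [h1]
  exact h

/-- **ROW NUM.** -/
theorem numStmt : NumStmt := by
  intro n T r C φ hn hT
  set Q := C * n.factorial * T ^ n with hQ
  refine ⟨?_, ?_⟩
  · rintro hφ ⟨e, he⟩ hfr
    by_contra hcon
    push Not at hcon
    have h1 := (tendsto_div9 T e hT).eventually (he.and (eventually_lt9 Q (e + 1) 0 n hn))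
    have h2 : ∀ᶠ N : ℕ in atTop, T * (e + 1) ≤ N := eventually_ge_atTop _
    obtain ⟨N, hN1, ⟨hN2, hN3⟩, hN4⟩ := (hfr.and_eventually (h1.and h2)).exists
    set m := N / T - e with hm
    have h3 : e + 1 ≤ N / T := (Nat.le_div_iff_mul_le hT).2 (by rwa [mul_comm])
    have h4 : m + e = N / T := by omega
    rw [h4] at hN2
    have h5 : T * (N / T) ≤ N := Nat.mul_div_le N T
    have h6 : φ (T * (N / T)) ≤ φ N := hφ h5
    have h7 : N ≤ T * (m + (e + 1)) := by
      have := Nat.lt_mul_div_succ N hT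
      have h8 : m + (e + 1) = N / T + 1 := by omega
      rw [h8]
      exact this.le
    have h8 : r * (m + n).choose n < C * N ^ n := lt_of_le_of_lt (hN2.trans h6) hN1
    have h9 : m ^ n ≤ n.factorial * (m + n).choose n := by
      have h5 : ((m : ℝ)) ^ n ≤ n.factorial * ((m + n).choose n : ℕ) := pow_le_fact_choose n m
      exact_mod_cast h5
    have h10 : N ^ n ≤ (T * (m + (e + 1))) ^ n := Nat.pow_le_pow_left h7 n
    have h11 : (Q + 1) * m ^ n ≤ Q * (m + (e + 1)) ^ n := by
      calc (Q + 1) * m ^ n ≤ r * (n.factorial * (m + n).choose n) :=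
            Nat.mul_le_mul hcon h9
        _ = n.factorial * (r * (m + n).choose n) := by ring
        _ ≤ n.factorial * (C * (T * (m + (e + 1))) ^ n) :=
            Nat.mul_le_mul le_rfl (h8.le.trans (Nat.mul_le_mul le_rfl h10))
        _ = Q * (m + (e + 1)) ^ n := by rw [hQ, mul_pow]; ring
    rw [add_zero] at hN3
    omega
  · rintro ⟨e, he⟩ hfr
    by_contra hcon
    push Not at hcon
    obtain ⟨m₀, hm₀⟩ := eventually_atTop.1 he
    set c₀ := n.factorial * (r * (m₀ + (n - 1)).choose n) with hc₀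
    have h1 := (tendsto_div9 T e hT).eventually
      ((eventually_ge_atTop (m₀ + 1)).and (eventually_lt9 Q (e + 1) c₀ n hn))
    have h2 : ∀ᶠ N : ℕ in atTop, T * (e + 1) ≤ N := eventually_ge_atTop _
    obtain ⟨N, hN1, ⟨hN2, hN3⟩, hN4⟩ := (hfr.and_eventually (h1.and h2)).exists
    set m := N / T - e with hm
    have h3 : e + 1 ≤ N / T := (Nat.le_div_iff_mul_le hT).2 (by rwa [mul_comm])
    have h4 : m + e = N / T := by omega
    have h5 : T * (N / T) ≤ N := Nat.mul_div_le N T
    have h7 : N ≤ T * (m + (e + 1)) := by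
      have := Nat.lt_mul_div_succ N hT
      have h8 : m + (e + 1) = N / T + 1 := by omega
      rw [h8]
      exact this.le
    have hn1 : n - 1 + 1 = n := by omega
    have hsum : ∀ M, ∑ i ∈ Finset.range M, (i + (n - 1)).choose (n - 1) =
        (M + (n - 1)).choose n := by
      intro M
      have := sum_choose9 (n - 1) M
      rw [hn1] at this
      exact this
    have h8 : ∑ i ∈ Finset.Ico m₀ m, r * (i + (n - 1)).choose (n - 1) ≤
        ∑ i ∈ Finset.range N, φ i := by
      calc ∑ i ∈ Finset.Ico m₀ m, r * (i + (n - 1)).choose (n - 1) ≤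
            ∑ i ∈ Finset.Ico m₀ m, φ (T * (i + e)) :=
            Finset.sum_le_sum fun i hi => hm₀ i (Finset.mem_Ico.1 hi).1
        _ = ∑ j ∈ (Finset.Ico m₀ m).image (fun i => T * (i + e)), φ j := by
            rw [Finset.sum_image]
            intro a _ b _ hab
            have := Nat.eq_of_mul_eq_mul_left hT hab
            omega
        _ ≤ ∑ i ∈ Finset.range N, φ i := by
            refine Finset.sum_le_sum_of_subset ?_
            intro j hj
            rw [Finset.mem_image] at hj
            obtain ⟨i, hi, rfl⟩ := hj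
            rw [Finset.mem_Ico] at hi
            rw [Finset.mem_range]
            have h9 : i + e + 1 ≤ N / T := by omega
            have h10 : T * (i + e + 1) ≤ T * (N / T) := Nat.mul_le_mul le_rfl h9
            rw [mul_add, mul_one] at h10
            omega
    have h9 : r * (m + (n - 1)).choose n ≤
        ∑ i ∈ Finset.Ico m₀ m, r * (i + (n - 1)).choose (n - 1) +
          r * (m₀ + (n - 1)).choose n := by
      rw [← hsum m, ← hsum m₀, ← Finset.mul_sum, ← mul_add, add_comm,
        Finset.sum_range_add_sum_Ico _ (by omega : m₀ ≤ m)]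
    have h10 : N ^ n ≤ (T * (m + (e + 1))) ^ n := Nat.pow_le_pow_left h7 n
    have h11 : (Q + 1) * m ^ n ≤ Q * (m + (e + 1)) ^ n + c₀ := by
      calc (Q + 1) * m ^ n ≤ r * (n.factorial * (m + (n - 1)).choose n) :=
            Nat.mul_le_mul hcon (pow_le_choose9 n m hn (by omega))
        _ = n.factorial * (r * (m + (n - 1)).choose n) := by ring
        _ ≤ n.factorial * (C * (T * (m + (e + 1))) ^ n + r * (m₀ + (n - 1)).choose n) := by
            refine Nat.mul_le_mul le_rfl (h9.trans (Nat.add_le_add_right ?_ _))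
            exact h8.trans (hN1.le.trans (Nat.mul_le_mul le_rfl h10))
        _ = Q * (m + (e + 1)) ^ n + c₀ := by rw [hQ, hc₀, mul_pow]; ring
    omega

end Pool.Agent.TG9
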