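import Pool.Agent.Lib.TG9.Mono
import Pool.Agent.Lib.TG9.AbsE
import Pool.Agent.Lib.TG9.Num9
import Pool.Agent.Lib.TG9.Defs4
import Pool.Agent.Lib.TG_h55.Chart
import Pool.Agent.Lib.TG_h77.LDeg

/-!
# TANK G, BC9: ROW R2, the local degrees of `K` over `P^n`
-/

set_option autoImplicit false

namespace Pool.Agent.TG9

open Pool.Agent.TG (Ov ZDim IsMin IsModel Bir ch chN LB KB PB PP PDiv RV stab LDeg ProjP)
open Pool.Agent.LU2 (locV)
open Pool.Agent.TG15 (Gt Tp hx smulK)
open Pool.Agent.TG55 (wP hP wP_coe PP_eq wP_gen range_hP)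
open Module Filter MvPolynomial

universe u

section Homog

variable {k E : Type u} [Field k] [Field E] [Algebra k E] {n : ℕ}

theorem aeval_mul_hom {s : ℕ} {P : MvPolynomial (Fin (n + 1)) k} (hP : P.IsHomogeneous s)
    (c : E) (y : Fin (n + 1) → E) : aeval (fun i => c * y i) P = c ^ s * aeval y P := by
  rw [aeval_def, aeval_def, eval₂_eq', eval₂_eq', Finset.mul_sum]
  refine Finset.sum_congr rfl fun d hd => ?_
  have h1 : d.degree = s := by
    have h0 := hP (mem_support_iff.1 hd)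
    rw [Finsupp.degree_eq_weight_one (R := ℕ)]
    exact h0
  have h2 : ∏ i, (c * y i) ^ d i = c ^ s * ∏ i, y i ^ d i := by
    rw [← h1, Finsupp.degree_eq_sum, ← Finset.prod_pow_eq_pow_sum, ← Finset.prod_mul_distrib]
    exact Finset.prod_congr rfl fun i _ => mul_pow _ _ _
  rw [h2]
  ring

theorem aeval_div_hom {s : ℕ} {P : MvPolynomial (Fin (n + 1)) k} (hP : P.IsHomogeneous s)
    (c : E) (y : Fin (n + 1) → E) : aeval (fun i => y i / c) P = aeval y P / c ^ s := by
  have h1 : (fun i => y i / c) = fun i => c⁻¹ * y i := by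
    funext i
    rw [div_eq_inv_mul]
  rw [h1, aeval_mul_hom hP, inv_pow, div_eq_inv_mul]

/-- The chain bound is homogeneous. -/
theorem SecAt.div {s d : ℕ} {h : Fin (n + 1) → MvPolynomial (Fin (n + 1)) k}
    (hh : ∀ i, (h i).IsHomogeneous s) {y : Fin (n + 1) → E} {V : ValuationSubring E}
    (hS : SecAt s d h y V) {c : E} (hc : c ≠ 0) : SecAt s d h (fun i => y i / c) V := by
  intro a₀ ha₀ hne
  have e : ∀ a b, y a / c / (y b / c) = y a / y b := fun a b => by
    rw [div_div_div_cancel_right₀ hc]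
  have hne' : y a₀ ≠ 0 := fun h0 => hne (by change y a₀ / c = 0; rw [h0, zero_div])
  obtain ⟨i₀, hi₀, h1, h2⟩ := hS a₀ (fun a => by rw [← e]; exact ha₀ a) hne'
  refine ⟨i₀, hi₀, ?_, fun a β hβ => ?_⟩
  · rw [aeval_div_hom (hh i₀), map_div₀, map_div₀, div_pow, h1, map_pow]
  · rw [e] at hβ ⊢
    obtain ⟨i, γ, hi, h3, h4⟩ := h2 a β hβ
    refine ⟨i, γ, hi, ?_⟩
    rw [aeval_div_hom (hh i), aeval_div_hom (hh i₀), div_div_div_cancel_right₀ (pow_ne_zero _ hc)]
    exact ⟨h3, h4⟩

end Homog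

section Top

variable {k K : Type u} [Field k] [Field K] [Algebra k K]

theorem isRes_top : IsRes ((⊤ : ValuationSubring K).subtype) where
  surj := fun x => ⟨⟨x, ValuationSubring.mem_top x⟩, rfl⟩
  zero := fun x => by
    constructor
    · intro h
      have h1 : (x : K) = 0 := h
      rw [h1, map_zero]
      exact zero_lt_one
    · intro h
      by_contra hne
      have hne' : (x : K) ≠ 0 := hne
      rw [TG.val_lt_one_iff' _ hne'] at h
      exact h (ValuationSubring.mem_top _)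

theorem mono_bot (hcl : ∀ P : Submodule k K, P.FG → (cl P).FG) {H : Submodule k K} (hH : H.FG)
    (hb : H ≠ ⊥) : Monotone fun N : ℕ => finrank k (cl (H ^ N)) := by
  refine monotone_nat_of_le_succ fun N => ?_
  obtain ⟨g, hg, hg0⟩ := Submodule.exists_mem_ne_zero_of_ne_bot hb
  set μ : K →ₗ[k] K := LinearMap.mulLeft k g with hμ
  have hμinj : Function.Injective μ := fun x y hxy => mul_left_cancel₀ hg0 hxy
  have hf2 : FiniteDimensional k (cl (H ^ (N + 1))) :=
    Module.Finite.iff_fg.2 (hcl _ (hH.pow (N + 1)))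
  have h1 : finrank k ((cl (H ^ N)).map μ) = finrank k (cl (H ^ N)) :=
    (LinearEquiv.finrank_eq (Submodule.equivMapOfInjective μ hμinj _)).symm
  have hsub1 : (cl (H ^ N)).map μ ≤ cl (H ^ (N + 1)) := by
    rintro _ ⟨x, hx, rfl⟩
    have := pow_mul_mem_cl hg hx 1
    rw [pow_one, pow_one, ← pow_succ'] at this
    exact this
  change finrank k (cl (H ^ N)) ≤ finrank k (cl (H ^ (N + 1)))
  rw [← h1]
  exact Submodule.finrank_mono hsub1

/-- MONO without the condition `H' ≠ ⊥`. -/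
theorem mono_all [Infinite k] (hcl : ∀ P : Submodule k K, P.FG → (cl P).FG)
    {H H' : Submodule k K} (hH : H.FG) (hle : H' ≤ H) (hb : H ≠ ⊥) :
    Monotone fun N : ℕ => finrank k (cl (H ^ N)) - finrank k (cl (H' ^ N)) := by
  by_cases hb' : H' = ⊥
  · subst hb'
    refine monotone_nat_of_le_succ fun N => ?_
    have h1 : finrank k (cl ((⊥ : Submodule k K) ^ (N + 1))) = 0 := by
      rw [← Submodule.zero_eq_bot, zero_pow (Nat.succ_ne_zero N), Submodule.zero_eq_bot, cl_bot,
        finrank_bot]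
    rw [h1, Nat.sub_zero]
    exact (Nat.sub_le _ _).trans (mono_bot hcl hH hb (Nat.le_succ N))
  · exact monotone_nat_of_le_succ fun N => mono_succ hcl hH hle hb' N

end Top

section Main

variable {k K : Type u} [Field k] [Field K] [Algebra k K]

theorem isMin_top {P : Submodule k K} {g : K} (hg : g ∈ P) (hg0 : g ≠ 0) : IsMin ⊤ P g :=
  ⟨hg, hg0, fun _ _ => ValuationSubring.mem_top _⟩

/-- The homogeneous coordinates `h i (f)`. -/
theorem hP_eq {m' : ℕ} (f : Fin (m' + 1 + 1) → K)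
    (h : Fin (m' + 1 + 1) → MvPolynomial (Fin (m' + 1 + 1)) k) (h0 : aeval f (h 0) ≠ 0)
    (i : Fin (m' + 1 + 1)) : hP (bb f h) (zz f h) i = aeval f (h i) / aeval f (h 0) := by
  refine Fin.lastCases ?_ (fun i => ?_) i
  · simp [hP, zz]
  · simp only [hP, Fin.snoc_castSucc]
    refine Fin.cases ?_ (fun i => ?_) i
    · change (1 : K) = _
      have e : (Fin.castSucc 0 : Fin (m' + 1 + 1)) = 0 := rfl
      rw [e, div_self h0]
    · change bb f h i = _
      unfold bb
      rfl

/-- **ROW R2.** -/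
theorem r2Stmt (hdeg : ∀ (F : Type u) [Field F] [Algebra k F] [Algebra F K]
    [IsScalarTower k F K] (n : ℕ), DegStmt k K K K F n n) (h6 : R6Stmt k K) : R2Stmt k K := by
  intro m' p A₀ L c τ c' m q W f h S v₀ hv₀ N _ _ _ _ _ _ j V' hV'
  have halg := S.closed
  have hinf : Infinite k := IsAlgClosed.instInfinite
  have hcl := (clStmt k K S.closed S.fg).1
  obtain ⟨-, -, hfin, -⟩ := h6 m' p A₀ L c τ c' m q W f h S
  have hWfg : W.FG := by
    have h1 : FiniteDimensional k (L ^ m : Submodule k K) :=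
      Module.Finite.iff_fg.2 (S.dat.fg.pow m)
    exact Module.Finite.iff_fg.1 (Submodule.finiteDimensional_of_le S.W_le)
  have hf0 : ∃ a₁, f a₁ ≠ 0 := by
    obtain ⟨a₁, h1⟩ := S.good.bpf ⊤ (fun c => ValuationSubring.mem_top _)
    exact ⟨a₁, h1.ne⟩
  obtain ⟨a₁, ha₁⟩ := hf0
  have hWL : W * L ≠ ⊥ := by
    intro h0
    obtain ⟨w, hw, hw0⟩ := Submodule.exists_mem_ne_zero_of_ne_bot S.W_ne
    have h1 := Submodule.mul_mem_mul hw S.dat.one
    rw [mul_one, h0, Submodule.mem_bot] at h1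
    exact hw0 h1
  have hWLfg : (W * L).FG := hWfg.mul S.dat.fg
  -- `V' ∩ K`
  have hz : ZDim k (V'.comap (j : K →+* N)) := by
    have h1 : ZDim k V' := by
      apply TG77.zdim_up (F := KB k (bb f h) (zz f h))
      rw [hV']
      exact hv₀
    have hj : ∀ c : k, j (algebraMap k K c) = algebraMap k N c := fun c => by
      rw [IsScalarTower.algebraMap_apply k (KB k (bb f h) (zz f h)) K, j.commutes,
        ← IsScalarTower.algebraMap_apply]
    refine ⟨fun c => ?_, fun x hx => ?_⟩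
    · change j (algebraMap k K c) ∈ V'
      rw [hj]
      exact h1.ov c
    · obtain ⟨c, hc⟩ := h1.res (j x) hx
      refine ⟨c, ?_⟩
      rw [Abs.comap_lt_one', map_sub]
      have := hj c
      change V'.valuation (j x - j (algebraMap k K c)) < 1
      rw [hj]
      exact hc
  have hPP := PP_eq (k := k) (bb f h) (zz f h)
  have hrange : {z : KB k (bb f h) (zz f h) | ∃ i : Fin (m' + 1 + 1), (i : ℕ) ≤ m' + 1 ∧
      z = wP k (bb f h) (zz f h) i} = Set.range (wP k (bb f h) (zz f h)) := by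
    ext z
    constructor
    · rintro ⟨i, _, rfl⟩; exact ⟨i, rfl⟩
    · rintro ⟨i, rfl⟩; exact ⟨i, by omega, rfl⟩
  have hw0 : wP k (bb f h) (zz f h) 0 = 1 := by
    apply Subtype.ext
    rw [wP_coe, TG55.hP_zero]
    rfl
  obtain ⟨V, hVz, -, hV⟩ := hdeg (KB k (bb f h) (zz f h)) (m' + 1) S.closed S.fg S.trdeg S.pos
    le_rfl L W S.dat.fg S.dat.one S.dat.bir hWfg S.W_ne (2 * (m' + 1) + 3) (m' + 1 + 1) f h
    (by omega) (by omega) (by nlinarith) S.good.mem S.hom S.good.bpf S.good.c1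
    ⊤ (⊤ : ValuationSubring K).subtype isRes_top (fun c => ValuationSubring.mem_top _)
    (fun c => rfl) (Or.inl rfl) (fun x => ⟨1, one_pos, x, by rw [pow_one]; rfl⟩)
    (fun a => f a / f a₁) a₁ (isMin_top (S.good.mem a₁) ha₁)
    (fun a => ⟨ValuationSubring.mem_top _, rfl⟩)
    (fun B hB => (S.secK B hB).div S.hom ha₁) (wP k (bb f h) (zz f h)) hw0
    (fun i _ => by
      rw [aeval_div_hom (S.hom 0), aeval_div_hom (S.hom i)]
      change (wP k (bb f h) (zz f h) i : K) * _ = _
      rw [wP_coe, hP_eq f h S.h_ne, div_mul_div_comm, mul_comm (aeval f (h i)),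
        mul_div_mul_left _ _ S.h_ne])
    (TG55.trdeg_KB S.trdeg)
    (by
      rw [hrange]
      have h1 := wP_gen (k := k) (bb f h) (zz f h)
      rw [hw0] at h1
      simpa only [div_one] using h1)
    (PP k (bb f h) (zz f h)) (by rw [hrange]; exact hPP) N j V' hz
  rw [hV'] at hV
  have hxle : hx V W ≤ W := fun x hx => hx.1
  have hcount := hV _ le_rfl
  obtain ⟨e₀, he₀⟩ := hcount
  have hmono : Monotone fun N : ℕ => finrank k (cl ((W * L) ^ N)) -
      finrank k (cl ((hx V W * L) ^ N)) :=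
    mono_all hcl hWLfg (mul_le_mul' hxle le_rfl) hWL
  have hnum := (numStmt (m' + 1) ((2 * (m' + 1) + 3) * (m' + 1 + 1))
    (j.fieldRange.fixingSubgroup.relIndex (stab V' (RV v₀ (PP k (bb f h) (zz f h)))))
    (C9 (m' + 1) (2 * (m' + 1) + 3)) _ S.pos (by positivity)).1 hmono ?_ ?_
  · rw [d9]
    exact hnum
  · refine ⟨e₀, ?_⟩
    filter_upwards [he₀ e₀ le_rfl] with i hi
    have h1 := hi ⊥ bot_le (fun a ha => Or.inl ha)
    rw [sup_bot_eq] at h1
    omega
  · refine (S.x V hVz).mono fun N hN => ?_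
    unfold XAt at hN
    have hfN : FiniteDimensional k (cl ((W * L) ^ N)) :=
      Module.Finite.iff_fg.2 (hcl _ (hWLfg.pow N))
    have h1 : finrank k (cl ((hx V W * L) ^ N)) ≤ finrank k (cl ((W * L) ^ N)) :=
      Submodule.finrank_mono (cl_mono (pow_le_pow_left' (mul_le_mul' hxle le_rfl) N))
    change finrank k (cl ((W * L) ^ N)) - finrank k (cl ((hx V W * L) ^ N)) < _
    omega

end Main

end Pool.Agent.TG9
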