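import Pool.Agent.Lib.TG9.Defs3
import Pool.Agent.Lib.TG_h62.DV
import Pool.Agent.Lib.ALL_h35.InDiv

/-!
# TANK G, backup track BC9: row RAM

The degree of a projection by forms of degree `s` of a component of the zero set of a form of
degree `D` is at most `D * s ^ (n - 1)`, by counting forms.
-/

set_option autoImplicit false

namespace Pool.Agent.TG9

open Module MvPolynomial
open Pool.Agent.ALL (finrank_homog finite_homog)
open Pool.Agent.TGh62 (rf grow_lower fact_choose_le limit_le pow_le_fact_choose)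

universe u

section

variable {k E : Type u} [Field k] [Field E] [Algebra k E] {n : ℕ}

/-- The values of the forms of degree `m`. -/
noncomputable def Av (k : Type u) {E : Type u} [Field k] [Field E] [Algebra k E] {n : ℕ} (y : Fin (n + 1) → E)
    (m : ℕ) : Submodule k E :=
  (homogeneousSubmodule (Fin (n + 1)) k m).map (aeval y : MvPolynomial (Fin (n + 1)) k →ₐ[k] E).toLinearMap

theorem mem_Av {y : Fin (n + 1) → E} {m : ℕ} {x : E} :
    x ∈ Av k y m ↔ ∃ P : MvPolynomial (Fin (n + 1)) k, P.IsHomogeneous m ∧ aeval y P = x :=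
  Iff.rfl

theorem finite_Av (y : Fin (n + 1) → E) (m : ℕ) : FiniteDimensional k (Av k y m) := by
  have := finite_homog (k := k) (n + 1) m
  exact Module.Finite.map _ _

theorem mul_mem_Av {y : Fin (n + 1) → E} {a b : ℕ} {x z : E} (hx : x ∈ Av k y a)
    (hz : z ∈ Av k y b) : x * z ∈ Av k y (a + b) := by
  rw [mem_Av] at hx hz ⊢
  obtain ⟨P, hP, rfl⟩ := hx
  obtain ⟨Q, hQ, rfl⟩ := hz
  exact ⟨P * Q, IsHomogeneous.mul hP hQ, map_mul _ _ _⟩

theorem one_mem_Av (y : Fin (n + 1) → E) : (1 : E) ∈ Av k y 0 := by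
  rw [mem_Av]
  exact ⟨1, isHomogeneous_one _ _, map_one _⟩

theorem Av_mul_le (y : Fin (n + 1) → E) (a b : ℕ) : Av k y a * Av k y b ≤ Av k y (a + b) :=
  Submodule.mul_le.2 fun _ hx _ hz => mul_mem_Av hx hz

theorem Av_pow_le (y : Fin (n + 1) → E) (s r : ℕ) : Av k y s ^ r ≤ Av k y (s * r) := by
  induction r with
  | zero =>
    rw [pow_zero, mul_zero, Submodule.one_le]
    exact one_mem_Av y
  | succ r ih =>
    rw [pow_succ, mul_add, mul_one]
    exact (mul_le_mul' ih le_rfl).trans (Av_mul_le y _ _)

/-- Relations cut down the number of the values. -/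
theorem finrank_Av_add {y : Fin (n + 1) → E} {G : MvPolynomial (Fin (n + 1)) k} {D M : ℕ}
    (hG : G ≠ 0) (hD : G.IsHomogeneous D) (hy : aeval y G = 0) (hM : D ≤ M) :
    finrank k (Av k y M) + (M - D + n).choose n ≤ (M + n).choose n := by
  have h1 := finite_homog (k := k) (n + 1) M
  have h2 := finite_homog (k := k) (n + 1) (M - D)
  let φ : homogeneousSubmodule (Fin (n + 1)) k M →ₗ[k] E :=
    (aeval y : MvPolynomial (Fin (n + 1)) k →ₐ[k] E).toLinearMap.comp
      (homogeneousSubmodule (Fin (n + 1)) k M).subtype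
  have hφ : LinearMap.range φ = Av k y M := by
    rw [LinearMap.range_comp, Submodule.range_subtype]
    rfl
  have h3 := LinearMap.finrank_range_add_finrank_ker φ
  rw [hφ, finrank_homog] at h3
  let ψ : homogeneousSubmodule (Fin (n + 1)) k (M - D) →ₗ[k] LinearMap.ker φ :=
    { toFun := fun Q => ⟨⟨G * Q.1, by
        have := IsHomogeneous.mul hD ((mem_homogeneousSubmodule _ _).1 Q.2)
        rw [Nat.add_sub_cancel' hM] at this
        exact this⟩, by
        rw [LinearMap.mem_ker]
        change aeval y (G * Q.1) = 0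
        rw [map_mul, hy, zero_mul]⟩
      map_add' := fun Q Q' => by
        apply Subtype.ext
        apply Subtype.ext
        exact mul_add G Q.1 Q'.1
      map_smul' := fun c Q => by
        apply Subtype.ext
        apply Subtype.ext
        exact mul_smul_comm c G Q.1 }
  have hψ : Function.Injective ψ := by
    intro Q Q' h
    have h4 : G * Q.1 = G * Q'.1 := congrArg (fun z => z.1.1) h
    exact Subtype.ext (mul_left_cancel₀ hG h4)
  have h4 := LinearMap.finrank_le_finrank_of_injective hψ
  rw [finrank_homog] at h4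
  omega

/-- The elements of the field of the ratios of the `y a` have denominators. -/
theorem exists_den {y : Fin (n + 1) → E} {x : E}
    (hx : x ∈ IntermediateField.adjoin k {x : E | ∃ a b, x = y a / y b}) :
    ∃ (c : ℕ) (q : E), q ∈ Av k y c ∧ q ≠ 0 ∧ q * x ∈ Av k y c := by
  have h1 : (1 : E) ∈ Av k y 0 := one_mem_Av y
  have hX : ∀ a, y a ∈ Av k y 1 := fun a => ⟨X a, isHomogeneous_X _ _, aeval_X _ _⟩
  induction hx using IntermediateField.adjoin_induction with
  | mem x hx =>
    obtain ⟨a, b, rfl⟩ := hx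
    by_cases hb : y b = 0
    · refine ⟨0, 1, h1, one_ne_zero, ?_⟩
      rw [hb, div_zero, mul_zero]
      exact Submodule.zero_mem _
    · refine ⟨1, y b, hX b, hb, ?_⟩
      rw [mul_div_cancel₀ _ hb]
      exact hX a
  | algebraMap c =>
    refine ⟨0, 1, h1, one_ne_zero, ?_⟩
    rw [one_mul, Algebra.algebraMap_eq_smul_one]
    exact Submodule.smul_mem _ _ h1
  | add x z _ _ hx hz =>
    obtain ⟨c, q, hq, hq0, hqx⟩ := hx
    obtain ⟨d, r, hr, hr0, hrz⟩ := hz
    refine ⟨c + d, q * r, mul_mem_Av hq hr, mul_ne_zero hq0 hr0, ?_⟩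
    have h2 : q * r * (x + z) = (q * x) * r + q * (r * z) := by ring
    rw [h2]
    exact Submodule.add_mem _ (mul_mem_Av hqx hr) (mul_mem_Av hq hrz)
  | inv x _ hx =>
    obtain ⟨c, q, hq, hq0, hqx⟩ := hx
    by_cases h0 : x = 0
    · refine ⟨0, 1, h1, one_ne_zero, ?_⟩
      rw [h0, inv_zero, mul_zero]
      exact Submodule.zero_mem _
    · refine ⟨c, q * x, hqx, mul_ne_zero hq0 h0, ?_⟩
      rw [mul_assoc, mul_inv_cancel₀ h0, mul_one]
      exact hq
  | mul x z _ _ hx hz =>
    obtain ⟨c, q, hq, hq0, hqx⟩ := hx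
    obtain ⟨d, r, hr, hr0, hrz⟩ := hz
    refine ⟨c + d, q * r, mul_mem_Av hq hr, mul_ne_zero hq0 hr0, ?_⟩
    have h2 : q * r * (x * z) = (q * x) * (r * z) := by ring
    rw [h2]
    exact mul_mem_Av hqx hrz

theorem exists_common_den {y : Fin (n + 1) → E} {ι : Type*} (θ : ι → E) (s : Finset ι)
    (hθ : ∀ i, θ i ∈ IntermediateField.adjoin k {x : E | ∃ a b, x = y a / y b}) :
    ∃ (c : ℕ) (q : E), q ∈ Av k y c ∧ q ≠ 0 ∧ ∀ i ∈ s, q * θ i ∈ Av k y c := by
  classical
  induction s using Finset.induction_on with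
  | empty =>
    exact ⟨0, 1, one_mem_Av y, one_ne_zero, by simp⟩
  | insert j s _ ih =>
    obtain ⟨c, q, hq, hq0, hqs⟩ := ih
    obtain ⟨d, r, hr, hr0, hrj⟩ := exists_den (hθ j)
    refine ⟨c + d, q * r, mul_mem_Av hq hr, mul_ne_zero hq0 hr0, fun i hi => ?_⟩
    rw [Finset.mem_insert] at hi
    rcases hi with rfl | hi
    · rw [mul_assoc]
      exact mul_mem_Av hq hrj
    · rw [mul_right_comm]
      exact mul_mem_Av (hqs i hi) hr

/-- `n` generators of a field of transcendence degree `n` are algebraically independent. -/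
theorem algInd_of_trdeg {m : ℕ} (t : Fin m → E) (F : IntermediateField k E)
    (hF : F = IntermediateField.adjoin k (Set.range t)) (htr : Algebra.trdeg k F = (m : Cardinal)) :
    AlgebraicIndependent k t := by
  have htF : ∀ i, t i ∈ F := fun i => by
    rw [hF]; exact IntermediateField.subset_adjoin _ _ ⟨i, rfl⟩
  let t' : Fin m → F := fun i => ⟨t i, htF i⟩
  have htop : IntermediateField.adjoin k (Set.range t') = ⊤ := by
    have h1 : (IntermediateField.adjoin k (Set.range t')).map F.val = (⊤ : IntermediateField k F).map F.val := by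
      rw [IntermediateField.adjoin_map, ← Set.range_comp]
      have h2 : (F.val ∘ t') = t := rfl
      rw [h2, ← hF]
      ext x
      constructor
      · intro hx
        exact ⟨⟨x, hx⟩, trivial, rfl⟩
      · rintro ⟨z, -, rfl⟩
        exact z.2
    exact IntermediateField.map_injective F.val h1
  have h1 : Algebra.IsAlgebraic (Algebra.adjoin k (Set.range t')) F := by
    constructor
    intro x
    rw [← IntermediateField.isAlgebraic_adjoin_iff, htop]
    have h3 : x = algebraMap (⊤ : IntermediateField k F) F ⟨x, trivial⟩ := rfl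
    rw [h3]
    exact isAlgebraic_algebraMap _
  have h2 := (Algebra.IsAlgebraic.isTranscendenceBasis_of_lift_le_trdeg_of_finite k t' (by
    rw [htr]; simp)).1
  have h3 : AlgebraicIndependent k (F.val ∘ t') := h2.map' (f := F.val) F.val.injective
  exact h3

theorem choose_sub_le (n M D : ℕ) (hM : D ≤ M) :
    (M + (n + 1)).choose (n + 1) ≤ (M - D + (n + 1)).choose (n + 1) + D * (M + n).choose n := by
  induction D with
  | zero => simp
  | succ D ih =>
    have h1 := ih (by omega)
    have h2 : M - D + (n + 1) = (M - (D + 1) + (n + 1)) + 1 := by omega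
    rw [h2, Nat.choose_succ_succ'] at h1
    have h3 : (M - (D + 1) + (n + 1)).choose n ≤ (M + n).choose n :=
      Nat.choose_le_choose n (by omega)
    rw [add_mul, one_mul]
    omega

end

/-- **ROW RAM.** -/
theorem ramStmt (k E : Type u) [Field k] [Field E] [Algebra k E] : RamStmt k E := by
  intro _ n s D y G hn hs hG hD hy h hh i₀ hi₀ htr F hF r θ hθ hθy
  classical
  obtain ⟨m, rfl⟩ : ∃ m, n = m + 1 := ⟨n - 1, by omega⟩
  let f : Fin (m + 1) → E := fun i => aeval y (h (Equiv.swap 0 i₀ i))
  have hf0 : f 0 = aeval y (h i₀) := by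
    change aeval y (h (Equiv.swap 0 i₀ 0)) = _
    rw [Equiv.swap_apply_left]
  have hf00 : f 0 ≠ 0 := by rw [hf0]; exact hi₀
  have hFf : F = rf k f := by
    rw [hF]
    unfold rf
    refine le_antisymm (IntermediateField.adjoin_le_iff.2 ?_)
      (IntermediateField.adjoin_le_iff.2 ?_)
    · rintro _ ⟨i, rfl⟩
      have h1 : aeval y (h i) = f (Equiv.swap 0 i₀ i) := by
        change _ = aeval y (h (Equiv.swap 0 i₀ (Equiv.swap 0 i₀ i)))
        rw [Equiv.swap_apply_self]
      change aeval y (h i) / aeval y (h i₀) ∈ _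
      rw [h1, ← hf0]
      refine Fin.cases ?_ (fun j => ?_) (Equiv.swap 0 i₀ i)
      · rw [div_self hf00]
        exact one_mem _
      · exact IntermediateField.subset_adjoin _ _ ⟨j, rfl⟩
    · rintro _ ⟨i, rfl⟩
      change f i.succ / f 0 ∈ _
      rw [hf0]
      exact IntermediateField.subset_adjoin _ _ ⟨Equiv.swap 0 i₀ i.succ, rfl⟩
  have htr' : Algebra.trdeg k F = (m : Cardinal) := by
    rw [hF, htr]
    simp
  have hind : AlgebraicIndependent k fun i : Fin m => f i.succ / f 0 :=
    algInd_of_trdeg _ F hFf htr'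
  obtain ⟨c, q, hq, hq0, hqθ⟩ := exists_common_den (k := k) θ Finset.univ hθy
  have hb : LinearIndependent (rf k f) (fun i => q * θ i) := by
    rw [← hFf]
    exact hθ.map' (LinearMap.mulLeft F q) (LinearMap.ker_eq_bot.2 (mul_right_injective₀ hq0))
  have hfd1 := finite_Av (k := k) y s
  have hfd2 := finite_Av (k := k) y c
  have hlow : ∀ N : ℕ, r * (N + m).choose m ≤ finrank k (Av k y (s * N + c)) := by
    intro N
    have h1 := grow_lower (T := Av k y s) (E := Av k y c) hf00 hind
      (fun i => ⟨_, hh _, rfl⟩) hb (fun j => hqθ j (Finset.mem_univ j)) N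
    have h2 : Av k y s ^ N * Av k y c ≤ Av k y (s * N + c) :=
      (mul_le_mul' (Av_pow_le y s N) le_rfl).trans (Av_mul_le y _ _)
    have hfd3 := finite_Av (k := k) y (s * N + c)
    exact h1.trans (Submodule.finrank_mono h2)
  have hup : ∀ M : ℕ, D ≤ M → finrank k (Av k y M) ≤ D * (M + m).choose m := by
    intro M hM
    have h1 := finrank_Av_add (k := k) hG hD hy hM
    have h2 := choose_sub_le m M D hM
    omega
  -- the limit
  have hkey : ∀ N : ℕ, 1 ≤ N → (r : ℝ) * (N : ℝ) ^ m * ((1 : ℕ) : ℝ) ^ m ≤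
      (D : ℝ) * ((s * 1 * N + (s * D + c + m) : ℕ) : ℝ) ^ m := by
    intro N _
    have h1 := hlow (N + D)
    have h2 := hup (s * (N + D) + c) (by nlinarith)
    have h3 : r * (m.factorial * (N + D + m).choose m) ≤
        D * (m.factorial * (s * (N + D) + c + m).choose m) := by
      calc r * (m.factorial * (N + D + m).choose m) =
          m.factorial * (r * (N + D + m).choose m) := by ring
        _ ≤ m.factorial * (D * (s * (N + D) + c + m).choose m) :=
          Nat.mul_le_mul le_rfl (h1.trans h2)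
        _ = _ := by ring
    have h4 : r * N ^ m ≤ D * (s * 1 * N + (s * D + c + m)) ^ m := by
      calc r * N ^ m ≤ r * (m.factorial * (N + D + m).choose m) := by
            refine Nat.mul_le_mul le_rfl ?_
            have h5 : ((N : ℝ)) ^ m ≤ m.factorial * ((N + m).choose m : ℕ) :=
              pow_le_fact_choose m N
            have h6 : N ^ m ≤ m.factorial * (N + m).choose m := by exact_mod_cast h5
            exact h6.trans (Nat.mul_le_mul le_rfl (Nat.choose_le_choose m (by omega)))
        _ ≤ D * (m.factorial * (s * (N + D) + c + m).choose m) := h3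
        _ ≤ D * (s * (N + D) + c + m) ^ m := Nat.mul_le_mul le_rfl (fact_choose_le m _)
        _ = _ := by ring_nf
    rw [Nat.cast_one, one_pow, mul_one]
    exact_mod_cast h4
  have h1 := limit_le m 1 s (s * D + c + m) le_rfl hkey
  exact_mod_cast h1

end Pool.Agent.TG9
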