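import Pool.Agent.Lib.TG9.Asm
import Pool.Agent.Lib.TG9.Ineq
import Pool.Agent.Lib.TG9.AbsG
import Pool.Agent.Lib.TG9.Lin
import Pool.Agent.Lib.TG9.BX
import Pool.Agent.Lib.TG9.R2
import Pool.Agent.Lib.TG9_h50.R5
import Pool.Agent.Lib.TG9_h63.R1
import Pool.Agent.Lib.TG9_h63.Rich
import Pool.Agent.Lib.TG9_h96.Good2
import Pool.Agent.Lib.TG9_h96.R3
import Pool.Agent.Lib.TG9_h80.R6
import Pool.Agent.Lib.TG9_h22.R7
import Pool.Agent.Lib.TG9_h22.R4
import Pool.Agent.Lib.TG9_h57.Big
import Pool.Agent.Lib.TG_h68.Dat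

/-!
# TANK G, BC9: PROJ over big fields
-/

set_option autoImplicit false

namespace Pool.Agent.TG9

open Pool.Agent.TG (ProjStmt)

universe u

theorem degStmt' {k : Type u} [Field k] (K κ M F : Type u) [Field K] [Algebra k K] [Field κ]
    [Algebra k κ] [Field M] [Algebra k M] [Algebra M κ] [IsScalarTower k M κ] [Field F]
    [Algebra k F] [Algebra F M] [IsScalarTower k F M] (n d : ℕ) : DegStmt k K κ M F n d := by
  intro hac hfg
  exact degStmt (clStmt k K hac hfg).1 (absStmt k F M d) (linStmt k K κ M) (richStmt k K n)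
    (ineqStmt' k K κ n d) hac hfg

/-- **PROJ**: every function field of transcendence degree `m + 1` over an uncountable
algebraically closed field of characteristic `p > d9 (m + 1)` has a projection to projective space
with local degrees at most `d9 (m + 1)` everywhere, also on the bad divisors. -/
theorem projStmt (k : Type u) [Field k] [IsAlgClosed k] [Uncountable k] {p m : ℕ} [CharP k p]
    (hp : p.Prime) (hlt : d9 (m + 1) < p) : ProjStmt k m (d9 (m + 1)) :=
  projStmt_of hp (big_of_uncountable k) hlt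
    (fun K _ _ => setupStmt (datStmt k K (m + 1)) (goodStmt' k K (m + 1) p))
    (fun K _ _ => r2Stmt (fun F _ _ _ _ n => degStmt' K K K F n n) (TG9h80.r6Stmt k K))
    (fun K _ _ => r3Stmt (fun κ M F _ _ _ _ _ _ _ _ _ _ n d => degStmt' K κ M F n d)
      (TG9h80.r6Stmt k K))
    (fun K _ _ => TG9h22.r4Stmt) (fun K _ _ => r5Stmt (TG9h80.r6Stmt k K))
    (fun K _ _ => TG9h80.r6Stmt k K) (fun K _ _ => TG9h22.r7Stmt (bxStmt k K))

end Pool.Agent.TG9

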