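import Pool.Agent.Lib.TG9.EB
import Pool.Agent.Lib.TG9.Defs3
import Pool.Agent.Lib.TG_h68.Cl

/-!
# TANK G, BC9: ROW MONO
-/

set_option autoImplicit false

namespace Pool.Agent.TG9

open Pool.Agent.TG (Ov ZDim IsMin IsModel Bir ch chN)
open Pool.Agent.TG15 (Gt Tp hx smulK exists_isMin_finset isMin_iff div_mem_iff)
open Module Filter

universe u

variable {k K : Type u} [Field k] [Field K] [Algebra k K]

/-- The elements of `D` in the complete linear system of `P` at the `V` with `T V`. -/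
def clT (D P : Submodule k K) (T : ValuationSubring K → Prop) : Submodule k K where
  carrier := {f | f ∈ D ∧ ∀ V : ValuationSubring K, T V → Ge V f P}
  add_mem' := fun ha hb => ⟨D.add_mem ha.1 hb.1, fun V hV => (ha.2 V hV).add (hb.2 V hV)⟩
  zero_mem' := ⟨D.zero_mem, fun _ _ => Or.inl rfl⟩
  smul_mem' := fun c _ ha => ⟨D.smul_mem c ha.1, fun V hV => (ha.2 V hV).smul c⟩

theorem clT_le (D P : Submodule k K) (T : ValuationSubring K → Prop) : clT D P T ≤ D :=
  fun _ h => h.1

theorem clT_mono (D P : Submodule k K) {T T' : ValuationSubring K → Prop} (h : ∀ V, T' V → T V) :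
    clT D P T ≤ clT D P T' := fun _ hf => ⟨hf.1, fun V hV => hf.2 V (h V hV)⟩

/-- Finitely many valuation rings are enough. -/
theorem exists_finite_test_cl (D P : Submodule k K) (hD : D.FG)
    (T : ValuationSubring K → Prop) :
    ∃ S : Finset (ValuationSubring K), (∀ V ∈ S, T V) ∧ clT D P (· ∈ S) = clT D P T := by
  classical
  have hfd : FiniteDimensional k D := Module.Finite.iff_fg.2 hD
  have hfdv : ∀ Q, FiniteDimensional k (clT D P Q) := fun Q =>
    Submodule.finiteDimensional_of_le (clT_le D P Q)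
  have hex : ∃ d : ℕ, ∃ S : Finset (ValuationSubring K), (∀ V ∈ S, T V) ∧
      finrank k (clT D P (· ∈ S)) = d := ⟨_, ∅, by simp, rfl⟩
  obtain ⟨S, hS, hd⟩ := Nat.find_spec hex
  refine ⟨S, hS, le_antisymm (fun f hf => ⟨hf.1, fun V hV => ?_⟩)
    (clT_mono D P fun V hV => hS V hV)⟩
  have h1 : clT D P (· ∈ insert V S) ≤ clT D P (· ∈ S) :=
    clT_mono D P fun W hW => Finset.mem_insert_of_mem hW
  have h2 : finrank k (clT D P (· ∈ S)) ≤ finrank k (clT D P (· ∈ insert V S)) := by
    rw [hd]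
    exact Nat.find_min' hex ⟨insert V S, fun W hW => by
      rcases Finset.mem_insert.1 hW with rfl | hW
      · exact hV
      · exact hS W hW, rfl⟩
  have h3 := Submodule.eq_of_le_of_finrank_le h1 h2
  rw [← h3] at hf
  exact hf.2 V (Finset.mem_insert_self V S)

theorem mono_succ [Infinite k] (hcl : ∀ P : Submodule k K, P.FG → (cl P).FG)
    {H H' : Submodule k K} (hH : H.FG) (hle : H' ≤ H) (hb : H' ≠ ⊥) (N : ℕ) :
    finrank k (cl (H ^ N)) - finrank k (cl (H' ^ N)) ≤
      finrank k (cl (H ^ (N + 1))) - finrank k (cl (H' ^ (N + 1))) := by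
  classical
  have hHfin : FiniteDimensional k H := Module.Finite.iff_fg.2 hH
  have hH'fin : FiniteDimensional k H' := Submodule.finiteDimensional_of_le hle
  have hH' : H'.FG := Module.Finite.iff_fg.1 hH'fin
  obtain ⟨S, hS, hSv⟩ := exists_finite_test_cl (cl (H ^ N)) (H' ^ N) (hcl _ (hH.pow N)) (Ov k)
  obtain ⟨g, hgH, hg0, hgmin⟩ := exists_isMin_finset (k := k) ⟨hH', hb⟩ S fun V hV => hS V hV
  have hf1 : FiniteDimensional k (cl (H ^ N)) := Module.Finite.iff_fg.2 (hcl _ (hH.pow N))
  have hf2 : FiniteDimensional k (cl (H ^ (N + 1))) :=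
    Module.Finite.iff_fg.2 (hcl _ (hH.pow (N + 1)))
  have hf3 : FiniteDimensional k (cl (H' ^ N)) := Module.Finite.iff_fg.2 (hcl _ (hH'.pow N))
  have hf4 : FiniteDimensional k (cl (H' ^ (N + 1))) :=
    Module.Finite.iff_fg.2 (hcl _ (hH'.pow (N + 1)))
  set μ : K →ₗ[k] K := LinearMap.mulLeft k g with hμ
  have hμinj : Function.Injective μ := fun x y hxy => mul_left_cancel₀ hg0 hxy
  have h1 : finrank k ((cl (H ^ N)).map μ) = finrank k (cl (H ^ N)) :=
    (LinearEquiv.finrank_eq (Submodule.equivMapOfInjective μ hμinj _)).symm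
  have h1' : finrank k ((cl (H' ^ N)).map μ) = finrank k (cl (H' ^ N)) :=
    (LinearEquiv.finrank_eq (Submodule.equivMapOfInjective μ hμinj _)).symm
  have hsub1 : (cl (H ^ N)).map μ ≤ cl (H ^ (N + 1)) := by
    rintro _ ⟨x, hx, rfl⟩
    have := pow_mul_mem_cl (hle hgH) hx 1
    rw [pow_one, pow_one, ← pow_succ'] at this
    exact this
  have hsub2 : cl (H' ^ (N + 1)) ≤ cl (H ^ (N + 1)) := cl_mono (pow_le_pow_left' hle _)
  have hinf : (cl (H ^ N)).map μ ⊓ cl (H' ^ (N + 1)) ≤ (cl (H' ^ N)).map μ := by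
    rintro _ ⟨⟨x, hx, rfl⟩, hx2⟩
    refine ⟨x, ?_, rfl⟩
    have h2 : x ∈ clT (cl (H ^ N)) (H' ^ N) (· ∈ S) := by
      refine ⟨hx, fun V hV => ?_⟩
      have hov := hS V hV
      have hmin := hgmin V hV
      rcases hx2 V hov with h | ⟨y, hy, hxy⟩
      · left
        exact hμinj (by rw [h, map_zero])
      · right
        refine ⟨g ^ N, Submodule.pow_mem_pow H' hgH N, ?_⟩
        have h3 := (div_mem_iff (pow_ne_zero _ hg0)).1 ((hmin.pow hov (N + 1)).div y hy)
        have h4 := hxy.trans h3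
        have h5 : μ x = g * x := rfl
        rw [h5, map_mul, pow_succ', map_mul] at h4
        exact le_of_mul_le_mul_left h4 (zero_lt_iff.2 ((Valuation.ne_zero_iff _).2 hg0))
    rw [hSv] at h2
    exact h2.2
  have h5 := Submodule.finrank_sup_add_finrank_inf_eq ((cl (H ^ N)).map μ) (cl (H' ^ (N + 1)))
  have hfm : FiniteDimensional k ((cl (H' ^ N)).map μ) := inferInstance
  have h6 := Submodule.finrank_mono hinf
  have h7 := Submodule.finrank_mono (sup_le hsub1 hsub2)
  omega

/-- **ROW MONO.** -/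
theorem monoStmt (k K : Type u) [Field k] [Field K] [Algebra k K] : MonoStmt k K := by
  intro halg hfg H H' hH hle hb
  have : Infinite k := IsAlgClosed.instInfinite
  refine monotone_nat_of_le_succ fun N => ?_
  exact mono_succ (clStmt k K halg hfg).1 hH hle hb N

end Pool.Agent.TG9
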