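import Pool.Agent.Lib.TG9.Final
import Pool.Agent.Lib.TGS27.Skel2

/-!
# TANK G, BC9: the field `proj` of `TGS27.Rows2`
-/

set_option autoImplicit false

namespace Pool.Agent.TG9

/-- The field `proj` of `TGS27.Rows2 d` for `d m = d9 (m + 1)`. -/
theorem rows2_proj : ∀ (m p : ℕ), p.Prime → d9 (m + 1) < p → ∀ (k : Type) [Field k],
    TGS27.Big p k → TG.ProjStmt k m (d9 (m + 1)) := by
  intro m p hp hlt k _ hk
  have h1 := hk.closed
  have h2 := hk.char
  have h3 := hk.unc
  exact projStmt k hp hlt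

end Pool.Agent.TG9
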