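import Pool.Agent.Lib.TG9.Defs3
import Pool.Agent.Lib.TGT.Sep
import Pool.Agent.Lib.TG_h62.DV
import Pool.Agent.Lib.ALL_h35.InDiv

/-!
# TANK G, backup track BC9: row SEP

Generic forms of degree `s` in the `y a` give a separating transcendence basis of `k (y a / y b)`.
-/

set_option autoImplicit false

namespace Pool.Agent.TG9

open Module MvPolynomial
open Pool.Agent.TGT (exists_poly_base exists_poly_span finrank_omega_le sep_of_jets jets_span)
open Pool.Agent.TGh62 (rf algebraicIndependent_of)

universe u

section Mons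

variable {k L : Type u} [Field k] [Field L] [Algebra k L] {n : ℕ}

/-- The exponents of degree `s`. -/
abbrev Exps (n s : ℕ) : Type := {μ : Fin (n + 1) →₀ ℕ // μ.degree = s}

/-- The values of the monomials of degree `s`. -/
noncomputable def qm (k : Type u) {L : Type u} [Field k] [Field L] [Algebra k L] {n : ℕ}
    (z : Fin (n + 1) → L) (s : ℕ) (μ : Exps n s) : L :=
  aeval z (monomial μ.1 (1 : k))

theorem aeval_eq_sum_qm (z : Fin (n + 1) → L) {s : ℕ} [Fintype (Exps n s)]
    {h : MvPolynomial (Fin (n + 1)) k} (hh : h.IsHomogeneous s) :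
    aeval z h = ∑ μ : Exps n s, h.coeff μ.1 • qm k z s μ := by
  classical
  have h1 : h = ∑ μ : Exps n s, h.coeff μ.1 • monomial μ.1 (1 : k) := by
    ext m
    rw [coeff_sum]
    by_cases hm : m.degree = s
    · rw [Finset.sum_eq_single (⟨m, hm⟩ : Exps n s)]
      · rw [coeff_smul, coeff_monomial, if_pos rfl, smul_eq_mul, mul_one]
      · intro μ _ hμ
        rw [coeff_smul, coeff_monomial, if_neg, smul_zero]
        intro h2
        exact hμ (Subtype.ext h2)
      · intro h2
        exact absurd (Finset.mem_univ _) h2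
    · rw [Finset.sum_eq_zero]
      · by_contra h2
        have h3 := hh h2
        have h4 : (Finsupp.weight 1) m = m.degree := by
          rw [Finsupp.degree_eq_weight_one]
          rfl
        rw [h4] at h3
        exact hm h3
      · intro μ _
        rw [coeff_smul, coeff_monomial, if_neg, smul_zero]
        rintro rfl
        exact hm μ.2
  conv_lhs => rw [h1]
  rw [map_sum]
  refine Finset.sum_congr rfl fun μ _ => ?_
  rw [map_smul]
  rfl

/-- If the ratios of the elements of `P` generate `L` and `v` spans `P` then the jets of `v`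
span. -/
theorem jets_span' [Algebra.EssFiniteType k L] {ι : Type} [Fintype ι] (v : ι → L)
    (hP : IntermediateField.adjoin k {x : L | ∃ a b, x = v a / v b} = ⊤)
    (s₀ : ι) (hs₀ : v s₀ ≠ 0) :
    Submodule.span L (Set.range fun s : ι => (v s, KaehlerDifferential.D k L (v s))) = ⊤ := by
  classical
  set P : Submodule k L := Submodule.span k (Set.range v) with hPdef
  have hfin : FiniteDimensional k P := FiniteDimensional.span_of_finite k (Set.finite_range v)
  have hbir : Pool.Agent.TG.Bir P := by
    unfold Pool.Agent.TG.Bir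
    rw [eq_top_iff, ← hP]
    refine IntermediateField.adjoin.mono _ _ _ ?_
    rintro x ⟨a, b, rfl⟩
    exact ⟨v b, Submodule.subset_span ⟨b, rfl⟩, v a, Submodule.subset_span ⟨a, rfl⟩, rfl⟩
  let e := Module.finBasis k P
  have hne : 0 < finrank k P := by
    rw [Module.finrank_pos_iff, Submodule.nontrivial_iff_ne_bot]
    intro h
    have h1 : v s₀ ∈ P := Submodule.subset_span ⟨s₀, rfl⟩
    rw [h, Submodule.mem_bot] at h1
    exact hs₀ h1
  have h1 := jets_span P e hbir ⟨0, hne⟩
  rw [eq_top_iff, ← h1, Submodule.span_le]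
  rintro _ ⟨j, rfl⟩
  have h2 : ∀ f ∈ P, (f, KaehlerDifferential.D k L f) ∈
      Submodule.span L (Set.range fun s : ι => (v s, KaehlerDifferential.D k L (v s))) := by
    intro f hf
    induction hf using Submodule.span_induction with
    | mem x hx =>
      obtain ⟨s, rfl⟩ := hx
      exact Submodule.subset_span ⟨s, rfl⟩
    | zero =>
      rw [map_zero]
      exact Submodule.zero_mem _
    | add x y _ _ hx hy =>
      have := Submodule.add_mem _ hx hy
      rw [Prod.mk_add_mk, ← map_add] at this
      exact this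
    | smul c x _ hx =>
      have := Submodule.smul_mem _ (algebraMap k L c) hx
      rw [Prod.smul_mk, algebraMap_smul, algebraMap_smul, ← Derivation.map_smul] at this
      exact this
  exact h2 _ (e j).2

end Mons

section Sep

variable {k E : Type u} [Field k] [Field E] [Algebra k E]

/-- Separability in an intermediate field. -/
theorem isSeparable_of_map (E' : IntermediateField k E) {ι : Type*} (g : ι → E')
    {x : E'} (hx : IsSeparable (IntermediateField.adjoin k (Set.range g)) x) :
    IsSeparable (IntermediateField.adjoin k (Set.range fun i => (g i : E))) (x : E) := by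
  set F' := IntermediateField.adjoin k (Set.range g) with hF'
  set F := IntermediateField.adjoin k (Set.range fun i => (g i : E)) with hF
  have h1 : ∀ z ∈ F', (z : E) ∈ F := by
    intro z hz
    have h2 : F'.map E'.val = F := by
      rw [hF', IntermediateField.adjoin_map, ← Set.range_comp]
      rfl
    rw [← h2]
    exact ⟨z, hz, rfl⟩
  let φ : F' →+* F :=
    { toFun := fun z => ⟨((z : E') : E), h1 _ z.2⟩
      map_one' := rfl
      map_mul' := fun _ _ => rfl
      map_zero' := rfl
      map_add' := fun _ _ => rfl }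
  unfold IsSeparable at hx ⊢
  have h2 : ((minpoly F' x).map φ).Separable := hx.map
  refine h2.of_dvd (minpoly.dvd _ _ ?_)
  rw [Polynomial.aeval_def, Polynomial.eval₂_map]
  have h3 : (algebraMap F E).comp φ = (algebraMap E' E).comp (algebraMap F' E') := rfl
  rw [h3]
  have h4 := congrArg (algebraMap E' E) (minpoly.aeval F' x)
  rw [Polynomial.aeval_def, Polynomial.hom_eval₂, map_zero] at h4
  exact h4

/-- **ROW SEP.** -/
theorem sepStmt (k E : Type u) [Field k] [Field E] [Algebra k E] : SepStmt k E := by
  classical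
  intro hk n d s hd hs y hy htr
  obtain ⟨b, hb⟩ := hy
  have hfinE := Pool.Agent.ALL.homDim_finite (n + 1) s
  have hFt : Fintype (Exps n s) := Fintype.ofFinite _
  set E' := IntermediateField.adjoin k {x : E | ∃ a b, x = y a / y b} with hE'
  have hmem : ∀ a c, y a / y c ∈ E' := fun a c =>
    IntermediateField.subset_adjoin _ _ ⟨a, c, rfl⟩
  let z : Fin (n + 1) → E' := fun a => ⟨y a / y b, hmem a b⟩
  have hz : ∀ a, ((z a : E') : E) * y b = y a := fun a => div_mul_cancel₀ _ hb
  have hzb : z b = 1 := Subtype.ext (div_self hb)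
  -- values
  have hval : ∀ h : MvPolynomial (Fin (n + 1)) k, h.IsHomogeneous s →
      ((aeval z h : E') : E) * y b ^ s = aeval y h := by
    intro h hh
    rw [aeval_eq_sum_qm z hh, aeval_eq_sum_qm y hh]
    have h1 : ((∑ μ : Exps n s, h.coeff μ.1 • qm k z s μ : E') : E) =
        ∑ μ : Exps n s, h.coeff μ.1 • ((qm k z s μ : E') : E) := by
      rw [AddSubmonoidClass.coe_finsetSum]
      rfl
    rw [h1, Finset.sum_mul]
    refine Finset.sum_congr rfl fun μ _ => ?_
    rw [smul_mul_assoc]
    congr 1
    unfold qm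
    rw [aeval_monomial, aeval_monomial, map_one, map_one, one_mul, one_mul,
      Finsupp.prod_fintype _ _ (fun i => pow_zero _), Finsupp.prod_fintype _ _ (fun i => pow_zero _)]
    have h2 : ((∏ i, z i ^ μ.1 i : E') : E) = ∏ i, ((z i : E') : E) ^ μ.1 i := by
      rw [← IntermediateField.algebraMap_apply, map_prod]
      refine Finset.prod_congr rfl fun i _ => ?_
      rw [map_pow]
      rfl
    have h3 : y b ^ s = ∏ i, y b ^ μ.1 i := by
      rw [Finset.prod_pow_eq_pow_sum]
      congr 1
      have h4 := μ.2
      rw [Finsupp.degree_eq_sum] at h4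
      exact h4.symm
    rw [h2, h3, ← Finset.prod_mul_distrib]
    refine Finset.prod_congr rfl fun i _ => ?_
    rw [← mul_pow, hz]
  have hess : Algebra.EssFiniteType k E' := by
    rw [IntermediateField.essFiniteType_iff, hE']
    refine IntermediateField.fg_adjoin_of_finite ?_
    have h1 : {x : E | ∃ a b, x = y a / y b} =
        Set.range fun p : Fin (n + 1) × Fin (n + 1) => y p.1 / y p.2 := by
      ext x
      constructor
      · rintro ⟨a, c, rfl⟩
        exact ⟨(a, c), rfl⟩
      · rintro ⟨⟨a, c⟩, rfl⟩
        exact ⟨a, c, rfl⟩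
    rw [h1]
    exact Set.finite_range _
  -- the monomial `y b ^ s`
  let μ₀ : Exps n s := ⟨Finsupp.single b s, by simp⟩
  have hμ₀ : qm k z s μ₀ = 1 := by
    change aeval z (monomial (Finsupp.single b s) (1 : k)) = 1
    have h1 : (monomial (Finsupp.single b s) (1 : k)) = X b ^ s := by
      rw [X_pow_eq_monomial]
    rw [h1, map_pow, aeval_X, hzb, one_pow]
  have hgen : IntermediateField.adjoin k {x : E' | ∃ a b, x = qm k z s a / qm k z s b} = ⊤ := by
    have h1 : ∀ a, z a ∈ IntermediateField.adjoin k
        {x : E' | ∃ a b, x = qm k z s a / qm k z s b} := by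
      intro a
      refine IntermediateField.subset_adjoin _ _
        ⟨⟨Finsupp.single a 1 + Finsupp.single b (s - 1), ?_⟩, μ₀, ?_⟩
      · rw [map_add, Finsupp.degree_single, Finsupp.degree_single]
        omega
      · rw [hμ₀, div_one]
        change z a = aeval z (monomial (Finsupp.single a 1 + Finsupp.single b (s - 1)) (1 : k))
        have h2 : (monomial (Finsupp.single a 1 + Finsupp.single b (s - 1)) (1 : k)) =
            X a * X b ^ (s - 1) := by
          rw [X_pow_eq_monomial, X, monomial_mul, one_mul]
        rw [h2, map_mul, map_pow, aeval_X, aeval_X, hzb, one_pow, mul_one]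
    rw [eq_top_iff]
    rintro ⟨x, hx⟩ -
    have h2 : ∀ x (hx : x ∈ E'), (⟨x, hx⟩ : E') ∈ IntermediateField.adjoin k
        {x : E' | ∃ a b, x = qm k z s a / qm k z s b} := by
      intro x hx
      have h3 : E' ≤ (IntermediateField.adjoin k
        {x : E' | ∃ a b, x = qm k z s a / qm k z s b}).map E'.val := by
        conv_lhs => rw [hE']
        rw [IntermediateField.adjoin_le_iff]
        rintro _ ⟨a, c, rfl⟩
        refine ⟨z a / z c, IntermediateField.div_mem _ (h1 a) (h1 c), ?_⟩
        change ((z a / z c : E') : E) = y a / y c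
        have h4 : ((z a / z c : E') : E) = (y a / y b) / (y c / y b) := rfl
        rw [h4, div_div_div_cancel_right₀ hb]
      obtain ⟨w, hw, hwx⟩ := h3 hx
      have h4 : w = ⟨x, hx⟩ := Subtype.ext hwx
      rw [← h4]
      exact hw
    exact h2 x hx
  obtain ⟨hfin, hfr⟩ := finrank_omega_le (k := k) (K := E') htr
  have hfr' : finrank E' (E' × Ω[E'⁄k]) ≤ d + 1 := by
    rw [finrank_prod, finrank_self]
    omega
  obtain ⟨Δ, hΔ0, hΔ⟩ := exists_poly_span (k := k) hfr' _
    (jets_span' (qm k z s) hgen μ₀ (by rw [hμ₀]; exact one_ne_zero))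
  -- the polynomial for `h 0`
  let W : MvPolynomial (Fin (n + 1) × Exps n s) E' := ∑ μ : Exps n s, C (qm k z s μ) * X (0, μ)
  have hWev : ∀ a : Fin (n + 1) × Exps n s → k,
      eval (fun i => algebraMap k E' (a i)) W = ∑ μ : Exps n s, a (0, μ) • qm k z s μ := by
    intro a
    change eval _ (∑ μ, _) = _
    rw [map_sum]
    refine Finset.sum_congr rfl fun μ _ => ?_
    rw [map_mul, eval_C, eval_X, mul_comm, Algebra.smul_def]
  have hW : W ≠ 0 := by
    intro h0
    have h1 := hWev (fun p => if p = (0, μ₀) then 1 else 0)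
    rw [h0, map_zero, Finset.sum_eq_single μ₀] at h1
    · rw [if_pos rfl, one_smul, hμ₀] at h1
      exact zero_ne_one h1
    · intro μ _ hμ
      rw [if_neg, zero_smul]
      intro h2
      exact hμ (congrArg Prod.snd h2)
    · intro h2
      exact absurd (Finset.mem_univ _) h2
  obtain ⟨Δ', hΔ'0, hΔ'⟩ := exists_poly_base (k := k) W hW
  let ρ : Fin (d + 1) × Exps n s → Fin (n + 1) × Exps n s :=
    fun p => (Fin.castLE (Nat.succ_le_succ hd) p.1, p.2)
  have hρ : Function.Injective ρ := by
    rintro ⟨i, μ⟩ ⟨j, ν⟩ h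
    have h1 := congrArg Prod.fst h
    have h2 := congrArg Prod.snd h
    exact Prod.ext (Fin.castLE_injective (Nat.succ_le_succ hd) h1) h2
  refine ⟨rename ρ Δ * Δ', mul_ne_zero ?_ hΔ'0, fun h hh hev => ?_⟩
  · intro h0
    exact hΔ0 (rename_injective ρ hρ (by rw [h0, map_zero]))
  rw [map_mul] at hev
  have hev1 := left_ne_zero_of_mul hev
  have hev2 := hΔ' _ (right_ne_zero_of_mul hev)
  rw [hWev, ← aeval_eq_sum_qm z (hh 0)] at hev2
  rw [eval_rename] at hev1
  have hsp := hΔ _ hev1
  let f : Fin (d + 1) → E' := fun i => aeval z (h (Fin.castLE (Nat.succ_le_succ hd) i))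
  have hf0 : f 0 ≠ 0 := hev2
  have hsp' : Submodule.span E' (Set.range fun i => (f i, KaehlerDifferential.D k E' (f i))) =
      ⊤ := by
    rw [← hsp]
    congr 2
    ext1 i
    have h1 : f i = ∑ μ : Exps n s, (h (Fin.castLE (Nat.succ_le_succ hd) i)).coeff μ.1 •
        qm k z s μ := aeval_eq_sum_qm z (hh _)
    apply Prod.ext
    · rw [Prod.fst_sum]
      exact h1.trans (Finset.sum_congr rfl fun s _ => by rw [Algebra.smul_def]; rfl)
    · rw [Prod.snd_sum]
      conv_lhs => rw [h1]
      rw [map_sum]
      exact Finset.sum_congr rfl fun s _ => by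
        rw [Derivation.map_smul, ← algebraMap_smul E']; rfl
  have hsep := sep_of_jets f hsp' 0 hf0
  have hrf : IntermediateField.adjoin k (Set.range fun i => f i / f 0) = rf k f := by
    unfold rf
    refine le_antisymm (IntermediateField.adjoin_le_iff.2 ?_)
      (IntermediateField.adjoin_le_iff.2 ?_)
    · rintro _ ⟨i, rfl⟩
      refine Fin.cases ?_ (fun j => ?_) i
      · change f 0 / f 0 ∈ _
        rw [div_self hf0]
        exact one_mem _
      · exact IntermediateField.subset_adjoin _ _ ⟨j, rfl⟩
    · rintro _ ⟨i, rfl⟩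
      exact IntermediateField.subset_adjoin _ _ ⟨i.succ, rfl⟩
  rw [hrf] at hsep
  have halg : Algebra.IsAlgebraic (rf k f) E' := Algebra.IsSeparable.isAlgebraic _ _
  have hind := algebraicIndependent_of halg htr
  have hratio : ∀ i : Fin d, (((f i.succ / f 0 : E') : E)) =
      aeval y (h (Fin.castLE (Nat.succ_le_succ hd) i.succ)) / aeval y (h 0) := by
    intro i
    rw [← hval _ (hh _), ← hval _ (hh 0), mul_div_mul_right _ _ (pow_ne_zero s hb)]
    rfl
  refine ⟨?_, ?_, ?_⟩
  · rw [← hval _ (hh 0)]
    refine mul_ne_zero ?_ (pow_ne_zero s hb)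
    intro h0
    exact hf0 (Subtype.ext h0)
  · have h1 : AlgebraicIndependent k (E'.val ∘ fun i : Fin d => f i.succ / f 0) :=
      hind.map' (f := E'.val) E'.val.injective
    have h2 : (E'.val ∘ fun i : Fin d => f i.succ / f 0) = fun i : Fin d =>
        aeval y (h (Fin.castLE (Nat.succ_le_succ hd) i.succ)) / aeval y (h 0) :=
      funext fun i => hratio i
    rw [h2] at h1
    exact h1
  · intro x hx
    have h1 : IsSeparable (rf k f) (⟨x, hx⟩ : E') := hsep.isSeparable _ _
    have h2 := isSeparable_of_map E' (fun i : Fin d => f i.succ / f 0) h1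
    have h3 : (fun i : Fin d => (((f i.succ / f 0 : E') : E))) = fun i : Fin d =>
        aeval y (h (Fin.castLE (Nat.succ_le_succ hd) i.succ)) / aeval y (h 0) :=
      funext fun i => hratio i
    rw [h3] at h2
    exact h2

end Sep

end Pool.Agent.TG9
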